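import Pool.Agent.P.MP_f05dbc_gt.NZ.Defs

/-!
A free, properly discontinuous action on a contractible space with finitely many orbits of cells
gives a group of type F.
-/

namespace Pool.Agent.P.MP_f05dbc_gt.NZ

open Set Topology Metric Filter unitInterval

section Cube

variable {N : Type} [Fintype N] [Nonempty N]

/-- Distance to the boundary of the cube. -/
noncomputable def cubeD (y : N → I) : ℝ :=
  Finset.univ.inf' Finset.univ_nonempty fun i => min (y i : ℝ) (1 - y i)

theorem continuous_cubeD : Continuous (cubeD : (N → I) → ℝ) :=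
  Continuous.finset_inf'_apply Finset.univ_nonempty fun i _ => by fun_prop

/-- Expansion of the cube. -/
noncomputable def cubeClamp (τ : I) (y : N → I) : N → I :=
  fun i => projIcc 0 1 zero_le_one (((y i : ℝ) - τ / 4) / (1 - τ / 2))

omit [Fintype N] [Nonempty N] in
theorem continuous_cubeClamp : Continuous fun p : I × (N → I) => cubeClamp p.1 p.2 := by
  refine continuous_pi fun i => continuous_projIcc.comp (Continuous.div (by fun_prop)
    (by fun_prop) fun p => ?_)
  have := p.1.2.2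
  linarith

theorem cubeClamp_mem (τ : I) (y : N → I) (h : 4 * cubeD y ≤ τ) :
    cubeClamp τ y ∈ Cube.boundary N := by
  have hτ : 0 < 1 - (τ : ℝ) / 2 := by have := τ.2.2; linarith
  obtain ⟨i, -, hi⟩ := Finset.exists_mem_eq_inf' Finset.univ_nonempty
    fun i => min (y i : ℝ) (1 - y i)
  rw [cubeD, hi] at h
  refine ⟨i, ?_⟩
  rcases min_choice (y i : ℝ) (1 - y i) with k | k <;> rw [k] at h
  · left
    exact projIcc_of_le_left _ (div_nonpos_of_nonpos_of_nonneg (by linarith) hτ.le)
  · right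
    exact projIcc_of_right_le _ ((le_div_iff₀ hτ).2 (by linarith))

theorem cubeD_boundary {y : N → I} (h : y ∈ Cube.boundary N) : cubeD y ≤ 0 := by
  obtain ⟨i, hi⟩ := h
  refine (Finset.inf'_le _ (Finset.mem_univ i)).trans ?_
  rcases hi with hi | hi <;> simp [hi]

theorem homotopicRel_of_contractible {L : Type} [TopologicalSpace L] [ContractibleSpace L]
    (x : L) (f g : C(N → I, L)) (hf : ∀ y ∈ Cube.boundary N, f y = x)
    (hg : ∀ y ∈ Cube.boundary N, g y = x) : f.HomotopicRel g (Cube.boundary N) := by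
  obtain ⟨c, ⟨H⟩⟩ := id_nullhomotopic L
  let m : I × (N → I) → I := fun p => projIcc 0 1 zero_le_one (min (p.1 : ℝ) (4 * cubeD p.2))
  have hD := continuous_cubeD (N := N)
  have hm : Continuous m := continuous_projIcc.comp (by fun_prop)
  let E : C(N → I, L) := ⟨fun y => H (m (1, y), x), by fun_prop⟩
  have key : ∀ f : C(N → I, L), (∀ y ∈ Cube.boundary N, f y = x) →
      f.HomotopicRel E (Cube.boundary N) := by
    intro f hf
    refine ⟨⟨⟨⟨fun p => H (m p, f (cubeClamp p.1 p.2)), ?_⟩, ?_, ?_⟩, ?_⟩⟩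
    · have := continuous_cubeClamp (N := N)
      fun_prop
    · intro y
      have h1 : m (0, y) = 0 := projIcc_of_le_left _ (min_le_left _ _)
      have h2 : cubeClamp 0 y = y := by
        funext i; simp [cubeClamp]
      change H (m (0, y), f (cubeClamp 0 y)) = _
      rw [h1, h2, H.apply_zero]; rfl
    · intro y
      change H (m (1, y), f (cubeClamp 1 y)) = H (m (1, y), x)
      rcases le_total (4 * cubeD y) (1 : I) with h | h
      · rw [hf _ (cubeClamp_mem 1 y h)]
      · have h1 : m (1, y) = 1 := projIcc_of_right_le _ (le_min le_rfl h)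
        rw [h1, H.apply_one, H.apply_one]; rfl
    · intro τ y hy
      have h0 := cubeD_boundary hy
      have h1 : m (τ, y) = 0 := projIcc_of_le_left _ (min_le_of_right_le (by linarith))
      change H (m (τ, y), f (cubeClamp τ y)) = _
      rw [h1, H.apply_zero, hf _ (cubeClamp_mem τ y (by linarith [τ.2.1])), hf _ hy]; rfl
  exact (key f hf).trans (key g hg).symm

end Cube

theorem exists_lift_genLoop {N E K : Type} [Nontrivial N] [TopologicalSpace E]
    [TopologicalSpace K] {p : E → K} (cov : IsCoveringMap p) (e : E) (f : GenLoop N K (p e)) :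
    ∃ F : C(N → I, E), p ∘ F = f.1 ∧ ∀ y ∈ Cube.boundary N, F y = e := by
  classical
  obtain ⟨i0⟩ : Nonempty N := inferInstance
  let H : C(I × (N → I), K) := ⟨fun q => f.1 fun i => q.1 * q.2 i, by fun_prop⟩
  have H0 : ∀ a, H (0, a) = p ((ContinuousMap.const (N → I) e) a) := fun a =>
    f.2 _ ⟨i0, Or.inl (by simp)⟩
  let L := cov.liftHomotopy H (ContinuousMap.const _ e) H0
  have hL : ∀ q, p (L q) = H q := congrFun (cov.liftHomotopy_lifts H _ H0)
  have hL0 : ∀ a, L (0, a) = e := cov.liftHomotopy_zero H _ H0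
  have z : ∀ y : N → I, ∀ i, y i = 0 → L (1, y) = e := by
    intro y i hi
    rw [← hL0 y]
    refine cov.const_of_comp (g := fun t : I => L (t, y)) (by fun_prop) (fun t t' => ?_) 1 0
    rw [hL, hL]
    exact (f.2 _ ⟨i, Or.inl (by simp [hi])⟩).trans (f.2 _ ⟨i, Or.inl (by simp [hi])⟩).symm
  refine ⟨⟨fun y => L (1, y), by fun_prop⟩, funext fun y => ?_, ?_⟩
  · change p (L (1, y)) = _
    rw [hL]
    change f.1 (fun i => 1 * y i) = f.1 y
    simp
  · rintro y ⟨i, hi | hi⟩
    · exact z y i hi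
    · obtain ⟨j, hj⟩ := exists_ne i
      have h1 : L (1, Function.update y j 0) = e := z _ j (by simp)
      have h2 := cov.const_of_comp (g := fun t : I => L (1, Function.update y j (t * y j)))
        (by fun_prop) (fun t t' => by
          rw [hL, hL]
          exact (f.2 _ ⟨i, Or.inr (by simp [Function.update_of_ne hj.symm, hi])⟩).trans
            (f.2 _ ⟨i, Or.inr (by simp [Function.update_of_ne hj.symm, hi])⟩).symm) 1 0
      simp only [one_mul, Function.update_eq_self, zero_mul] at h2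
      change L (1, y) = e
      rw [h2, h1]

theorem subsingleton_homotopyGroup {N E K : Type} [Fintype N] [Nontrivial N] [TopologicalSpace E]
    [ContractibleSpace E] [TopologicalSpace K] {p : E → K} (cov : IsCoveringMap p) (e : E) :
    Subsingleton (HomotopyGroup N K (p e)) := by
  constructor
  intro a b
  induction a using Quotient.inductionOn with | _ f => ?_
  induction b using Quotient.inductionOn with | _ g => ?_
  obtain ⟨F, hF, hF'⟩ := exists_lift_genLoop cov e f
  obtain ⟨G, hG, hG'⟩ := exists_lift_genLoop cov e g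
  obtain ⟨H⟩ := homotopicRel_of_contractible e F G hF' hG'
  have h := H.compContinuousMap (⟨p, cov.continuous⟩ : C(E, K))
  have e1 : (⟨p, cov.continuous⟩ : C(E, K)).comp F = f.1 := ContinuousMap.ext (congrFun hF)
  have e2 : (⟨p, cov.continuous⟩ : C(E, K)).comp G = g.1 := ContinuousMap.ext (congrFun hG)
  rw [e1, e2] at h
  exact Quotient.sound ⟨h⟩

theorem continuousOn_symm_of_compact {A K : Type} [TopologicalSpace A] [Nonempty A]
    [TopologicalSpace K] [T2Space K] {f : A → K} (hf : Continuous f) {s c : Set A}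
    (hc : IsCompact c) (hsc : s ⊆ c) (hinj : InjOn f s)
    (hout : ∀ y ∈ c, ∀ y' ∈ s, f y = f y' → y ∈ s) :
    ContinuousOn (hinj.toPartialEquiv f s).symm (hinj.toPartialEquiv f s).target := by
  rw [continuousOn_iff_isClosed]
  intro t ht
  refine ⟨f '' (c ∩ t), ((hc.inter_right ht).image hf).isClosed, ?_⟩
  ext x
  constructor
  · rintro ⟨h1, h2⟩
    have h3 := (hinj.toPartialEquiv f s).map_target h2
    exact ⟨⟨_, ⟨hsc h3, h1⟩, (hinj.toPartialEquiv f s).right_inv h2⟩, h2⟩
  · rintro ⟨⟨y, ⟨hy, hyt⟩, rfl⟩, h2⟩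
    obtain ⟨y', hy', e⟩ := id h2
    have h3 : y ∈ s := hout y hy y' hy' e.symm
    refine ⟨?_, h2⟩
    have h4 : (hinj.toPartialEquiv f s).symm (f y) = y := (hinj.toPartialEquiv f s).left_inv h3
    rw [mem_preimage, h4]
    exact hyt

theorem typeF_of_cells {G E : Type} [Group G] [TopologicalSpace E] [T2Space E]
    [LocallyCompactSpace E] [MulAction G E] [ContinuousConstSMul G E]
    [ProperlyDiscontinuousSMul G E] [IsCancelSMul G E] [ContractibleSpace E]
    (ι : ℕ → Type) (hfin : ∀ n, Finite (ι n)) (hemp : ∀ᶠ n in atTop, IsEmpty (ι n))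
    (φ : ∀ n, ι n → (Fin n → ℝ) → E) (hc : ∀ n i, Continuous (φ n i))
    (hsurj : ∀ e : E, ∃ (g : G) (n : ℕ) (i : ι n), ∃ y ∈ ball (0 : Fin n → ℝ) 1, g • φ n i y = e)
    (hinj : ∀ (g : G) (n m : ℕ) (i : ι n) (j : ι m) (y : Fin n → ℝ) (y' : Fin m → ℝ),
      y ∈ ball 0 1 → y' ∈ ball 0 1 → g • φ n i y = φ m j y' →
      (⟨n, i, y⟩ : Σ n, ι n × (Fin n → ℝ)) = ⟨m, j, y'⟩)
    (hbd : ∀ n i, ∀ y ∈ sphere (0 : Fin n → ℝ) 1, ∃ (g : G) (m : ℕ), m < n ∧ ∃ j : ι m,
      ∃ y' ∈ ball (0 : Fin m → ℝ) 1, g • φ m j y' = φ n i y) :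
    TypeF G := by
  let K := Quotient (MulAction.orbitRel G E)
  let q : E → K := Quotient.mk (MulAction.orbitRel G E)
  have hq : IsQuotientCoveringMap q G :=
    isQuotientCoveringMap_quotientMk_of_properlyDiscontinuousSMul
  have hqc : Continuous q := hq.continuous
  have hI : ∀ (n m : ℕ) (i : ι n) (j : ι m) (y : Fin n → ℝ) (y' : Fin m → ℝ),
      y ∈ ball 0 1 → y' ∈ ball 0 1 → q (φ n i y) = q (φ m j y') →
      (⟨n, i, y⟩ : Σ n, ι n × (Fin n → ℝ)) = ⟨m, j, y'⟩ := by
    intro n m i j y y' hy hy' h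
    obtain ⟨g, hg⟩ := hq.apply_eq_iff_mem_orbit.1 h.symm
    exact hinj g n m i j y y' hy hy' hg
  have hB : ∀ n i, ∀ y ∈ sphere (0 : Fin n → ℝ) 1, ∃ m : ℕ, m < n ∧ ∃ j : ι m,
      ∃ y' ∈ ball (0 : Fin m → ℝ) 1, q (φ m j y') = q (φ n i y) := by
    intro n i y hy
    obtain ⟨g, m, hm, j, y', hy', h⟩ := hbd n i y hy
    exact ⟨m, hm, j, y', hy', by rw [← h, hq.map_smul]⟩
  have hJ : ∀ n i, InjOn (fun y => q (φ n i y)) (ball 0 1) := by
    intro n i y hy y' hy' h
    have := hI n n i i y y' hy hy' h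
    simpa using this
  let map : ∀ n, ι n → PartialEquiv (Fin n → ℝ) K := fun n i => (hJ n i).toPartialEquiv _ _
  have h1 : ∀ n i, (map n i).source = ball 0 1 := fun n i => rfl
  have h2 : ∀ n i, ContinuousOn (map n i) (closedBall 0 1) := fun n i =>
    (hqc.comp (hc n i)).continuousOn
  have h3 : ∀ n i, ContinuousOn (map n i).symm (map n i).target := by
    intro n i
    refine continuousOn_symm_of_compact (hqc.comp (hc n i)) (isCompact_closedBall 0 1)
      ball_subset_closedBall (hJ n i) fun y hy y' hy' h => ?_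
    by_contra hn
    have hs : y ∈ sphere (0 : Fin n → ℝ) 1 :=
      le_antisymm (mem_closedBall.1 hy) (not_lt.1 fun k => hn (mem_ball.2 k))
    obtain ⟨m, hm, j, z, hz, e⟩ := hB n i y hs
    have := hI m n j i z y' hz hy' (e.trans h)
    exact hm.ne (congrArg Sigma.fst this)
  have h4 : (univ : Set (Σ n, ι n)).PairwiseDisjoint
      (fun ni => map ni.1 ni.2 '' ball 0 1) := by
    rintro ⟨n, i⟩ - ⟨m, j⟩ - hne
    refine disjoint_left.2 ?_
    rintro x ⟨y, hy, rfl⟩ ⟨y', hy', h⟩
    have := hI n m i j y y' hy hy' h.symm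
    exact hne (congrArg (fun s : Σ n, ι n × (Fin n → ℝ) => (⟨s.1, s.2.1⟩ : Σ n, ι n)) this)
  have h5 : ∀ n i, MapsTo (map n i) (sphere 0 1)
      (⋃ (m < n) (j : ι m), map m j '' closedBall 0 1) := by
    intro n i y hy
    obtain ⟨m, hm, j, z, hz, e⟩ := hB n i y hy
    simp only [mem_iUnion]
    exact ⟨m, hm, j, z, ball_subset_closedBall hz, e⟩
  have h6 : ⋃ (n : ℕ) (j : ι n), map n j '' closedBall 0 1 = univ := by
    refine eq_univ_of_forall fun x => ?_
    obtain ⟨e, rfl⟩ := hq.surjective x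
    obtain ⟨g, n, i, y, hy, h⟩ := hsurj e
    simp only [mem_iUnion]
    exact ⟨n, i, y, ball_subset_closedBall hy, by rw [← h, hq.map_smul]; rfl⟩
  obtain ⟨e⟩ : Nonempty E := inferInstance
  refine ⟨K, inferInstance, inferInstance,
    CWComplex.mkFinite univ ι map hemp hfin h1 h2 h3 h4 h5 h6, q e,
    CWComplex.finite_mkFinite univ ι map hemp hfin h1 h2 h3 h4 h5 h6,
    hq.surjective.pathConnectedSpace hqc,
    ⟨(hq.fundamentalGroupEquiv ⟨e, rfl⟩).trans (MulEquiv.inv' G).symm⟩, fun n hn => ?_⟩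
  have : Nontrivial (Fin n) := Fin.nontrivial_iff_two_le.2 hn
  exact subsingleton_homotopyGroup hq.isCoveringMap e

end Pool.Agent.P.MP_f05dbc_gt.NZ
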