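import Pool.Agent.P.MP_f05dbc_gt.NZ.Raag

/-!
A flat connection on the Cayley graph of a right-angled Artin group, and the coarse obstruction
for the Bestvina-Brady group.
-/

namespace Pool.Agent.P.MP_f05dbc_gt.NZ

open Set

variable {V : Type} {Γ : SimpleGraph V}

section Abstract

variable {H : Type} [Group H]

/-- Label of an oriented edge of the Cayley graph. -/
noncomputable def lab (D : RA Γ → V → H) (k : RA Γ) (x : V × Bool) : H :=
  if x.2 then D k x.1 else (D (k * (gen x.1)⁻¹) x.1)⁻¹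

/-- Holonomy along a word. -/
noncomputable def hol (D : RA Γ → V → H) : RA Γ → List (V × Bool) → H
  | _, [] => 1
  | k, x :: w => hol D (k * lt x) w * lab D k x

lemma lt_true (u : V) : (lt (u, true) : RA Γ) = gen u := by simp [lt]
lemma lt_false (u : V) : (lt (u, false) : RA Γ) = (gen u)⁻¹ := by simp [lt]

lemma lab_inv (D : RA Γ → V → H) (k : RA Γ) (x : V × Bool) :
    lab D (k * lt x) (x.1, !x.2) = (lab D k x)⁻¹ := by
  obtain ⟨u, b⟩ := x
  cases b <;> simp [lab, lt_true, lt_false]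

lemma hol_append (D : RA Γ → V → H) (k : RA Γ) (w w' : List (V × Bool)) :
    hol D k (w ++ w') = hol D (k * wd w) w' * hol D k w := by
  induction w generalizing k with
  | nil => simp [hol]
  | cons x w ih => simp [hol, ih, mul_assoc]

/-- All squares with corners in `P` are flat. -/
def FlatOn (D : RA Γ → V → H) (P : RA Γ → Prop) : Prop :=
  ∀ k u w, Γ.Adj u w → P k → P (k * gen u) → P (k * gen w) → P (k * gen u * gen w) →
    D (k * gen u) w * D k u = D (k * gen w) u * D k w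

lemma FlatOn.lab {D : RA Γ → V → H} {P : RA Γ → Prop} (h : FlatOn D P) (k : RA Γ)
    (x y : V × Bool) (hxy : Γ.Adj x.1 y.1) (h0 : P k) (h1 : P (k * lt x)) (h2 : P (k * lt y))
    (h3 : P (k * lt x * lt y)) :
    lab D (k * lt x) y * lab D k x = lab D (k * lt y) x * lab D k y := by
  obtain ⟨u, b⟩ := x
  obtain ⟨w, b'⟩ := y
  have hc : (gen u : RA Γ) * gen w = gen w * gen u := (gen_comm (Or.inr hxy)).eq
  have e1 : ∀ m : RA Γ, m * gen u * gen w * (gen u)⁻¹ = m * gen w := fun m => by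
    rw [mul_assoc m, hc, ← mul_assoc, mul_inv_cancel_right]
  have e2 : ∀ m : RA Γ, m * gen w * gen u * (gen w)⁻¹ = m * gen u := fun m => by
    rw [mul_assoc m, ← hc, ← mul_assoc, mul_inv_cancel_right]
  have e3 : ∀ m : RA Γ, m * gen w * gen u = m * gen u * gen w := fun m => by
    rw [mul_assoc m, ← hc, ← mul_assoc]
  cases b <;> cases b' <;> simp only [lt_true, lt_false] at h1 h2 h3 ⊢
  · obtain ⟨m, rfl⟩ : ∃ m, k = m * gen u * gen w := ⟨k * (gen w)⁻¹ * (gen u)⁻¹, by simp⟩
    rw [e1] at h1 h3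
    rw [mul_inv_cancel_right] at h2 h3
    have := h m u w hxy h3 h2 h1 h0
    simp only [NZ.lab, e1, mul_inv_cancel_right, Bool.false_eq_true, if_false]
    rw [← mul_inv_rev, ← mul_inv_rev, this]
  · obtain ⟨m, rfl⟩ : ∃ m, k = m * gen u := ⟨k * (gen u)⁻¹, by simp⟩
    rw [mul_inv_cancel_right] at h1 h3
    have := h m u w hxy h1 h0 h3 h2
    simp only [NZ.lab, e1, mul_inv_cancel_right, Bool.false_eq_true, if_false, if_true]
    rw [eq_inv_mul_iff_mul_eq, ← mul_assoc, ← this, mul_inv_cancel_right]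
  · obtain ⟨m, rfl⟩ : ∃ m, k = m * gen w := ⟨k * (gen w)⁻¹, by simp⟩
    rw [mul_inv_cancel_right] at h2
    rw [e2] at h3
    have := h m u w hxy h2 h3 h0 (e3 m ▸ h1)
    simp only [NZ.lab, e2, mul_inv_cancel_right, Bool.false_eq_true, if_false, if_true]
    rw [inv_mul_eq_iff_eq_mul, ← mul_assoc, this, mul_inv_cancel_right]
  · simpa [NZ.lab] using h k u w hxy h0 h1 h2 h3

/-- The letter `x` read after `k` shortens `k`. -/
def Desc (k : RA Γ) (x : V × Bool) : Prop := 0 < sg x.2 * zf x.1 k⁻¹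

lemma Desc.len_lt {k : RA Γ} {x : V × Bool} (h : Desc k x) : len (k * lt x) < len k := by
  have := len_lt_of_zf h
  rwa [← lt_inv, ← mul_inv_rev, len_inv, len_inv] at this

lemma lt_len_of_not_desc {k : RA Γ} {x : V × Bool} (h : ¬ Desc k x) : len k < len (k * lt x) := by
  have := len_lt_of_not_zf h
  rwa [← lt_inv, ← mul_inv_rev, len_inv, len_inv] at this

lemma exists_desc {k : RA Γ} (h : k ≠ 1) : ∃ x, Desc k x := by
  obtain ⟨v, hv⟩ := exists_zf_ne (inv_ne_one.2 h)
  rcases lt_or_gt_of_ne hv with h1 | h1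
  · exact ⟨(v, false), by simpa [Desc] using h1⟩
  · exact ⟨(v, true), by simpa [Desc] using h1⟩

lemma Desc.eq_or_adj {k : RA Γ} {x y : V × Bool} (hx : Desc k x) (hy : Desc k y) :
    x = y ∨ Γ.Adj x.1 y.1 := by
  have h1 : zf x.1 k⁻¹ ≠ 0 := fun h => by simp [Desc, h] at hx
  have h2 : zf y.1 k⁻¹ ≠ 0 := fun h => by simp [Desc, h] at hy
  refine (near_of_zf h1 h2).imp_left fun h => ?_
  obtain ⟨u, b⟩ := x
  obtain ⟨w, b'⟩ := y
  obtain rfl : u = w := h
  cases b <;> cases b' <;> simp [Desc] at hx hy ⊢ <;> omega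

lemma Desc.mul {k : RA Γ} {x y : V × Bool} (hy : Desc k y) (h : Γ.Adj x.1 y.1) :
    Desc (k * lt x) y := by
  unfold Desc at hy ⊢
  rw [mul_inv_rev, lt_inv, lt, zf_mul_left (zpow_mem_st (Or.inr h.symm) _), zf_zpow_ne h.ne,
    zero_add]
  exact hy

lemma lt_comm {x y : V × Bool} (h : Γ.Adj x.1 y.1) (k : RA Γ) :
    k * lt x * lt y = k * lt y * lt x := by
  rw [mul_assoc, mul_assoc, lt, lt, ((gen_comm (Or.inr h)).zpow_zpow _ _).eq]

lemma exists_potential {D : RA Γ → V → H} {R : ℕ} (h : FlatOn D fun k => len k ≤ R) (n : ℕ)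
    (hn : n ≤ R) : ∃ f : RA Γ → H, f 1 = 1 ∧
      ∀ k x, len k ≤ n → len (k * lt x) ≤ n → f (k * lt x) = lab D k x * f k := by
  classical
  induction n with
  | zero =>
    refine ⟨fun _ => 1, rfl, fun k x h1 h2 => ?_⟩
    by_cases hd : Desc k x
    · have := hd.len_lt; omega
    · have := lt_len_of_not_desc hd; omega
  | succ n ih =>
    obtain ⟨f, f1, hf⟩ := ih (by omega)
    have hch : ∀ k : RA Γ, ¬ len k ≤ n → ∃ x, Desc k x := fun k hk =>
      exists_desc (by rintro rfl; simp at hk)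
    choose d hd using hch
    let f' : RA Γ → H := fun k =>
      if hk : len k ≤ n then f k else (lab D k (d k hk))⁻¹ * f (k * lt (d k hk))
    have key : ∀ k x, len k ≤ n + 1 → Desc k x → f' (k * lt x) = lab D k x * f' k := by
      intro k x h1 hx
      have h2 := hx.len_lt
      have h3 : len (k * lt x) ≤ n := by omega
      by_cases hk : len k ≤ n
      · simp only [f', dif_pos hk, dif_pos h3]; exact hf k x hk h3
      simp only [f', dif_neg hk, dif_pos h3]
      have hy := hd k hk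
      generalize d k hk = y at hy
      rcases hx.eq_or_adj hy with rfl | hxy
      · simp
      have h4 := hy.len_lt
      have h5 := (hy.mul hxy).len_lt
      have e1 := hf (k * lt x) y h3 (by omega)
      have e2 := hf (k * lt y) x (by omega) (by rw [← lt_comm hxy]; omega)
      have e3 := h.lab k x y hxy (by omega) (by omega) (by omega) (by omega)
      rw [← lt_comm hxy, e1] at e2
      rw [← mul_left_cancel_iff (a := lab D (k * lt x) y), e2, ← mul_assoc, e3]
      group
    refine ⟨f', by simp [f', f1], fun k x h1 h2 => ?_⟩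
    by_cases hx : Desc k x
    · exact key k x h1 hx
    · have h3 := lt_len_of_not_desc hx
      have h4 : Desc (k * lt x) (x.1, !x.2) := by
        by_contra h5
        have := lt_len_of_not_desc h5
        rw [mul_assoc, lt_mul_not, mul_one] at this
        omega
      have := key _ _ h2 h4
      rw [mul_assoc, lt_mul_not, mul_one, lab_inv] at this
      rw [this]; group

lemma hol_indep {D : RA Γ → V → H} {P : RA Γ → Prop} (h : FlatOn D P) {g : RA Γ} {R : ℕ}
    (hP : ∀ k, len k ≤ R → P (g * k)) {w w' : List (V × Bool)} (hw : w.length ≤ R)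
    (hw' : w'.length ≤ R) (e : (wd w : RA Γ) = wd w') : hol D g w = hol D g w' := by
  have h' : FlatOn (fun k u => D (g * k) u) fun k => len k ≤ R := by
    intro k u v huv h0 h1 h2 h3
    have := h (g * k) u v huv (hP _ h0) (by simpa only [mul_assoc] using hP _ h1)
      (by simpa only [mul_assoc] using hP _ h2) (by simpa only [mul_assoc] using hP _ h3)
    simpa only [mul_assoc] using this
  obtain ⟨f, f1, hf⟩ := exists_potential h' R le_rfl
  have key : ∀ (w : List (V × Bool)) (k : RA Γ), len k + w.length ≤ R →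
      hol D (g * k) w * f k = f (k * wd w) := by
    intro w
    induction w with
    | nil => intro k _; simp [hol]
    | cons x w ih =>
      intro k hk
      simp only [List.length_cons] at hk
      have h1 := len_mul_lt_le k x
      have h2 := hf k x (by omega) (by omega)
      have h3 : lab (fun k u => D (g * k) u) k x = lab D (g * k) x := by
        simp only [lab, mul_assoc]
      have h4 := ih (k * lt x) (by omega)
      rw [hol, wd_cons, ← mul_assoc k, ← h4, h2, h3, mul_assoc g, mul_assoc]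
  have h1 := key w 1 (by simpa using hw)
  have h2 := key w' 1 (by simpa using hw')
  simp only [mul_one, one_mul, f1] at h1 h2
  rw [h1, h2, e]

lemma hol_mem {D : RA Γ → V → H} {K : Subgroup H} {M : ℕ} (h : ∀ k u, len k ≤ M → D k u ∈ K)
    (w : List (V × Bool)) (k : RA Γ) (hk : len k + w.length ≤ M) : hol D k w ∈ K := by
  induction w generalizing k with
  | nil => exact one_mem _
  | cons x w ih =>
    simp only [List.length_cons] at hk
    have h1 := len_mul_lt_le k x
    refine mul_mem (ih _ (by omega)) ?_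
    obtain ⟨u, b⟩ := x
    cases b
    · rw [lt_false] at h1
      exact inv_mem (h _ u (h1.trans (by omega)))
    · exact h _ _ (by omega)

end Abstract

section Conn

/-- The transposition fixing `0`. -/
def sw : Equiv.Perm (Fin 3) := Equiv.swap 1 2

/-- Retraction onto the stabiliser of `0`. -/
def sig (π : Equiv.Perm (Fin 3)) : Equiv.Perm (Fin 3) := if Equiv.Perm.sign π = 1 then 1 else sw

lemma sig_mul (π π' : Equiv.Perm (Fin 3)) : sig (π * π') = sig π * sig π' := by
  revert π π'; decide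

lemma sig_one : sig 1 = 1 := by decide
lemma sig_sw : sig sw = sw := by decide
lemma sig_zero (π : Equiv.Perm (Fin 3)) : sig π 0 = 0 := by revert π; decide

/-- Active exponent triples. -/
def Act (z : ℤ × ℤ × ℤ) : Prop :=
  (1 ≤ z.1 ∧ 1 ≤ z.2.1 ∧ 1 ≤ z.2.2) ∨ (z.1 ≤ 0 ∧ z.2.1 ≤ 0 ∧ z.2.2 ≤ 0)

instance (z : ℤ × ℤ × ℤ) : Decidable (Act z) := by unfold Act; infer_instance

/-- The vertices of the triangle. -/
def Tri (a b c v : V) : Prop := v = a ∨ v = b ∨ v = c

variable (a b c : V) (ρ : V → V → Equiv.Perm (Fin 3)) (N : ℤ)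

/-- Exponents of the triangle letters. -/
noncomputable def zz (g : RA Γ) : ℤ × ℤ × ℤ := (zf a g, zf b g, zf c g)

/-- A point of the flat. -/
noncomputable def flat (z : ℤ × ℤ × ℤ) : RA Γ := gen a ^ z.1 * gen b ^ z.2.1 * gen c ^ z.2.2

/-- The remainder. -/
noncomputable def rem (g : RA Γ) : RA Γ := (flat a b c (zz a b c g))⁻¹ * g

open Classical in
/-- A chosen first letter. -/
noncomputable def fst (r : RA Γ) : V := if h : ∃ v, zf v r ≠ 0 then h.choose else a

open Classical in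
/-- Unit vectors. -/
noncomputable def ee (u : V) : ℤ × ℤ × ℤ :=
  (if u = a then 1 else 0, if u = b then 1 else 0, if u = c then 1 else 0)

/-- The connection used over the exponent triple `z`. -/
def PP (z : ℤ × ℤ × ℤ) (x y : V) : Equiv.Perm (Fin 3) :=
  if z = (N, N, N) then ρ x y else if Act z then sig (ρ x y) else 1

open Classical in
/-- The gluing. -/
noncomputable def kap (z : ℤ × ℤ × ℤ) (u : V) : Equiv.Perm (Fin 3) :=
  if u = a ∧ z.1 = 0 ∧ 1 ≤ z.2.1 then sw else 1

/-- The letter `u` changes the exponent triple. -/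
def Mov (g : RA Γ) (u : V) : Prop := Tri a b c u ∧ g ∈ st u

open Classical in
/-- The labels. -/
noncomputable def DD (g : RA Γ) (u : V) : Equiv.Perm (Fin 3) :=
  if Mov a b c g u then
    (PP ρ N (zz a b c g + ee a b c u) (fst a (rem a b c g)) u)⁻¹ * kap a (zz a b c g) u *
      PP ρ N (zz a b c g) (fst a (rem a b c g)) u
  else PP ρ N (zz a b c g) (fst a (rem a b c g)) (fst a (rem a b c g * gen u))

/-- Non-active vertices. -/
def Good (g : RA Γ) : Prop := Act (zz a b c g) → rem a b c g ≠ 1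

variable {a b c ρ N}

lemma zf_fst {r : RA Γ} (h : r ≠ 1) : zf (fst a r) r ≠ 0 := by
  have h1 := exists_zf_ne h
  rw [fst, dif_pos h1]
  exact h1.choose_spec

lemma zf_mul_of_not_mem {v : V} {r s : RA Γ} (hr : r ∉ st v) (hs : s ∈ st v) :
    zf v (r * s) = zf v r := by
  induction hs using Subgroup.closure_induction_right with
  | one => simp
  | mul_right x hx y hy ih =>
    obtain ⟨u, -, rfl⟩ := hy
    have := zf_mul_zpow v u (r * x) 1
    rw [chi_of_not_mem fun h => hr ((mul_mem_cancel_right hx).1 h), zpow_one] at this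
    rw [← mul_assoc, this, ih]; simp
  | mul_inv_cancel x hx y hy ih =>
    obtain ⟨u, -, rfl⟩ := hy
    have := zf_mul_zpow v u (r * x) (-1)
    rw [chi_of_not_mem fun h => hr ((mul_mem_cancel_right hx).1 h), zpow_neg_one] at this
    rw [← mul_assoc, this, ih]; simp

lemma near_key {u w v v' : V} (huw : Near Γ u w) {r s : RA Γ} (hs : s ∈ sub {u, w})
    (h : zf v r ≠ 0) (h' : zf v' (r * s) ≠ 0) : Near Γ v v' := by
  by_cases h0 : zf v' r = 0
  swap
  · exact near_of_zf h h0
  have h1 : v' ∈ ({u, w} : Set V) := by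
    by_contra h1
    exact h' (by rw [zf_mul_of_mem h1 hs, h0])
  have h2 : s ∈ st v' := by
    refine sub_mono ?_ hs
    rintro y (rfl | rfl) <;> rcases h1 with rfl | rfl
    exacts [Near.rfl, huw.symm, huw, Near.rfl]
  by_cases h3 : r ∈ st v'
  · exact (near_of_mem_st h3 h).symm
  · exact absurd (by rw [zf_mul_of_not_mem h3 h2, h0]) h'

lemma PP_of_not_act (hN : 1 ≤ N) {z : ℤ × ℤ × ℤ} (h : ¬ Act z) (x y : V) : PP ρ N z x y = 1 := by
  have : z ≠ (N, N, N) := by rintro rfl; exact h (Or.inl ⟨hN, hN, hN⟩)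
  simp [PP, this, h]

variable (hK : Knotted Γ a b c ρ)
include hK

lemma tri_near {u w : V} (hu : Tri a b c u) (hw : Tri a b c w) : Near Γ u w := by
  rcases hu with rfl | rfl | rfl <;> rcases hw with rfl | rfl | rfl
  exacts [Near.rfl, Or.inr hK.ab, Or.inr hK.ac, Or.inr hK.ab.symm, Near.rfl, Or.inr hK.bc,
    Or.inr hK.ac.symm, Or.inr hK.bc.symm, Near.rfl]

lemma flat_mem {u : V} (hu : Tri a b c u) (z : ℤ × ℤ × ℤ) : (flat a b c z : RA Γ) ∈ st u :=
  mul_mem (mul_mem (zpow_mem_st (tri_near hK hu (Or.inl rfl)) _)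
    (zpow_mem_st (tri_near hK hu (Or.inr (Or.inl rfl))) _))
    (zpow_mem_st (tri_near hK hu (Or.inr (Or.inr rfl))) _)

lemma zz_flat_mul (z : ℤ × ℤ × ℤ) (r : RA Γ) :
    zz a b c (flat a b c z * r) = z + zz a b c r := by
  have ha : Tri a b c a := Or.inl rfl
  have hb : Tri a b c b := Or.inr (Or.inl rfl)
  have hc : Tri a b c c := Or.inr (Or.inr rfl)
  have h : ∀ u, Tri a b c u → zf u (flat a b c z * r) = zf u (gen a ^ z.1 : RA Γ) +
      zf u (gen b ^ z.2.1 : RA Γ) + zf u (gen c ^ z.2.2 : RA Γ) + zf u r := by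
    intro u hu
    rw [zf_mul_left (flat_mem hK hu z), flat, mul_assoc,
      zf_mul_left (zpow_mem_st (tri_near hK hu ha) _),
      zf_mul_left (zpow_mem_st (tri_near hK hu hb) _), ← add_assoc]
  obtain ⟨i, j, k⟩ := z
  simp [zz, h a ha, h b hb, h c hc, zf_zpow_ne, hK.ab.ne, hK.ac.ne, hK.bc.ne, hK.ab.ne',
    hK.ac.ne', hK.bc.ne']

lemma zz_rem (g : RA Γ) : zz a b c (rem a b c g) = 0 := by
  have := zz_flat_mul hK (zz a b c g) (rem a b c g)
  rw [rem, mul_inv_cancel_left] at this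
  exact left_eq_add.1 this

lemma not_tri {g : RA Γ} {v : V} (h : zf v (rem a b c g) ≠ 0) : v ≠ a ∧ v ≠ b ∧ v ≠ c := by
  have h0 := zz_rem hK g
  simp only [zz, Prod.mk_eq_zero] at h0
  refine ⟨?_, ?_, ?_⟩ <;> rintro rfl
  exacts [h h0.1, h h0.2.1, h h0.2.2]

lemma rem_mem {g : RA Γ} {u : V} (h : Mov a b c g u) : rem a b c g ∈ st u :=
  mul_mem (inv_mem (flat_mem hK h.1 _)) h.2

omit hK in
lemma zf_mul_gen (v u : V) (g : RA Γ) : zf v (g * gen u) = zf v g + chi v u g := by
  simpa using zf_mul_zpow v u g 1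

omit hK in
lemma zz_of_not_mov {g : RA Γ} {u : V} (h : ¬ Mov a b c g u) :
    zz a b c (g * gen u) = zz a b c g := by
  have h1 : ∀ v, Tri a b c v → chi v u g = 0 := fun v hv => by
    rcases chi_cases v u g with h2 | ⟨-, rfl, h2⟩
    exacts [h2, absurd ⟨hv, h2⟩ h]
  simp only [zz, zf_mul_gen, h1 a (Or.inl rfl), h1 b (Or.inr (Or.inl rfl)),
    h1 c (Or.inr (Or.inr rfl)), add_zero]

omit hK in
lemma rem_of_not_mov {g : RA Γ} {u : V} (h : ¬ Mov a b c g u) :
    rem a b c (g * gen u) = rem a b c g * gen u := by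
  rw [rem, zz_of_not_mov h, rem, mul_assoc]

omit hK in
lemma zz_of_mov {g : RA Γ} {u : V} (h : Mov a b c g u) :
    zz a b c (g * gen u) = zz a b c g + ee a b c u := by
  classical
  have h1 : ∀ v, chi v u g = if u = v then 1 else 0 := fun v => by
    split_ifs with h2
    · subst h2; exact chi_of_mem h.2
    · exact chi_of_ne h2 g
  simp only [zz, zf_mul_gen, h1, ee, Prod.mk_add_mk]

lemma flat_add {u : V} (hu : Tri a b c u) (z : ℤ × ℤ × ℤ) :
    (flat a b c (z + ee a b c u) : RA Γ) = flat a b c z * gen u := by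
  obtain ⟨i, j, k⟩ := z
  have h1 := gen_comm (Γ := Γ) (Or.inr hK.ab)
  have h2 := gen_comm (Γ := Γ) (Or.inr hK.ac)
  have h3 := gen_comm (Γ := Γ) (Or.inr hK.bc)
  rcases hu with rfl | rfl | rfl
  · simp only [flat, ee, Prod.mk_add_mk, if_true, if_neg hK.ab.ne, if_neg hK.ac.ne, add_zero,
      zpow_add_one, mul_assoc]
    rw [← (h2.zpow_right k).eq, ← mul_assoc (gen u), (h1.zpow_right j).eq, mul_assoc]
  · simp only [flat, ee, Prod.mk_add_mk, if_true, if_neg hK.ab.ne', if_neg hK.bc.ne, add_zero,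
      zpow_add_one, mul_assoc]
    rw [← (h3.zpow_right k).eq]
  · simp only [flat, ee, Prod.mk_add_mk, if_true, if_neg hK.ac.ne', if_neg hK.bc.ne', add_zero,
      zpow_add_one, mul_assoc]

lemma rem_of_mov {g : RA Γ} {u : V} (h : Mov a b c g u) :
    rem a b c (g * gen u) = rem a b c g := by
  have h1 := (commute_of_mem_st (rem_mem hK h)).eq
  rw [rem, zz_of_mov h, flat_add hK h.1, mul_inv_rev, mul_assoc, ← mul_assoc _ g,
    inv_mul_eq_iff_eq_mul]
  exact h1.symm

omit hK in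
lemma mov_mul {g : RA Γ} {u w : V} (h : Γ.Adj u w) :
    Mov a b c (g * gen w) u ↔ Mov a b c g u :=
  and_congr_right fun _ => mul_mem_cancel_right (gen_mem (S := {v | Near Γ u v}) (Or.inr h))

lemma PP_tri (hN : 1 ≤ N) {z : ℤ × ℤ × ℤ} {x y w : V} (h : Act z → Near Γ x y ∧ Near Γ y w ∧
    Near Γ x w ∧ x ≠ a ∧ x ≠ b ∧ x ≠ c) : PP ρ N z y w * PP ρ N z x y = PP ρ N z x w := by
  by_cases hz : Act z
  · obtain ⟨h1, h2, h3, h4⟩ := h hz
    have := hK.tri x y w h1 h2 h3 (Or.inl h4)
    unfold PP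
    split_ifs
    · exact this
    · rw [← sig_mul, this]
  · simp [PP_of_not_act hN hz]

lemma PP_ab (hN : 1 ≤ N) (z : ℤ × ℤ × ℤ) :
    PP ρ N z a b = (if Act z then sw else 1) ∧ PP ρ N z b a = (if Act z then sw else 1) := by
  by_cases hz : Act z
  · have h1 : ρ a b = sw := hK.rab
    have h2 : ρ b a = sw := hK.rba
    simp [PP, hz, h1, h2, sig_sw]
  · simp [PP_of_not_act hN hz, hz]

lemma PP_c (z : ℤ × ℤ × ℤ) : PP ρ N z a c = 1 ∧ PP ρ N z c a = 1 ∧ PP ρ N z b c = 1 ∧
    PP ρ N z c b = 1 := by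
  simp [PP, hK.rac, hK.rca, hK.rbc, hK.rcb, sig_one]

lemma kap_square (hN : 1 ≤ N) {u w : V} (hu : Tri a b c u) (hw : Tri a b c w) (huw : u ≠ w)
    (z : ℤ × ℤ × ℤ) :
    (PP ρ N (z + ee a b c u + ee a b c w) u w)⁻¹ * kap a (z + ee a b c u) w *
      PP ρ N (z + ee a b c u) u w * kap a z u =
    kap a (z + ee a b c w) u * (PP ρ N (z + ee a b c w) u w)⁻¹ * kap a z w * PP ρ N z u w := by
  have hab := hK.ab.ne
  have hac := hK.ac.ne
  have hbc := hK.bc.ne
  obtain ⟨i, j, k⟩ := z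
  rcases hu with hu | hu | hu <;> rcases hw with hw | hw | hw <;> rw [hu, hw] at huw ⊢ <;>
    first
    | exact absurd rfl huw
    | (simp only [(PP_ab hK hN _).1, (PP_ab hK hN _).2, PP_c hK, kap, ee, Act, Prod.mk_add_mk,
        if_true, if_neg hab, if_neg hac, if_neg hbc, if_neg hbc.symm, add_zero, true_and,
        hab.symm, hac.symm, false_and, if_false]
       first | rfl | (split_ifs <;> first | decide | omega))

lemma flat_one_move (hN : 1 ≤ N) {g : RA Γ} {u w : V} (huw : Γ.Adj u w) (hu : Mov a b c g u)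
    (hw : ¬ Mov a b c g w) (h0 : Good a b c g) (h1 : Good a b c (g * gen u))
    (h2 : Good a b c (g * gen w)) (h3 : Good a b c (g * gen w * gen u)) :
    DD a b c ρ N (g * gen u) w * DD a b c ρ N g u =
      DD a b c ρ N (g * gen w) u * DD a b c ρ N g w := by
  have hu' : Mov a b c (g * gen w) u := (mov_mul huw).2 hu
  have hw' : ¬ Mov a b c (g * gen u) w := fun h => hw ((mov_mul huw.symm).1 h)
  unfold Good at h0 h1 h2 h3
  rw [zz_of_mov hu, rem_of_mov hK hu] at h1
  rw [zz_of_mov hu', rem_of_mov hK hu'] at h3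
  have key : ∀ z, (Act z → rem a b c g ≠ 1 ∧ rem a b c (g * gen w) ≠ 1) →
      PP ρ N z (fst a (rem a b c (g * gen w))) u *
        PP ρ N z (fst a (rem a b c g)) (fst a (rem a b c (g * gen w))) =
      PP ρ N z (fst a (rem a b c g)) u := by
    intro z hz
    refine PP_tri hK hN fun h => ?_
    have e1 := zf_fst (a := a) (hz h).1
    have e2 := zf_fst (a := a) (hz h).2
    refine ⟨?_, (near_of_mem_st (rem_mem hK hu') e2).symm,
      (near_of_mem_st (rem_mem hK hu) e1).symm, not_tri hK e1⟩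
    rw [rem_of_not_mov hw] at e2 ⊢
    exact near_key (Near.rfl (u := w)) (gen_mem (by simp)) e1 e2
  rw [zz_of_not_mov hw] at h2 h3
  have k1 := key _ fun h => ⟨h0 h, h2 h⟩
  have k2 := key _ fun h => ⟨h1 h, h3 h⟩
  simp only [DD, if_pos hu, if_pos hu', if_neg hw, if_neg hw', zz_of_mov hu, rem_of_mov hK hu,
    zz_of_not_mov hw, ← rem_of_not_mov hw]
  rw [← k1, ← k2]
  group

lemma DD_flat (hN : 1 ≤ N) : FlatOn (DD a b c ρ N : RA Γ → V → _) (Good a b c) := by
  intro g u w huw h0 h1 h2 h3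
  have hc : ∀ m : RA Γ, m * gen u * gen w = m * gen w * gen u := fun m => by
    rw [mul_assoc, mul_assoc, (gen_comm (Or.inr huw)).eq]
  by_cases hu : Mov a b c g u <;> by_cases hw : Mov a b c g w
  · have hu' : Mov a b c (g * gen w) u := (mov_mul huw).2 hu
    have hw' : Mov a b c (g * gen u) w := (mov_mul huw.symm).2 hw
    unfold Good at h0 h1 h2 h3
    rw [zz_of_mov hw', rem_of_mov hK hw'] at h3
    rw [zz_of_mov hu, rem_of_mov hK hu] at h1 h3
    rw [zz_of_mov hw, rem_of_mov hK hw] at h2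
    have key : ∀ z, (Act z → rem a b c g ≠ 1) →
        PP ρ N z (fst a (rem a b c g)) w = PP ρ N z u w * PP ρ N z (fst a (rem a b c g)) u := by
      intro z hz
      refine (PP_tri hK hN fun h => ?_).symm
      have e1 := zf_fst (a := a) (hz h)
      exact ⟨(near_of_mem_st (rem_mem hK hu) e1).symm, Or.inr huw,
        (near_of_mem_st (rem_mem hK hw) e1).symm, not_tri hK e1⟩
    have e := kap_square (N := N) hK hN hu.1 hw.1 huw.ne (zz a b c g)
    simp only [DD, if_pos hu, if_pos hu', if_pos hw, if_pos hw', zz_of_mov hu, rem_of_mov hK hu,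
      zz_of_mov hw, rem_of_mov hK hw]
    rw [key _ h0, key _ h1, key _ h2, key _ h3, add_right_comm _ (ee a b c w)]
    rw [← mul_inv_eq_iff_eq_mul] at e
    rw [← mul_left_cancel_iff
      (a := PP ρ N (zz a b c g + ee a b c u + ee a b c w) (fst a (rem a b c g)) u),
      ← mul_right_cancel_iff (a := (PP ρ N (zz a b c g) u w *
        PP ρ N (zz a b c g) (fst a (rem a b c g)) u)⁻¹)]
    refine Eq.trans ?_ (e.trans ?_) <;> group
  · exact flat_one_move hK hN huw hu hw h0 h1 h2 (hc g ▸ h3)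
  · exact (flat_one_move hK hN huw.symm hw hu h0 h2 h1 h3).symm
  · have hu' : ¬ Mov a b c (g * gen w) u := fun h => hu ((mov_mul huw).1 h)
    have hw' : ¬ Mov a b c (g * gen u) w := fun h => hw ((mov_mul huw.symm).1 h)
    unfold Good at h0 h1 h2 h3
    rw [zz_of_not_mov hw', rem_of_not_mov hw'] at h3
    rw [zz_of_not_mov hu, rem_of_not_mov hu] at h1 h3
    rw [zz_of_not_mov hw, rem_of_not_mov hw] at h2
    simp only [DD, if_neg hu, if_neg hu', if_neg hw, if_neg hw', zz_of_not_mov hu,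
      rem_of_not_mov hu, zz_of_not_mov hw, rem_of_not_mov hw]
    have mu : (gen u : RA Γ) ∈ sub {u, w} := gen_mem (by simp)
    have mw : (gen w : RA Γ) ∈ sub {u, w} := gen_mem (by simp)
    have n : Near Γ u w := Or.inr huw
    rw [← hc]
    refine (PP_tri hK hN fun h => ?_).trans (PP_tri hK hN fun h => ?_).symm
    · have e0 := zf_fst (a := a) (h0 h)
      have e1 := zf_fst (a := a) (h1 h)
      have e3 := zf_fst (a := a) (h3 h)
      exact ⟨near_key n mu e0 e1, near_key n mw e1 e3,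
        near_key n (mul_mem mu mw) e0 (by rwa [← mul_assoc]), not_tri hK e0⟩
    · have e0 := zf_fst (a := a) (h0 h)
      have e2 := zf_fst (a := a) (h2 h)
      have e3 := zf_fst (a := a) (h3 h)
      exact ⟨near_key n mw e0 e2, near_key n mu e2 (by rwa [← hc]),
        near_key n (mul_mem mu mw) e0 (by rwa [← mul_assoc]), not_tri hK e0⟩

omit hK in
lemma good_of_len {g : RA Γ} (h : |ht g| < len g) : Good a b c g := by
  intro hz hr
  have h1 : flat a b c (zz a b c g) = g := inv_mul_eq_one.1 hr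
  generalize zz a b c g = z at hz h1
  obtain ⟨i, j, k⟩ := z
  subst h1
  have l1 := len_zpow_le (Γ := Γ) a i
  have l2 := len_zpow_le (Γ := Γ) b j
  have l3 := len_zpow_le (Γ := Γ) c k
  have l4 := len_mul_le (gen a ^ i * gen b ^ j : RA Γ) (gen c ^ k)
  have l5 := len_mul_le (gen a ^ i : RA Γ) (gen b ^ j)
  simp only [flat, ht_mul, ht_zpow] at h
  simp only [Act] at hz
  simp only [Int.abs_eq_natAbs] at h l1 l2 l3
  omega

omit hK in
lemma good_far {g k : RA Γ} {R : ℕ} (hg : ht g = 0) (hR : 2 * R + 1 ≤ len g) (hk : len k ≤ R) :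
    Good a b c (g * k) := by
  refine good_of_len ?_
  have h1 := abs_ht_le k
  have h2 := len_mul_le (g * k) k⁻¹
  rw [mul_inv_cancel_right, len_inv] at h2
  rw [ht_mul, hg, zero_add]
  omega

omit hK in
lemma DD_mem {M : ℕ} (hM : (M : ℤ) + 1 < N) (g : RA Γ) (u : V) (hg : len g ≤ M) :
    DD a b c ρ N g u ∈ MulAction.stabilizer (Equiv.Perm (Fin 3)) (0 : Fin 3) := by
  have h1 : ∀ z : ℤ × ℤ × ℤ, z.1 < N → ∀ x y,
      PP ρ N z x y ∈ MulAction.stabilizer (Equiv.Perm (Fin 3)) (0 : Fin 3) := by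
    intro z hz x y
    have : z ≠ (N, N, N) := by rintro rfl; exact lt_irrefl _ hz
    rw [PP, if_neg this]
    split_ifs
    · exact sig_zero _
    · exact one_mem _
  have h2 := (le_abs_self _).trans (abs_zf_le a g)
  have h3 : (zz a b c g).1 < N := by simp only [zz]; omega
  have h4 : (zz a b c g + ee a b c u).1 < N := by
    simp only [zz, ee, Prod.mk_add_mk]; split_ifs <;> omega
  unfold DD
  split_ifs
  · refine mul_mem (mul_mem (inv_mem (h1 _ h4 _ _)) ?_) (h1 _ h3 _ _)
    unfold kap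
    split_ifs
    · show sw 0 = 0
      decide
    · exact one_mem _
  · exact h1 _ h3 _ _

section Far

variable {x y : V} (hx : x ≠ a ∧ x ≠ b ∧ x ≠ c) (hy : y ≠ a ∧ y ≠ b ∧ y ≠ c)
include hx hy

lemma zz_far {s : RA Γ} (hs : s ∈ sub {x, y}) :
    zz a b c (flat a b c (N, N, N) * s) = (N, N, N) := by
  have h1 : zz a b c s = 0 := by
    simp only [zz, Prod.mk_eq_zero]
    refine ⟨zf_of_mem ?_ hs, zf_of_mem ?_ hs, zf_of_mem ?_ hs⟩ <;> rintro (h | h)
    exacts [hx.1 h.symm, hy.1 h.symm, hx.2.1 h.symm, hy.2.1 h.symm, hx.2.2 h.symm, hy.2.2 h.symm]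
  rw [zz_flat_mul hK, h1, add_zero]

lemma DD_far {s : RA Γ} (hs : s ∈ sub {x, y}) {u : V} (hu : u = x ∨ u = y) :
    DD a b c ρ N (flat a b c (N, N, N) * s) u = ρ (fst a s) (fst a (s * gen u)) := by
  have h1 : ¬ Mov a b c (flat a b c (N, N, N) * s) u := by
    rintro ⟨h | h | h, -⟩ <;> rcases hu with rfl | rfl <;> simp [hx, hy] at h
  rw [DD, if_neg h1, rem, zz_far hK hx hy hs, inv_mul_cancel_left, PP, if_pos rfl]

omit hK hx hy in
lemma fst_mem {S : Set V} {s : RA Γ} (hs : s ∈ sub S) (h : ht s ≠ 0) : fst a s ∈ S := by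
  by_contra h1
  exact zf_fst (a := a) (r := s) (by rintro rfl; simp at h) (zf_of_mem h1 hs)

lemma hol_far (hxy : Γ.Adj x y) {s : RA Γ} (hs : s ∈ sub {x, y}) (h : ht s < -1) :
    hol (DD a b c ρ N) (flat a b c (N, N, N) * s) [(x, true), (y, false)] * ρ x (fst a s) =
      ρ x (fst a (s * gen x * (gen y)⁻¹)) := by
  have mx : (gen x : RA Γ) ∈ sub {x, y} := gen_mem (by simp)
  have my : (gen y : RA Γ) ∈ sub {x, y} := gen_mem (by simp)
  have m1 := mul_mem hs mx
  have m2 := mul_mem m1 (inv_mem my)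
  have p0 := fst_mem (a := a) hs (by omega)
  have p1 := fst_mem (a := a) m1 (by simp only [ht_mul, ht_gen]; omega)
  have p2 := fst_mem (a := a) m2 (by simp only [ht_mul, ht_gen, ht_inv]; omega)
  have nr : ∀ v ∈ ({x, y} : Set V), ∀ v' ∈ ({x, y} : Set V), v = v' ∨ Γ.Adj v v' := by
    rintro v (rfl | rfl) v' (rfl | rfl)
    exacts [Or.inl rfl, Or.inr hxy, Or.inr hxy.symm, Or.inl rfl]
  have tr : ∀ v ∈ ({x, y} : Set V), ∀ v' ∈ ({x, y} : Set V), ρ v v' * ρ x v = ρ x v' :=
    fun v hv v' hv' => hK.tri x v v' (nr _ (by simp) _ hv) (nr _ hv _ hv') (nr _ (by simp) _ hv')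
      (Or.inl hx)
  have e1 := DD_far (N := N) hK hx hy hs (Or.inl rfl)
  have e2 := DD_far (N := N) hK hx hy m2 (Or.inr rfl)
  rw [inv_mul_cancel_right] at e2
  simp only [hol, lab, lt_true, if_true, Bool.false_eq_true, if_false, one_mul,
    mul_assoc] at e2 p2 ⊢
  rw [e1, e2, tr _ p0 _ p1, ← tr _ p2 _ p1, inv_mul_cancel_left]

end Far

end Conn

theorem obstr_BB {V : Type} [Finite V] {Γ : SimpleGraph V} {a b c : V}
    {ρ : V → V → Equiv.Perm (Fin 3)} (h : Knotted Γ a b c ρ) :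
    ∃ T : Set (BB Γ), T.Finite ∧ Obstr (BB Γ) (fun g => len (g : RA Γ)) T := by
  refine ⟨{t | len (t : RA Γ) ≤ 2}, (finite_ball 2).preimage Subtype.val_injective.injOn, ?_⟩
  intro S hS _
  obtain ⟨L, hL⟩ := (hS.image fun t : BB Γ => len (t : RA Γ)).bddAbove
  have hL' : ∀ t ∈ S, len (t : RA Γ) ≤ L := fun t ht => hL ⟨t, ht, rfl⟩
  choose sh sh1 sh2 using exists_wd_len (Γ := Γ)
  refine ⟨2 * (2 * L + 2) + 1, fun R₁ => ?_⟩
  obtain ⟨N, hN⟩ : ∃ N : ℕ, N = R₁ + 4 * L + 5 := ⟨_, rfl⟩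
  have hN1 : (1 : ℤ) ≤ N := by omega
  have indep : ∀ g : BB Γ, 2 * (2 * L + 2) + 1 ≤ len (g : RA Γ) → ∀ w w' : List (V × Bool),
      w.length ≤ 2 * L + 2 → w'.length ≤ 2 * L + 2 → (wd w : RA Γ) = wd w' →
      hol (DD a b c ρ N) (g : RA Γ) w = hol (DD a b c ρ N) (g : RA Γ) w' :=
    fun g hg w w' hw hw' e =>
      hol_indep (DD_flat h hN1) (fun k hk => good_far (mem_BB.1 g.2) hg hk) hw hw' e
  refine ⟨fun g g' => hol (DD a b c ρ N) (g : RA Γ) (sh ((g : RA Γ)⁻¹ * g')), ?_, ?_, ?_⟩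
  · intro g g' g'' hg _ _ h1 h2 h3
    have l1 : len ((g : RA Γ)⁻¹ * (g' : RA Γ)) ≤ L := hL' _ h1
    have l2 : len ((g' : RA Γ)⁻¹ * (g'' : RA Γ)) ≤ L := hL' _ h2
    have l3 : len ((g : RA Γ)⁻¹ * (g'' : RA Γ)) ≤ L := hL' _ h3
    have e := hol_append (DD a b c ρ N) (g : RA Γ) (sh ((g : RA Γ)⁻¹ * g'))
      (sh ((g' : RA Γ)⁻¹ * g''))
    rw [sh2, mul_inv_cancel_left] at e
    refine e.symm.trans (indep g hg _ _ ?_ ?_ ?_)
    · rw [List.length_append, sh1, sh1]; omega
    · rw [sh1]; omega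
    · rw [wd_append, sh2, sh2, sh2, mul_assoc, mul_inv_cancel_left]
  · intro g g' hg _ h1
    have l1 : len ((g : RA Γ)⁻¹ * (g' : RA Γ)) ≤ L := hL' _ h1
    have hg' : len (g : RA Γ) ≤ R₁ := hg
    exact hol_mem (M := R₁ + L) (DD_mem (by push_cast; omega)) _ _ (by rw [sh1]; omega)
  · intro β hβ
    have hF : ht (flat a b c (N, N, N) : RA Γ) = 3 * N := by
      simp only [flat, ht_mul, ht_zpow]; ring
    let Q : ∀ s : RA Γ, ht s = -(3 * N) → BB Γ := fun s hs =>
      ⟨flat a b c (N, N, N) * s, mem_BB.2 (by rw [ht_mul, hF, hs]; ring)⟩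
    refine h.nosec (fun v => β (Q (gen v ^ (-(3 * N : ℤ))) (ht_zpow _ _))) ?_
    intro x y hxy hx hy
    have mx : (gen x : RA Γ) ∈ sub {x, y} := gen_mem (by simp)
    have my : (gen y : RA Γ) ∈ sub {x, y} := gen_mem (by simp)
    have far : ∀ s hs, s ∈ sub {x, y} → N ≤ len (Q s hs : RA Γ) := by
      intro s hs hm
      have h1 := congrArg Prod.fst (zz_far (N := N) h hx hy hm)
      have h2 := (le_abs_self _).trans (abs_zf_le a (flat a b c (N, N, N) * s))
      simp only [zz] at h1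
      simp only [Q]
      omega
    have step : ∀ s hs s' hs', s ∈ sub {x, y} → s' = s * gen x * (gen y)⁻¹ → ∀ B,
        β (Q s hs) = ρ x (fst a s) B → β (Q s' hs') = ρ x (fst a s') B := by
      intro s hs s' hs' hm e B hB
      let t : BB Γ := ⟨gen x * (gen y)⁻¹, mem_BB.2 (by simp)⟩
      have e1 : (wd [(x, true), (y, false)] : RA Γ) = t := by simp [t, lt_true, lt_false]
      have e2 : len (t : RA Γ) ≤ 2 := e1 ▸ len_wd_le _
      have e3 : Q s hs * t = Q s' hs' := Subtype.ext (by simp [Q, t, e, mul_assoc])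
      have f1 := far s hs hm
      have f2 := far s' hs' (e ▸ mul_mem (mul_mem hm mx) (inv_mem my))
      have e4 := hβ (Q s hs) t e2 (by simp only; omega) (by rw [e3]; simp only; omega)
      simp only [Subgroup.coe_mul, inv_mul_cancel_left] at e4
      rw [indep (Q s hs) (by omega) _ [(x, true), (y, false)] (by rw [sh1]; omega) (by simp)
        (by rw [sh2, e1]), e3, hB, ← Equiv.Perm.mul_apply] at e4
      rw [e4, e, ← hol_far (N := N) h hx hy hxy hm (by omega)]
    have hc := gen_comm (Γ := Γ) (Or.inr hxy)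
    have one : ∀ v, fst a (gen v ^ (-(3 * N : ℤ)) : RA Γ) = v := fun v =>
      mem_singleton_iff.1 (fst_mem (zpow_mem' (mem_singleton v) (-(3 * N : ℤ)))
        (by rw [ht_zpow]; omega))
    have all : ∀ (i : ℕ) s hs, s = gen x ^ ((i : ℤ) - 3 * N) * gen y ^ (-(i : ℤ)) →
        β (Q s hs) = ρ x (fst a s) (β (Q (gen x ^ (-(3 * N : ℤ))) (ht_zpow _ _))) := by
      intro i
      induction i with
      | zero =>
        intro s hs e
        simp only [Nat.cast_zero, zero_sub, neg_zero, zpow_zero, mul_one] at e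
        subst e
        rw [one x, h.refl, Equiv.Perm.one_apply]
      | succ i ih =>
        intro s hs e
        have h0 : ht (gen x ^ ((i : ℤ) - 3 * N) * gen y ^ (-(i : ℤ)) : RA Γ) = -(3 * N) := by
          simp only [ht_mul, ht_zpow]; ring
        refine step _ h0 s hs (mul_mem (zpow_mem mx _) (zpow_mem my _)) ?_ _ (ih _ h0 rfl)
        rw [e, mul_assoc (_ ^ _), ← (hc.zpow_right _).eq, ← mul_assoc, ← zpow_add_one, mul_assoc,
          ← zpow_sub_one]
        congr 2 <;> push_cast <;> ring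
    have := all (3 * N) (gen y ^ (-(3 * N : ℤ))) (ht_zpow _ _) (by simp)
    rwa [one y] at this

end Pool.Agent.P.MP_f05dbc_gt.NZ
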