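import Pool.Agent.P.MP_f05dbc_gt.NZ.Cube

/-!
Extension of maps over full subcomplexes, contraction of the cube complex and retraction onto
a slab of bounded height.
-/

namespace Pool.Agent.P.MP_f05dbc_gt.NZ

open Set Topology unitInterval

variable {V : Type} {Γ : SimpleGraph V} [Fintype V]

lemma mem_sk_of_base {W : Set (RA Γ)} {g : RA Γ} {t : V → ℝ} (ht : Clq Γ t)
    (h : vert (ch g t) ⊆ insert g W) (hv : ∃ v, |t v| = 1) : ch g t ∈ sk W := by
  intro k hk
  rcases h hk with rfl | h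
  · obtain ⟨v, hv⟩ := hv
    exact absurd ((mem_vert_self ht k).1 hk v) (by rw [hv]; exact lt_irrefl _)
  · exact h

theorem extend_step {P : Type} [TopologicalSpace P] {W W' : Set (RA Γ)}
    (Q : RA Γ → Set (V → ℝ)) (hQ : ∀ g ∈ W' \ W, IsClosed (Q g) ∧ Q g ⊆ box Γ)
    (h1 : ∀ g ∈ W' \ W, ∀ x ∈ sk W', g ∈ vert x → co x g ∈ Q g)
    (h2 : ∀ g ∈ W' \ W, ∀ t ∈ Q g, vert (ch g t) ⊆ insert g W)
    (R : Cx Γ → P → Prop) (F : Cx Γ → P) (hF : ContinuousOn F (sk W))
    (hR : ∀ x ∈ sk W, R x (F x))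
    (hΦ : ∀ g ∈ W' \ W, ∃ Φ : Q g → P, Continuous Φ ∧ (∀ t : Q g, R (ch g t) (Φ t)) ∧
      ∀ t : Q g, (∃ v, |t.1 v| = 1) → Φ t = F (ch g t)) :
    ∃ F' : Cx Γ → P, ContinuousOn F' (sk W') ∧ (∀ x ∈ sk W, F' x = F x) ∧
      ∀ x ∈ sk W', R x (F' x) := by
  classical
  have hΨ : ∀ g ∈ W' \ W, ∃ Ψ : (V → ℝ) → P, ContinuousOn Ψ (Q g) ∧
      (∀ t ∈ Q g, R (ch g t) (Ψ t)) ∧ ∀ t ∈ Q g, (∃ v, |t v| = 1) → Ψ t = F (ch g t) := by
    intro g hg
    obtain ⟨Φ, c1, c2, c3⟩ := hΦ g hg
    refine ⟨fun t => if h : t ∈ Q g then Φ ⟨t, h⟩ else F (ch g t), ?_, fun t ht => ?_,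
      fun t ht hv => ?_⟩
    · rw [continuousOn_iff_continuous_domRestrict]
      exact c1.congr fun t => by simp
    · simpa [ht] using c2 ⟨t, ht⟩
    · simpa [ht] using c3 ⟨t, ht⟩ hv
  have : Nonempty P := ⟨F (ch 1 0)⟩
  choose! Ψ c1 c2 c3 using hΨ
  let F' : Cx Γ → P := fun x =>
    if h : ∃ g ∈ W' \ W, g ∈ vert x then Ψ h.choose (co x h.choose) else F x
  have e1 : ∀ x ∈ sk W, F' x = F x := fun x hx =>
    dif_neg fun ⟨g, hg, hg'⟩ => hg.2 (hx hg')
  have e2 : ∀ g ∈ W' \ W, ∀ t ∈ Q g, F' (ch g t) = Ψ g t := by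
    intro g hg t ht
    have hb := (hQ g hg).2 ht
    by_cases h : ∃ g' ∈ W' \ W, g' ∈ vert (ch g t)
    · have h3 : h.choose = g := (h2 g hg t ht h.choose_spec.2).resolve_right h.choose_spec.1.2
      simp only [F', dif_pos h, h3, co_ch_self hb.1]
    · simp only [F', dif_neg h]
      refine (c3 g hg t ht ?_).symm
      by_contra hne
      push Not at hne
      exact h ⟨g, hg, (mem_vert_self hb.1 g).2 fun v => lt_of_le_of_ne (hb.2 v) (hne v)⟩
  have cov : ∀ x ∈ sk W', x ∈ sk W ∨ ∃ g ∈ W' \ W, ∃ t ∈ Q g, ch g t = x := by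
    intro x hx
    by_cases h : x ∈ sk W
    · exact Or.inl h
    · obtain ⟨g, hg, hg'⟩ := not_subset.1 h
      exact Or.inr ⟨g, ⟨hx hg, hg'⟩, _, h1 g ⟨hx hg, hg'⟩ x hx hg, (ch_co hg).2⟩
  refine ⟨F', ?_, e1, fun x hx => ?_⟩
  · have lf : LocallyFinite fun g : ↥(W' \ W) => ch g.1 '' Q g := by
      intro x
      refine ⟨_, (isOpen_star x.g).mem_nhds (g_mem_vert x), ?_⟩
      refine Finite.of_finite_image (f := fun g : ↥(W' \ W) => g.1⁻¹ * x.g)
        ((finite_ball (Fintype.card V)).subset ?_) fun a _ b _ hab => ?_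
      · rintro _ ⟨g, ⟨_, ⟨t, ht, rfl⟩, hx⟩, rfl⟩
        exact len_le_of_mem_vert ((hQ g g.2).2 ht) hx
      · exact Subtype.ext (by simpa using hab)
    have cl : ∀ g : ↥(W' \ W), IsClosed (ch g.1 '' Q g) := fun g =>
      ((isCompact_box.of_isClosed_subset (hQ g g.2).1 (hQ g g.2).2).image_of_continuousOn
        ((continuousOn_ch _).mono fun t ht => ((hQ g g.2).2 ht).1)).isClosed
    have k1 : ContinuousOn F' (⋃ g : ↥(W' \ W), ch g.1 '' Q g) := by
      refine lf.continuousOn_iUnion cl fun g => ?_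
      have : ContinuousOn (fun x => Ψ g (co x g)) (ch g.1 '' Q g) := by
        refine (c1 g g.2).comp (continuous_co _).continuousOn ?_
        rintro _ ⟨t, ht, rfl⟩
        simpa only [co_ch_self ((hQ g g.2).2 ht).1] using ht
      refine this.congr ?_
      rintro _ ⟨t, ht, rfl⟩
      simp only [e2 g g.2 t ht, co_ch_self ((hQ g g.2).2 ht).1]
    refine ((hF.congr e1).union_of_isClosed k1 (isClosed_sk W) (lf.isClosed_iUnion cl)).mono ?_
    intro x hx
    rcases cov x hx with h | ⟨g, hg, t, ht, rfl⟩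
    · exact Or.inl h
    · exact Or.inr (mem_iUnion.2 ⟨⟨g, hg⟩, t, ht, rfl⟩)
  · rcases cov x hx with h | ⟨g, hg, t, ht, rfl⟩
    · rw [e1 x h]; exact hR x h
    · rw [e2 g hg t ht]; exact c2 g hg t ht

theorem extend_all {P : Type} [TopologicalSpace P] (W : ℕ → Set (RA Γ)) (hm : Monotone W)
    (hex : ∀ k, ∃ n, ∀ k', len (k⁻¹ * k') ≤ Fintype.card V → k' ∈ W n)
    (R : Cx Γ → P → Prop) (F₀ : Cx Γ → P) (h0 : ContinuousOn F₀ (sk (W 0)))
    (r0 : ∀ x ∈ sk (W 0), R x (F₀ x))
    (step : ∀ n (F : Cx Γ → P), ContinuousOn F (sk (W n)) → (∀ x ∈ sk (W n), R x (F x)) →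
      ∃ F' : Cx Γ → P, ContinuousOn F' (sk (W (n + 1))) ∧ (∀ x ∈ sk (W n), F' x = F x) ∧
        ∀ x ∈ sk (W (n + 1)), R x (F' x)) :
    ∃ F : Cx Γ → P, Continuous F ∧ (∀ x ∈ sk (W 0), F x = F₀ x) ∧ ∀ x, R x (F x) := by
  choose! S s1 s2 s3 using step
  let G : ℕ → Cx Γ → P := fun n => Nat.rec F₀ S n
  have g1 : ∀ n, ContinuousOn (G n) (sk (W n)) ∧ ∀ x ∈ sk (W n), R x (G n x) := by
    intro n
    induction n with
    | zero => exact ⟨h0, r0⟩
    | succ n ih => exact ⟨s1 n _ ih.1 ih.2, s3 n _ ih.1 ih.2⟩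
  have g2 : ∀ n m, n ≤ m → ∀ x ∈ sk (W n), G m x = G n x := by
    intro n m hnm x hx
    induction hnm with
    | refl => rfl
    | step h ih => exact (s2 _ _ (g1 _).1 (g1 _).2 x (Subset.trans hx (hm h))).trans ih
  choose N hN using hex
  have g3 : ∀ k x, k ∈ vert x → x ∈ sk (W (N k)) := fun k x hk k' hk' =>
    hN k k' (len_le_of_vert hk hk')
  have g4 : ∀ n, ∀ x ∈ sk (W n), G (N x.g) x = G n x := fun n x hx =>
    (g2 _ _ (le_max_left _ n) x (g3 _ x (g_mem_vert x))).symm.trans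
      (g2 _ _ (le_max_right _ n) x hx)
  refine ⟨fun x => G (N x.g) x, continuous_iff_continuousAt.2 fun x => ?_, g4 0,
    fun x => (g1 _).2 x (g3 _ x (g_mem_vert x))⟩
  have hn := (isOpen_star x.g).mem_nhds (g_mem_vert x)
  refine (((g1 (N x.g)).1.mono fun y hy => g3 _ y hy).continuousAt hn).congr ?_
  filter_upwards [hn] with y hy using (g4 _ y (g3 _ y hy)).symm

lemma lt_mem_vert {x : Cx Γ} {g : RA Γ} (hg : g ∈ vert x) {v : V} {b : Bool}
    (h : 0 < sg b * co x g v) : g * lt (v, b) ∈ vert x := by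
  classical
  have h1 := mul_mono_mem_vert (ch_co hg).1 g (n := Pi.single v (sg b)) fun u => by
    have h2 := abs_lt.1 (hg u)
    by_cases hu : u = v
    · subst hu
      rw [Pi.single_eq_same, abs_lt]
      cases b <;> simp at h ⊢ <;> constructor <;> linarith
    · simpa [hu] using hg u
  rwa [(ch_co hg).2, mono_single] at h1

omit [Fintype V] in
lemma int_cases {x : ℝ} {n e : ℤ} (he : e = 0 ∨ e = 1 ∨ e = -1) (hx : x ∈ uIcc (0 : ℝ) e)
    (h : |x - n| < 1) : n = 0 ∨ n = e := by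
  have h1 := abs_lt.1 h
  rcases he with rfl | rfl | rfl
  · have h2 : x = 0 := by simpa using hx
    have h5 : (-1 : ℤ) < n := by exact_mod_cast (by linarith : (-1 : ℝ) < n)
    have h6 : n < 1 := by exact_mod_cast (by linarith : (n : ℝ) < 1)
    omega
  · rw [Int.cast_one, uIcc_of_le zero_le_one] at hx
    have h5 : (-1 : ℤ) < n := by exact_mod_cast (by linarith [hx.1] : (-1 : ℝ) < n)
    have h6 : n < 2 := by exact_mod_cast (by linarith [hx.2] : (n : ℝ) < 2)
    omega
  · rw [Int.cast_neg, Int.cast_one, uIcc_of_ge (by norm_num)] at hx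
    have h5 : (-2 : ℤ) < n := by exact_mod_cast (by linarith [hx.1] : (-2 : ℝ) < n)
    have h6 : n < 1 := by exact_mod_cast (by linarith [hx.2] : (n : ℝ) < 1)
    omega

/-- Direction towards the base vertex. -/
noncomputable def dir (g : RA Γ) (v : V) : ℤ := (zf v g⁻¹).sign

omit [Fintype V] in
lemma dir_cases (g : RA Γ) (v : V) : dir g v = 0 ∨ dir g v = 1 ∨ dir g v = -1 := by
  rcases Int.sign_trichotomy (zf v g⁻¹) with h | h | h <;> simp [dir, h]

omit [Fintype V] in
lemma near_of_dir {g : RA Γ} {u v : V} (hu : dir g u ≠ 0) (hv : dir g v ≠ 0) : Near Γ u v :=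
  near_of_zf (g := g⁻¹) (by simpa [dir] using hu) (by simpa [dir] using hv)

omit [Fintype V] in
lemma len_mul_lt (g : RA Γ) (v : V) (b : Bool) :
    len (g * lt (v, b)) = len (lt (v, !b) * g⁻¹) := by
  rw [← len_inv, mul_inv_rev, lt_inv]

lemma len_mul_mono_le (g : RA Γ) (J : Finset V) (m : V → ℤ) (hm : ∀ v, m v = 0 ∨ m v = dir g v)
    (hJ : ∀ v, v ∈ J ↔ m v ≠ 0) : len (g * mono m) + J.card ≤ len g := by
  classical
  induction J using Finset.induction_on generalizing m with
  | empty =>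
    have : m = 0 := funext fun v => by simpa using hJ v
    simp [this]
  | insert v J hv ih =>
    have hd : ∀ u, m u ≠ 0 → dir g u ≠ 0 := fun u hu => (hm u).resolve_left hu ▸ hu
    have hmv : m v ≠ 0 := (hJ v).1 (Finset.mem_insert_self _ _)
    set m' := Function.update m v 0 with hm'
    have h0 : ∀ u, m' u ≠ 0 → u ≠ v ∧ m u ≠ 0 := by
      intro u hu
      by_cases huv : u = v
      · simp [hm', huv] at hu
      · exact ⟨huv, by simpa [hm', huv] using hu⟩
    have h1 := ih m' (fun u => by by_cases huv : u = v <;> simp [hm', huv, hm u]) fun u => by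
      by_cases huv : u = v
      · simp [hm', huv, hv]
      · simpa [hm', huv] using hJ u
    have h2 : m = m' + Pi.single v (m v) := by
      funext u; by_cases huv : u = v <;> simp [hm', huv]
    obtain ⟨b, hb⟩ : ∃ b, m v = sg b := by
      rcases dir_cases g v with h | h | h
      · exact absurd h (hd v hmv)
      · exact ⟨true, ((hm v).resolve_left hmv).trans h⟩
      · exact ⟨false, ((hm v).resolve_left hmv).trans h⟩
    have h3 : (mono m : RA Γ) = mono m' * lt (v, b) := by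
      conv_lhs => rw [h2]
      rw [mono_add, mono_single, hb, lt]
      intro u w hu hw
      have : w = v := by
        by_contra hwv; simp [hwv] at hw
      exact this ▸ near_of_dir (hd u (h0 u hu).2) (hd v hmv)
    have h4 : zf v (g * mono m')⁻¹ = zf v g⁻¹ := by
      rw [mul_inv_rev, zf_mul_left (inv_mem (mono_mem_st fun u hu =>
        near_of_dir (hd v hmv) (hd u (h0 u hu).2))), zf_of_mem (S := {u | u ≠ v}) (by simp)
        (inv_mem (mono_mem fun u hu => (h0 u hu).1)), zero_add]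
    have h5 : 0 < sg b * zf v (g * mono m')⁻¹ := by
      rw [h4, ← hb, (hm v).resolve_left hmv, dir, Int.sign_mul_self_eq_natAbs]
      have : zf v g⁻¹ ≠ 0 := by simpa [dir] using hd v hmv
      positivity
    have h6 := len_lt_of_zf h5
    rw [← len_mul_lt, len_inv] at h6
    rw [h3, ← mul_assoc, Finset.card_insert_of_notMem hv]
    omega

/-- The base vertex. -/
noncomputable def bpt : Cx Γ := ch 1 0

omit [Fintype V] in
lemma clq_zero : Clq Γ 0 := fun _ _ h => absurd rfl h

lemma vert_base {k : RA Γ} (h : k ∈ vert (bpt : Cx Γ)) : k = 1 := by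
  obtain ⟨n, hn, rfl⟩ := mem_vert_ch clq_zero h
  have : n = 0 := funext fun v => by
    by_contra h0; exact ne_of_abs_lt (hn v) h0 rfl
  simp [this]

lemma eq_base {x : Cx Γ} (h : x ∈ sk {g | len g ≤ 0}) : x = bpt := by
  have h1 : x.g = 1 := eq_one_of_len (Nat.le_zero.1 (h (g_mem_vert x)))
  have h2 : x.t = 0 := by
    funext v
    by_contra h0
    have h3 : co x x.g = x.t := by
      have := co_ch_self x.clq x.g
      rwa [ch_self] at this
    have h4 := lt_mem_vert (g_mem_vert x) (v := v) (b := true)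
      (by simpa [h3] using lt_of_le_of_ne (x.lo v) (Ne.symm h0))
    have h5 := congrArg ht (eq_one_of_len (Nat.le_zero.1 (h h4)))
    simp [h1, lt] at h5
  rw [← ch_self x, h1, h2, bpt]

/-- The cube of directions towards the base vertex. -/
def dcube (g : RA Γ) : Set (V → ℝ) := {t | ∀ v, t v ∈ uIcc (0 : ℝ) (dir g v)}

omit [Fintype V] in
lemma dir_ne_of_mem {g : RA Γ} {t : V → ℝ} (ht : t ∈ dcube g) {v : V} (h : t v ≠ 0) :
    dir g v ≠ 0 := fun h0 => h (by simpa [h0] using ht v)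

omit [Fintype V] in
lemma push_aux {e : ℤ} (he : e = 0 ∨ e = 1 ∨ e = -1) {x a : ℝ} (hx : x ∈ uIcc (0 : ℝ) e)
    (h0 : 0 ≤ a) (h1 : a ≤ 1 - |x|) :
    x + a * e ∈ uIcc (0 : ℝ) e ∧ (e ≠ 0 → |x + a * e| = |x| + a) := by
  rcases he with rfl | rfl | rfl
  · simpa using hx
  · rw [Int.cast_one, uIcc_of_le zero_le_one] at hx ⊢
    rw [abs_of_nonneg hx.1] at h1 ⊢
    refine ⟨⟨by linarith [hx.1], by linarith⟩, fun _ => ?_⟩
    rw [mul_one, abs_of_nonneg (by linarith [hx.1])]
  · rw [Int.cast_neg, Int.cast_one, uIcc_of_ge (by norm_num)] at hx ⊢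
    rw [abs_of_nonpos hx.2] at h1 ⊢
    refine ⟨⟨by linarith, by linarith [hx.2]⟩, fun _ => ?_⟩
    rw [abs_of_nonpos (by linarith [hx.2])]; ring

omit [Fintype V] in
lemma dcube_subset (g : RA Γ) : dcube g ⊆ box Γ := by
  refine fun t ht => ⟨fun u v hu hv => near_of_dir (dir_ne_of_mem ht hu) (dir_ne_of_mem ht hv),
    fun v => ?_⟩
  have := ht v
  rcases dir_cases g v with h | h | h <;> rw [h] at this
  · have : t v = 0 := by simpa using this
    simp [this]
  · rw [Int.cast_one, uIcc_of_le zero_le_one] at this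
    exact abs_le.2 ⟨by linarith [this.1], this.2⟩
  · rw [Int.cast_neg, Int.cast_one, uIcc_of_ge (by norm_num)] at this
    exact abs_le.2 ⟨this.1, by linarith [this.2]⟩

lemma norm_le_of_box {t : V → ℝ} (ht : t ∈ box Γ) : ‖t‖ ≤ 1 :=
  (pi_norm_le_iff_of_nonneg zero_le_one).2 ht.2

lemma push_mem {g : RA Γ} {t : V → ℝ} (ht : t ∈ dcube g) {a : ℝ} (h0 : 0 ≤ a)
    (h1 : a ≤ 1 - ‖t‖) : (fun v => t v + a * dir g v) ∈ dcube g := fun v =>
  (push_aux (dir_cases g v) (ht v) h0 (h1.trans (by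
    have : |t v| ≤ ‖t‖ := norm_le_pi_norm t v
    linarith))).1

lemma push_base {g : RA Γ} (hg : g ≠ 1) {t : V → ℝ} (ht : t ∈ dcube g) :
    ∃ v, |t v + (1 - ‖t‖) * dir g v| = 1 := by
  obtain ⟨v₀, hv₀⟩ := exists_zf_ne (inv_ne_one.2 hg)
  have : Nonempty V := ⟨v₀⟩
  have hn := norm_le_of_box (dcube_subset g ht)
  have key : ∃ v, dir g v ≠ 0 ∧ |t v| = ‖t‖ := by
    obtain ⟨v, hv0⟩ := Finite.exists_max fun v => ‖t v‖
    have hv : ‖t v‖ = ‖t‖ := le_antisymm (norm_le_pi_norm t v)
      ((pi_norm_le_iff_of_nonneg (norm_nonneg _)).2 hv0)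
    by_cases h : t v = 0
    · refine ⟨v₀, by simpa [dir] using hv₀, le_antisymm (norm_le_pi_norm t v₀) ?_⟩
      rw [← hv, h, norm_zero]; exact abs_nonneg _
    · exact ⟨v, dir_ne_of_mem ht h, hv⟩
  obtain ⟨v, h1, h2⟩ := key
  refine ⟨v, ?_⟩
  rw [(push_aux (dir_cases g v) (ht v) (by linarith) (by rw [h2])).2 h1, h2]; ring

lemma vert_dcube {g : RA Γ} {t : V → ℝ} (ht : t ∈ dcube g) {n : ℕ} (hg : len g ≤ n + 1) :
    vert (ch g t) ⊆ insert g {k | len k ≤ n} := by
  classical
  intro k hk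
  obtain ⟨m, hm, rfl⟩ := mem_vert_ch (dcube_subset g ht).1 hk
  have h1 := len_mul_mono_le g (Finset.univ.filter fun v => m v ≠ 0) m
    (fun v => int_cases (dir_cases g v) (ht v) (hm v)) (by simp)
  by_cases h0 : m = 0
  · left; simp [h0]
  · right
    obtain ⟨v, hv⟩ := Function.ne_iff.1 h0
    have : 0 < (Finset.univ.filter fun v => m v ≠ 0).card :=
      Finset.card_pos.2 ⟨v, by simpa using hv⟩
    change len _ ≤ n
    omega

lemma co_mem_dcube {g : RA Γ} {x : Cx Γ} (hx : x ∈ sk {k | len k ≤ len g}) (hg : g ∈ vert x) :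
    co x g ∈ dcube g := by
  intro v
  have key : ∀ b, 0 < sg b * co x g v → 0 < sg b * zf v g⁻¹ := by
    intro b hb
    by_contra hn
    have h1 := len_lt_of_not_zf hn
    have h2 : len (g * lt (v, b)) ≤ len g := hx (lt_mem_vert hg hb)
    rw [← len_mul_lt, len_inv] at h1
    omega
  have h0 := abs_lt.1 (hg v)
  rcases lt_trichotomy (co x g v) 0 with h | h | h
  · have h1 : zf v g⁻¹ < 0 := by simpa using key false (by simpa using h)
    rw [dir, Int.sign_eq_neg_one_of_neg h1, Int.cast_neg, Int.cast_one, uIcc_of_ge (by norm_num)]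
    exact ⟨h0.1.le, h.le⟩
  · rw [h]; exact left_mem_uIcc
  · have h1 : 0 < zf v g⁻¹ := by simpa using key true (by simpa using h)
    rw [dir, Int.sign_eq_one_of_pos h1, Int.cast_one, uIcc_of_le zero_le_one]
    exact ⟨h.le, h0.2.le⟩

theorem exists_contraction : ∃ F : Cx Γ → C(I, Cx Γ), Continuous F ∧
    (∀ s, F bpt s = bpt) ∧ ∀ x, F x 0 = bpt ∧ F x 1 = x := by
  obtain ⟨F, h1, h2, h3⟩ := extend_all (Γ := Γ) (P := C(I, Cx Γ)) (fun n => {g | len g ≤ n})
    (fun _ _ h _ hg => le_trans hg h)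
    (fun k => ⟨len k + Fintype.card V, fun k' hk => by
      have := len_mul_le k (k⁻¹ * k')
      rw [mul_inv_cancel_left] at this
      change len k' ≤ _
      omega⟩)
    (fun x γ => γ 0 = bpt ∧ γ 1 = x) (fun _ => .const _ bpt) continuousOn_const
    (fun x hx => ⟨rfl, (eq_base hx).symm⟩) (by
      intro n F hF hR
      have hl : ∀ g ∈ {g : RA Γ | len g ≤ n + 1} \ {g | len g ≤ n}, len g = n + 1 :=
        fun g hg => le_antisymm hg.1 (Nat.succ_le_of_lt (not_le.1 hg.2))
      refine extend_step dcube (fun g _ => ⟨?_, dcube_subset g⟩)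
        (fun g hg x hx hv => co_mem_dcube (by rwa [hl g hg]) hv)
        (fun g hg t ht => vert_dcube ht hg.1) (fun x (γ : C(I, Cx Γ)) => γ 0 = bpt ∧ γ 1 = x)
        F hF hR fun g hg => ?_
      · have : IsClosed (⋂ v, (fun t : V → ℝ => t v) ⁻¹' uIcc (0 : ℝ) (dir g v)) :=
          isClosed_iInter fun v => isCompact_uIcc.isClosed.preimage (continuous_apply v)
        convert this using 1
        ext t; simp only [mem_iInter]; rfl
      have hg1 : g ≠ 1 := by
        rintro rfl; simpa using hl _ hg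
      have hn : ∀ t : dcube g, ‖t.1‖ ≤ 1 := fun t => norm_le_of_box (dcube_subset g t.2)
      have hm : ∀ t : dcube g, (fun v => t.1 v + (1 - ‖t.1‖) * dir g v) ∈ dcube g := fun t =>
        push_mem t.2 (by linarith [hn t]) le_rfl
      have hs : ∀ t : dcube g, ch g (fun v => t.1 v + (1 - ‖t.1‖) * dir g v) ∈
          sk {k | len k ≤ n} := fun t =>
        mem_sk_of_base (dcube_subset g (hm t)).1 (vert_dcube (hm t) hg.1) (push_base hg1 t.2)
      have cA : Continuous fun p : dcube g × I =>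
          ch g fun v => p.1.1 v + min (2 * (1 - p.2.1)) (1 - ‖p.1.1‖) * dir g v := by
        have c0 : Continuous fun p : dcube g × I => p.1.1 := by fun_prop
        have c1 : Continuous fun p : dcube g × I => min (2 * (1 - p.2.1)) (1 - ‖p.1.1‖) :=
          Continuous.min (by fun_prop) (continuous_const.sub c0.norm)
        refine (continuousOn_ch g).comp_continuous (continuous_pi fun v =>
          ((continuous_apply v).comp c0).add (c1.mul continuous_const)) fun p => ?_
        refine (dcube_subset g (push_mem p.1.2 ?_ (min_le_right _ _))).1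
        exact le_min (by linarith [p.2.2.2]) (by linarith [hn p.1])
      have cB0 : Continuous fun t : dcube g =>
          F (ch g fun v => t.1 v + (1 - ‖t.1‖) * dir g v) :=
        hF.comp_continuous ((continuousOn_ch g).comp_continuous (continuous_pi fun v =>
          ((continuous_apply v).comp continuous_subtype_val).add
            ((continuous_const.sub continuous_subtype_val.norm).mul continuous_const))
          fun t => (dcube_subset g (hm t)).1) hs
      have cB : Continuous fun p : dcube g × I =>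
          F (ch g fun v => p.1.1 v + (1 - ‖p.1.1‖) * dir g v)
            (projIcc 0 1 zero_le_one (2 * p.2.1 / (1 + ‖p.1.1‖))) := by
        refine (cB0.comp continuous_fst).eval (continuous_projIcc.comp ?_)
        exact Continuous.div (by fun_prop) (by fun_prop) fun p => by positivity
      have cC := Continuous.if_le (f := fun p : dcube g × I => 2 * (1 - p.2.1))
        (g := fun p => 1 - ‖p.1.1‖) cA cB (by fun_prop) (by fun_prop) fun p hp => by
          have h1 : 2 * p.2.1 / (1 + ‖p.1.1‖) = 1 := by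
            rw [div_eq_one_iff_eq (by positivity)]; linarith
          rw [hp, min_self, h1, projIcc_right]
          exact (hR _ (hs p.1)).2.symm
      refine ⟨ContinuousMap.curry ⟨_, cC⟩, map_continuous _, fun t => ⟨?_, ?_⟩, fun t ht => ?_⟩
      · have h1 : ¬ (2 : ℝ) ≤ 1 - ‖t.1‖ := by linarith [norm_nonneg t.1]
        simpa [h1] using (hR _ (hs t)).1
      · have h1 : (0 : ℝ) ≤ 1 - ‖t.1‖ := by linarith [hn t]
        simp [h1]
      · obtain ⟨v, hv⟩ := ht
        have h1 : ‖t.1‖ = 1 := le_antisymm (hn t) (hv ▸ norm_le_pi_norm t.1 v)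
        have h2 := hR _ (hs t)
        simp only [h1, sub_self, zero_mul, add_zero] at h2
        refine ContinuousMap.ext fun s => ?_
        simp only [ContinuousMap.curry_apply, ContinuousMap.coe_mk, h1, sub_self, zero_mul,
          add_zero]
        split_ifs with h3
        · have h4 : s = 1 := Subtype.ext (le_antisymm s.2.2 (by change (1 : ℝ) ≤ s; linarith))
          subst h4
          simpa using h2.2.symm
        · rw [show (2 : ℝ) * s / (1 + 1) = s by ring, projIcc_val])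
  exact ⟨F, h1, fun s => by rw [h2 bpt fun k hk => by simp [vert_base hk]]; rfl, h3⟩

theorem exists_retraction (hΓ : ConeRetr Γ) : ∃ F : Cx Γ → Cx Γ, Continuous F ∧
    (∀ x ∈ sk (W0 Γ), F x = x) ∧ ∀ x, F x ∈ sk (W0 Γ) := by
  obtain ⟨r, r1, r2, r3⟩ := hΓ
  have e0 : {k : RA Γ | -((0 : ℕ) : ℤ) ≤ ht k ∧ ht k ≤ Fintype.card V + (0 : ℕ)} = W0 Γ := by
    simp [W0]
  obtain ⟨F, h1, h2, h3⟩ := extend_all (Γ := Γ) (P := Cx Γ)
    (fun m => {k | -(m : ℤ) ≤ ht k ∧ ht k ≤ Fintype.card V + m})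
    (fun _ _ h _ hg => ⟨by linarith [hg.1, Int.ofNat_le.2 h], by linarith [hg.2, Int.ofNat_le.2 h]⟩)
    (fun k => ⟨len k + Fintype.card V, fun k' hk => by
      have := len_mul_le k (k⁻¹ * k')
      rw [mul_inv_cancel_left] at this
      have := abs_le.1 (abs_ht_le k')
      constructor <;> omega⟩)
    (fun _ p => p ∈ sk (W0 Γ)) id continuousOn_id (fun x hx => e0 ▸ hx) (by
      intro m F hF hR
      let b : RA Γ → Bool := fun g => decide (ht g < 0)
      let Q : RA Γ → Set (V → ℝ) := fun g => {t | (sg (b g) : ℝ) • t ∈ cone Γ}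
      have hss : ∀ g, (sg (b g) : ℝ) * sg (b g) = 1 := fun g => by exact_mod_cast sg_mul_self _
      have habs : ∀ g (x : ℝ), |(sg (b g) : ℝ) * x| = |x| := fun g x => by
        rw [abs_mul, ← Int.cast_abs, abs_sg]; simp
      have hbox : ∀ g, Q g ⊆ box Γ := by
        refine fun g t ht => ⟨fun u v hu hv => ht.2 u v ?_ ?_, fun v => ?_⟩
        · cases b g <;> simpa using hu
        · cases b g <;> simpa using hv
        · rw [← habs g]; exact abs_le.2 ⟨le_trans (by norm_num) (ht.1 v).1, (ht.1 v).2⟩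
      have hvert : ∀ g ∈ {k : RA Γ | -((m + 1 : ℕ) : ℤ) ≤ ht k ∧
          ht k ≤ Fintype.card V + (m + 1 : ℕ)} \ {k | -(m : ℤ) ≤ ht k ∧ ht k ≤ Fintype.card V + m},
          ∀ t ∈ Q g, vert (ch g t) ⊆
            insert g {k | -(m : ℤ) ≤ ht k ∧ ht k ≤ Fintype.card V + m} := by
        intro g hg t ht k hk
        obtain ⟨n, hn, rfl⟩ := mem_vert_ch (hbox g ht).1 hk
        by_cases h0 : n = 0
        · left; simp [h0]
        right
        have h1 : ∀ v, 0 ≤ sg (b g) * n v ∧ sg (b g) * n v ≤ 1 := by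
          intro v
          have h2 : (sg (b g) : ℝ) * t v ∈ uIcc (0 : ℝ) (1 : ℤ) := by
            rw [Int.cast_one, uIcc_of_le zero_le_one]; exact ht.1 v
          have h3 := int_cases (n := sg (b g) * n v) (Or.inr (Or.inl rfl)) h2 (by
            push_cast; rw [← mul_sub, habs]; exact hn v)
          omega
        obtain ⟨v, hv⟩ := Function.ne_iff.1 h0
        have h2 : 1 ≤ sg (b g) * ∑ v, n v := by
          rw [Finset.mul_sum]
          refine le_trans ?_ (Finset.single_le_sum (fun u _ => (h1 u).1) (Finset.mem_univ v))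
          have : sg (b g) * n v ≠ 0 := mul_ne_zero (by cases b g <;> simp) hv
          have := (h1 v).1
          omega
        have h3 : sg (b g) * ∑ v, n v ≤ Fintype.card V := by
          rw [Finset.mul_sum]
          simpa using Finset.sum_le_card_nsmul Finset.univ _ 1 fun u _ => (h1 u).2
        have h4 := hg.1
        have h5 := hg.2
        simp only [mem_ofPred_eq, ht_mul, ht_mono] at h4 h5 ⊢
        by_cases h6 : NZ.ht g < 0 <;> simp [b, h6] at h2 h3 <;> omega
      refine extend_step Q (fun g _ => ⟨?_, hbox g⟩) (fun g hg x hx hv => ?_) hvert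
        (fun _ p => p ∈ sk (W0 Γ)) F hF hR fun g hg => ?_
      · have hc : IsClosed (cone Γ) := by
          have : IsClosed (⋂ v, (fun t : V → ℝ => t v) ⁻¹' Icc (0 : ℝ) 1) :=
            isClosed_iInter fun v => isClosed_Icc.preimage (continuous_apply v)
          convert this.inter (isClosed_clq (Γ := Γ)) using 1
          ext t; simp only [mem_inter_iff, mem_iInter]; rfl
        exact hc.preimage (continuous_const_smul _)
      · refine ⟨fun v => ⟨?_, ?_⟩, fun u v hu hv' => (ch_co hv).1 u v ?_ ?_⟩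
        · by_contra hn
          have h1 := hx (lt_mem_vert hv (v := v) (b := !b g) (by simpa using hn))
          have h4 := hg.1
          have h5 := hg.2
          simp only [mem_ofPred_eq, ht_mul, lt, ht_zpow] at h1 h4 h5
          by_cases h6 : ht g < 0 <;> simp [b, h6] at h1 <;> omega
        · exact (le_abs_self _).trans ((habs g _).le.trans (hv v).le)
        · intro h0; simp [h0] at hu
        · intro h0; simp [h0] at hv'
      have hm : ∀ t : Q g, (sg (b g) : ℝ) • r ((sg (b g) : ℝ) • t.1) ∈ Q g := fun t => by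
        change _ • _ ∈ cone Γ
        rw [smul_smul, hss, one_smul]
        exact (r2 t.2).1
      have hs : ∀ t : Q g, ch g ((sg (b g) : ℝ) • r ((sg (b g) : ℝ) • t.1)) ∈
          sk {k | -(m : ℤ) ≤ ht k ∧ ht k ≤ Fintype.card V + m} := fun t => by
        refine mem_sk_of_base (hbox g (hm t)).1 (hvert g hg _ (hm t)) ?_
        obtain ⟨v, hv⟩ := (r2 t.2).2
        exact ⟨v, by rw [Pi.smul_apply, smul_eq_mul, habs, hv, abs_one]⟩
      refine ⟨fun t => F (ch g ((sg (b g) : ℝ) • r ((sg (b g) : ℝ) • t.1))), ?_,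
        fun t => hR _ (hs t), fun t ht => ?_⟩
      · refine hF.comp_continuous ((continuousOn_ch g).comp_continuous ?_
          fun t => (hbox g (hm t)).1) hs
        exact (r1.comp_continuous (f := fun t : Q g => (sg (b g) : ℝ) • t.1) (by fun_prop)
          fun t => t.2).const_smul (sg (b g) : ℝ)
      · obtain ⟨v, hv⟩ := ht
        have h1 : (sg (b g) : ℝ) • t.1 ∈ coneBase Γ := by
          refine ⟨t.2, v, ?_⟩
          rw [← habs g] at hv
          exact (abs_of_nonneg (t.2.1 v).1).symm.trans hv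
        simp only [r3 _ h1, smul_smul, hss, one_smul])
  exact ⟨F, h1, e0 ▸ h2, h3⟩

theorem ptContr_sk (hΓ : ConeRetr Γ) : PtContr ↥(sk (W0 Γ)) := by
  obtain ⟨F, f1, f2, f3⟩ := exists_contraction (Γ := Γ)
  obtain ⟨r, r1, r2, r3⟩ := exists_retraction hΓ
  have hb : (bpt : Cx Γ) ∈ sk (W0 Γ) := fun k hk => by simp [vert_base hk, W0]
  refine ⟨⟨bpt, hb⟩, ⟨fun p => ⟨r (F p.1.1 p.2), r3 _⟩, ?_⟩, fun x => ?_, fun x => ?_, fun s => ?_⟩
  · exact (r1.comp ((f1.comp (by fun_prop)).eval continuous_snd)).subtype_mk _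
  · exact Subtype.ext (by simp [(f3 x.1).1, r2 _ hb])
  · exact Subtype.ext (by simp [(f3 x.1).2, r2 _ x.2])
  · exact Subtype.ext (by simp [f2, r2 _ hb])

end Pool.Agent.P.MP_f05dbc_gt.NZ
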