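import Pool.Agent.P.MP_f05dbc_gt.NZ.Raag

/-!
The cube complex of a right-angled Artin group: points, coordinates, charts, full subcomplexes.
-/

namespace Pool.Agent.P.MP_f05dbc_gt.NZ

open Set Topology

variable {V : Type} {Γ : SimpleGraph V}

lemma commute_zpow {u v : V} {m n : ℤ} (h : m ≠ 0 → n ≠ 0 → Near Γ u v) :
    Commute (gen u ^ m : RA Γ) (gen v ^ n) := by
  by_cases hm : m = 0
  · simp [hm]
  by_cases hn : n = 0
  · simp [hn]
  exact (gen_comm (h hm hn)).zpow_zpow _ _

/-- Ordered product of powers of generators along a list. -/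
noncomputable def monoL (l : List V) (n : V → ℤ) : RA Γ := (l.map fun v => gen v ^ n v).prod

@[simp] lemma monoL_nil (n : V → ℤ) : (monoL [] n : RA Γ) = 1 := rfl

@[simp] lemma monoL_cons (v : V) (l : List V) (n : V → ℤ) :
    (monoL (v :: l) n : RA Γ) = gen v ^ n v * monoL l n := by simp [monoL]

lemma monoL_mem {S : Set V} {n : V → ℤ} (h : ∀ v, n v ≠ 0 → v ∈ S) (l : List V) :
    (monoL l n : RA Γ) ∈ sub S := by
  induction l with
  | nil => exact one_mem _
  | cons v l ih =>
    rw [monoL_cons]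
    refine mul_mem ?_ ih
    by_cases hv : n v = 0
    · simp [hv]
    · exact zpow_mem' (h v hv) _

lemma monoL_add {n n' : V → ℤ} (h : ∀ u v, n u ≠ 0 → n' v ≠ 0 → Near Γ u v) (l : List V) :
    (monoL l (n + n') : RA Γ) = monoL l n * monoL l n' := by
  induction l with
  | nil => simp
  | cons v l ih =>
    have hc : Commute (gen v ^ n' v : RA Γ) (monoL l n) := by
      refine Commute.list_prod_right _ _ fun x hx => ?_
      obtain ⟨u, -, rfl⟩ := List.mem_map.1 hx
      exact commute_zpow fun h1 h2 => (h u v h2 h1).symm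
    simp only [monoL_cons, Pi.add_apply, zpow_add, ih]
    rw [mul_assoc, ← mul_assoc (gen v ^ n' v), hc.eq]
    simp only [mul_assoc]

lemma zf_mul_monoL [DecidableEq V] {v : V} {n : V → ℤ} (h : n v ≠ 0 → ∀ u, n u ≠ 0 → Near Γ v u)
    (l : List V) (hl : l.Nodup) (g : RA Γ) :
    zf v (g * monoL l n) = zf v g + (if v ∈ l then n v else 0) * chi v v g := by
  induction l generalizing g with
  | nil => simp
  | cons u l ih =>
    rw [List.nodup_cons] at hl
    rw [monoL_cons, ← mul_assoc, ih hl.2, zf_mul_zpow]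
    by_cases huv : u = v
    · subst huv; simp [hl.1]
    · rw [chi_of_ne huv]
      have h1 : (v ∈ u :: l) ↔ v ∈ l := by simp [Ne.symm huv]
      simp only [h1, mul_zero, add_zero]
      by_cases hv : n v = 0
      · simp [hv]
      by_cases hu : n u = 0
      · simp [hu]
      rw [chi_mul fun _ => zpow_mem_st (h hv u hu) _]

variable [Fintype V]

/-- Product of powers of generators. -/
noncomputable def mono (n : V → ℤ) : RA Γ := monoL Finset.univ.toList n

lemma mono_mem {S : Set V} {n : V → ℤ} (h : ∀ v, n v ≠ 0 → v ∈ S) : (mono n : RA Γ) ∈ sub S :=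
  monoL_mem h _

lemma mono_mem_st {v : V} {n : V → ℤ} (h : ∀ u, n u ≠ 0 → Near Γ v u) : (mono n : RA Γ) ∈ st v :=
  mono_mem (S := {u | Near Γ v u}) h

lemma mono_add {n n' : V → ℤ} (h : ∀ u v, n u ≠ 0 → n' v ≠ 0 → Near Γ u v) :
    (mono (n + n') : RA Γ) = mono n * mono n' := monoL_add h _

@[simp] lemma mono_zero : (mono (0 : V → ℤ) : RA Γ) = 1 := by simp [mono, monoL]

lemma zf_mul_mono {v : V} {n : V → ℤ} (h : n v ≠ 0 → ∀ u, n u ≠ 0 → Near Γ v u) (g : RA Γ) :
    zf v (g * mono n) = zf v g + n v * chi v v g := by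
  classical
  simpa [mono] using zf_mul_monoL h Finset.univ.toList (Finset.nodup_toList _) g

lemma zf_mono {v : V} {n : V → ℤ} (h : n v ≠ 0 → ∀ u, n u ≠ 0 → Near Γ v u) :
    zf v (mono n : RA Γ) = n v := by
  have := zf_mul_mono h (1 : RA Γ)
  rwa [one_mul, zf_one, zero_add, chi_of_mem (one_mem _), mul_one] at this

lemma mono_neg {n : V → ℤ} (h : ∀ u v, n u ≠ 0 → n v ≠ 0 → Near Γ u v) :
    (mono (-n) : RA Γ) = (mono n)⁻¹ := by
  have := mono_add (Γ := Γ) (n := n) (n' := -n) fun u v h1 h2 => h u v h1 (by simpa using h2)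
  rw [add_neg_cancel, mono_zero] at this
  exact (inv_eq_of_mul_eq_one_right this.symm).symm

lemma ht_mono (n : V → ℤ) : ht (mono n : RA Γ) = ∑ v, n v := by
  rw [← Finset.sum_map_toList, mono]
  induction (Finset.univ : Finset V).toList with
  | nil => simp
  | cons v l ih => simp [ih]

lemma len_mono_le (n : V → ℤ) : (len (mono n : RA Γ) : ℤ) ≤ ∑ v, |n v| := by
  rw [← Finset.sum_map_toList, mono]
  induction (Finset.univ : Finset V).toList with
  | nil => simp
  | cons v l ih =>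
    have h1 := len_mul_le (gen v ^ n v : RA Γ) (monoL l n)
    have h2 := len_zpow_le (Γ := Γ) v (n v)
    simp only [monoL_cons, List.map_cons, List.sum_cons]
    omega

lemma mono_single [DecidableEq V] (v : V) (m : ℤ) : (mono (Pi.single v m) : RA Γ) = gen v ^ m := by
  have key : ∀ l : List V, l.Nodup →
      (monoL l (Pi.single v m) : RA Γ) = if v ∈ l then gen v ^ m else 1 := by
    intro l hl
    induction l with
    | nil => simp
    | cons u l ih =>
      rw [List.nodup_cons] at hl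
      rw [monoL_cons, ih hl.2]
      by_cases huv : u = v
      · subst huv; simp [hl.1]
      · simp [huv, Ne.symm huv]
  simpa [mono] using key _ (Finset.nodup_toList Finset.univ)

/-- An element all of whose first letters are central and whose remainder is trivial. -/
lemma eq_mono_of_zf {h : RA Γ} (hst : ∀ v, zf v h ≠ 0 → h ∈ st v)
    (hz : ∀ v, zf v (h * mono fun u => -zf u h) = 0) : h = mono fun u => zf u h := by
  have h1 : h * mono (fun u => -zf u h) = 1 := by
    by_contra hne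
    obtain ⟨v, hv⟩ := exists_zf_ne hne
    exact hv (hz v)
  have h2 := mono_neg (Γ := Γ) (n := fun u => zf u h) fun u v h1 h2 =>
    near_of_mem_st (hst u h1) h2
  have h3 : (fun u => -zf u h) = -fun u => zf u h := rfl
  rw [h3, h2, mul_inv_eq_one] at h1
  exact h1

omit [Fintype V] in
/-- The support is a clique. -/
def Clq (Γ : SimpleGraph V) (t : V → ℝ) : Prop := ∀ u v, t u ≠ 0 → t v ≠ 0 → Near Γ u v

omit [Fintype V] in
lemma isClosed_clq : IsClosed {t | Clq Γ t} := by
  have : {t : V → ℝ | Clq Γ t} = ⋂ u, ⋂ v, ⋂ (_ : ¬ Near Γ u v), {t | t u * t v = 0} := by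
    ext t
    simp only [Clq, mem_ofPred_eq, mem_iInter, mul_eq_zero]
    refine forall₂_congr fun u v => ?_
    by_cases h1 : t u = 0 <;> by_cases h2 : t v = 0 <;> simp [h1, h2]
  rw [this]
  exact isClosed_iInter fun u => isClosed_iInter fun v => isClosed_iInter fun _ =>
    isClosed_eq (by fun_prop) continuous_const

/-- A point of the cube complex: the lowest vertex of its cube and the coordinates there. -/
@[ext] structure Cx (Γ : SimpleGraph V) where
  /-- lowest vertex -/
  g : RA Γ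
  /-- coordinates -/
  t : V → ℝ
  lo : ∀ v, 0 ≤ t v
  hi : ∀ v, t v < 1
  clq : Clq Γ t

/-- Coordinates of a point seen from the vertex `k`. -/
noncomputable def co (x : Cx Γ) (k : RA Γ) (v : V) : ℝ :=
  zf v (k⁻¹ * x.g) + x.t v * chi v v (k⁻¹ * x.g)

noncomputable instance : TopologicalSpace (Cx Γ) := TopologicalSpace.induced co inferInstance

omit [Fintype V] in
lemma isInducing_co : IsInducing (co : Cx Γ → RA Γ → V → ℝ) := ⟨rfl⟩

omit [Fintype V] in
lemma continuous_co (k : RA Γ) : Continuous fun x : Cx Γ => co x k :=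
  (continuous_apply k).comp isInducing_co.continuous

open Classical in
/-- The chart at the vertex `k`. -/
noncomputable def ch (k : RA Γ) (t : V → ℝ) : Cx Γ :=
  if h : Clq Γ t then
    ⟨k * mono fun v => ⌊t v⌋, fun v => Int.fract (t v), fun _ => Int.fract_nonneg _,
      fun _ => Int.fract_lt_one _, fun u v hu hv => h u v
        (fun h0 => hu (by simp [h0])) (fun h0 => hv (by simp [h0]))⟩
  else ⟨k, 0, fun _ => le_rfl, fun _ => one_pos, fun _ _ hu => absurd rfl hu⟩

lemma ch_g {k : RA Γ} {t : V → ℝ} (h : Clq Γ t) : (ch k t).g = k * mono fun v => ⌊t v⌋ := by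
  simp [ch, h]

lemma ch_t {k : RA Γ} {t : V → ℝ} (h : Clq Γ t) : (ch k t).t = fun v => Int.fract (t v) := by
  simp [ch, h]

omit [Fintype V] in
lemma ne_of_floor {x : ℝ} (h : ⌊x⌋ ≠ 0) : x ≠ 0 := fun h0 => h (by simp [h0])

lemma co_ch {t : V → ℝ} (h : Clq Γ t) (k k' : RA Γ) (v : V) :
    co (ch k t) k' v = zf v (k'⁻¹ * k) + t v * chi v v (k'⁻¹ * k) := by
  rw [co, ch_g h, ch_t h, ← mul_assoc,
    zf_mul_mono fun h1 u h2 => h v u (ne_of_floor h1) (ne_of_floor h2)]
  by_cases hv : t v = 0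
  · simp [hv]
  · rw [chi_mul fun _ => mono_mem_st fun u hu => h v u hv (ne_of_floor hu)]
    push_cast
    rw [add_assoc, ← add_mul, Int.floor_add_fract]

lemma co_ch_self {t : V → ℝ} (h : Clq Γ t) (k : RA Γ) : co (ch k t) k = t := by
  funext v
  simp [co_ch h, chi_of_mem (one_mem _)]

lemma continuousOn_ch (k : RA Γ) : ContinuousOn (ch k) {t | Clq Γ t} := by
  rw [isInducing_co.continuousOn_iff]
  have : Continuous fun (t : V → ℝ) (k' : RA Γ) (v : V) =>
      (zf v (k'⁻¹ * k) : ℝ) + t v * chi v v (k'⁻¹ * k) := by fun_prop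
  refine this.continuousOn.congr fun t ht => ?_
  funext k' v
  exact co_ch ht k k' v

lemma ch_self (x : Cx Γ) : ch x.g x.t = x := by
  have h1 : (fun v => ⌊x.t v⌋) = 0 := by
    funext v; exact Int.floor_eq_zero_iff.2 ⟨x.lo v, x.hi v⟩
  ext1
  · rw [ch_g x.clq, h1, mono_zero, mul_one]
  · rw [ch_t x.clq]; funext v; exact Int.fract_eq_self.2 ⟨x.lo v, x.hi v⟩

/-- Change of chart along an integer vector. -/
lemma ch_shift {t : V → ℝ} {n : V → ℤ} (h : Clq Γ t) (hn : ∀ v, n v ≠ 0 → t v ≠ 0) (k : RA Γ) :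
    Clq Γ (fun v => t v - n v) ∧ ch (k * mono n) (fun v => t v - n v) = ch k t := by
  have h0 : ∀ v, t v - n v ≠ 0 → t v ≠ 0 := by
    intro v hv h1
    by_cases h2 : n v = 0
    · simp [h1, h2] at hv
    · exact hn v h2 h1
  have hc : Clq Γ (fun v => t v - n v) := fun u v hu hv => h u v (h0 u hu) (h0 v hv)
  refine ⟨hc, ?_⟩
  ext1
  · rw [ch_g hc, ch_g h, mul_assoc, ← mono_add fun u v hu hv =>
      h u v (hn u hu) (h0 v (ne_of_floor hv))]
    congr 2; funext v; simp
  · rw [ch_t hc, ch_t h]; funext v; simp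

/-- The vertices of the smallest cube that contains `x`. -/
def vert (x : Cx Γ) : Set (RA Γ) := {k | ∀ v, |co x k v| < 1}

omit [Fintype V] in
lemma ne_of_abs_lt {x : ℝ} {n : ℤ} (h : |x - n| < 1) (hn : n ≠ 0) : x ≠ 0 := by
  rintro rfl
  rw [zero_sub, abs_neg, ← Int.cast_abs] at h
  have : |n| < 1 := by exact_mod_cast h
  exact hn (Int.abs_lt_one_iff.1 this)

lemma mul_mono_mem_vert {t : V → ℝ} (h : Clq Γ t) (k : RA Γ) {n : V → ℤ}
    (hn : ∀ v, |t v - n v| < 1) : k * mono n ∈ vert (ch k t) := by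
  obtain ⟨h1, h2⟩ := ch_shift h (fun v hv => ne_of_abs_lt (hn v) hv) k
  intro v
  rw [← h2, co_ch_self h1]
  exact hn v

lemma mem_vert_self {t : V → ℝ} (h : Clq Γ t) (k : RA Γ) : k ∈ vert (ch k t) ↔ ∀ v, |t v| < 1 := by
  simp only [vert, mem_ofPred_eq, co_ch_self h]

lemma g_mem_vert (x : Cx Γ) : x.g ∈ vert x := by
  have := (mem_vert_self x.clq x.g).2 fun v => abs_lt.2 ⟨by linarith [x.lo v], x.hi v⟩
  rwa [ch_self] at this

lemma exists_of_mem_vert {x : Cx Γ} {k : RA Γ} (hk : k ∈ vert x) :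
    ∃ n : V → ℤ, (∀ v, |x.t v - n v| < 1) ∧ k = x.g * mono n := by
  set h := k⁻¹ * x.g with hh
  have hz : ∀ v, zf v h = 0 ∨ (zf v h = -1 ∧ 0 < x.t v ∧ h ∈ st v) := by
    intro v
    have h1 := abs_lt.1 (hk v)
    have h2 := x.lo v
    have h3 := x.hi v
    rw [co, ← hh] at h1
    rcases chi_cases v v h with h4 | ⟨h4, -, h5⟩
    · rw [h4] at h1
      left
      have h6 : (-1 : ℤ) < zf v h := by exact_mod_cast (by simpa using h1.1 : (-1 : ℝ) < zf v h)
      have h7 : zf v h < 1 := by exact_mod_cast (by simpa using h1.2 : (zf v h : ℝ) < 1)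
      omega
    · rw [h4] at h1
      simp only [Int.cast_one, mul_one] at h1
      have h6 : (-2 : ℤ) < zf v h := by exact_mod_cast (by linarith : (-2 : ℝ) < zf v h)
      have h7 : zf v h < 1 := by exact_mod_cast (by linarith : (zf v h : ℝ) < 1)
      by_cases h8 : zf v h = 0
      · exact Or.inl h8
      · have h9 : zf v h = -1 := by omega
        rw [h9] at h1
        exact Or.inr ⟨h9, by push_cast at h1; linarith, h5⟩
  have hst : ∀ v, zf v h ≠ 0 → h ∈ st v := fun v hv => ((hz v).resolve_left hv).2.2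
  have hnear : ∀ u v, zf u h ≠ 0 → zf v h ≠ 0 → Near Γ u v := fun u v h1 h2 => near_of_zf h1 h2
  have h1 : h = mono fun u => zf u h := by
    refine eq_mono_of_zf hst fun v => ?_
    rw [zf_mul_mono fun h1 u h2 => hnear v u (by simpa using h1) (by simpa using h2)]
    by_cases h2 : zf v h = 0
    · simp [h2]
    · simp [chi_of_mem (hst v h2)]
  refine ⟨-fun u => zf u h, fun v => ?_, ?_⟩
  · have h2 := x.lo v
    have h3 := x.hi v
    rcases hz v with h4 | ⟨h4, h5, -⟩ <;> simp only [Pi.neg_apply, h4] <;> rw [abs_lt] <;>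
      constructor <;> push_cast <;> linarith
  · rw [mono_neg hnear, ← h1, hh]; group

lemma ch_co {x : Cx Γ} {k : RA Γ} (hk : k ∈ vert x) : Clq Γ (co x k) ∧ ch k (co x k) = x := by
  obtain ⟨n, hn, rfl⟩ := exists_of_mem_vert hk
  obtain ⟨h1, h2⟩ := ch_shift x.clq (fun v hv => ne_of_abs_lt (hn v) hv) x.g
  rw [ch_self] at h2
  have h3 : co x (x.g * mono n) = fun v => x.t v - n v := by
    have := co_ch_self h1 (x.g * mono n)
    rwa [h2] at this
  rw [h3]
  exact ⟨h1, h2⟩

lemma mem_vert_ch {t : V → ℝ} (h : Clq Γ t) {k k' : RA Γ} (hk : k' ∈ vert (ch k t)) :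
    ∃ n : V → ℤ, (∀ v, |t v - n v| < 1) ∧ k' = k * mono n := by
  obtain ⟨n, hn, rfl⟩ := exists_of_mem_vert hk
  rw [ch_t h] at hn
  refine ⟨(fun v => ⌊t v⌋) + n, fun v => ?_, ?_⟩
  · have := hn v
    simp only [Pi.add_apply, Int.cast_add]
    rwa [← sub_sub, Int.self_sub_floor]
  · rw [ch_g h, mul_assoc, mono_add]
    intro u v hu hv
    refine h u v (ne_of_floor hu) fun h0 => ?_
    have := ne_of_abs_lt (hn v) hv
    simp [h0] at this

lemma co_injective : Function.Injective (co : Cx Γ → RA Γ → V → ℝ) := by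
  intro x y hxy
  have h1 := g_mem_vert x
  have h2 : x.g ∈ vert y := by simpa [vert, hxy] using h1
  rw [← (ch_co h1).2, ← (ch_co h2).2, hxy]

instance : T2Space (Cx Γ) := (IsEmbedding.mk isInducing_co co_injective).t2Space

lemma isOpen_star (k : RA Γ) : IsOpen {x : Cx Γ | k ∈ vert x} := by
  have : {x : Cx Γ | k ∈ vert x} = ⋂ v, {x | |co x k v| < 1} := by ext x; simp [vert]
  rw [this]
  exact isOpen_iInter_of_finite fun v =>
    isOpen_lt ((continuous_apply v).comp (continuous_co k)).abs continuous_const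

/-- The closed star model. -/
def box (Γ : SimpleGraph V) : Set (V → ℝ) := {t | Clq Γ t ∧ ∀ v, |t v| ≤ 1}

omit [Fintype V] in
lemma isCompact_box : IsCompact (box Γ) := by
  refine (isCompact_univ_pi fun _ : V =>
    (isCompact_Icc : IsCompact (Icc (-1 : ℝ) 1))).of_isClosed_subset
    (isClosed_clq.inter ?_) fun t ht v _ => abs_le.1 (ht.2 v)
  have : IsClosed (⋂ v, {t : V → ℝ | |t v| ≤ 1}) :=
    isClosed_iInter fun v => isClosed_le (continuous_apply v).abs continuous_const
  convert this using 1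
  ext t; simp only [mem_iInter]; rfl

lemma isCompact_ch_box (k : RA Γ) : IsCompact (ch k '' box Γ) :=
  isCompact_box.image_of_continuousOn ((continuousOn_ch k).mono fun _ ht => ht.1)

lemma star_subset (k : RA Γ) : {x : Cx Γ | k ∈ vert x} ⊆ ch k '' box Γ := fun _ hx =>
  ⟨_, ⟨(ch_co hx).1, fun v => (hx v).le⟩, (ch_co hx).2⟩

instance : LocallyCompactSpace (Cx Γ) :=
  have : WeaklyLocallyCompactSpace (Cx Γ) := ⟨fun x => ⟨_, isCompact_ch_box x.g,
    Filter.mem_of_superset ((isOpen_star x.g).mem_nhds (g_mem_vert x)) (star_subset _)⟩⟩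
  inferInstance

lemma len_le_of_mem_vert {t : V → ℝ} (h : t ∈ box Γ) {k k' : RA Γ} (hk : k' ∈ vert (ch k t)) :
    len (k⁻¹ * k') ≤ Fintype.card V := by
  obtain ⟨n, hn, rfl⟩ := mem_vert_ch h.1 hk
  have h1 := len_mono_le (Γ := Γ) n
  have h2 : ∑ v, |n v| ≤ ∑ _v : V, (1 : ℤ) := by
    refine Finset.sum_le_sum fun v _ => ?_
    have h3 := abs_lt.1 (hn v)
    have h4 := abs_le.1 (h.2 v)
    have h5 : (-2 : ℤ) < n v := by exact_mod_cast (by linarith : (-2 : ℝ) < n v)
    have h6 : n v < 2 := by exact_mod_cast (by linarith : (n v : ℝ) < 2)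
    rw [abs_le]; omega
  rw [inv_mul_cancel_left]
  simp at h2; omega

lemma len_le_of_vert {x : Cx Γ} {k k' : RA Γ} (hk : k ∈ vert x) (hk' : k' ∈ vert x) :
    len (k⁻¹ * k') ≤ Fintype.card V := by
  refine len_le_of_mem_vert (t := co x k) ⟨(ch_co hk).1, fun v => (hk v).le⟩ ?_
  rwa [(ch_co hk).2]

/-- The full subcomplex on a set of vertices. -/
def sk (W : Set (RA Γ)) : Set (Cx Γ) := {x | vert x ⊆ W}

lemma isClosed_sk (W : Set (RA Γ)) : IsClosed (sk W) := by
  have : (sk W)ᶜ = ⋃ k ∈ Wᶜ, {x | k ∈ vert x} := by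
    ext x; simp [sk, not_subset, and_comm]
  rw [← isOpen_compl_iff, this]
  exact isOpen_biUnion fun k _ => isOpen_star k

noncomputable instance : MulAction (RA Γ) (Cx Γ) where
  smul a x := ⟨a * x.g, x.t, x.lo, x.hi, x.clq⟩
  one_smul _ := Cx.ext (one_mul _) rfl
  mul_smul _ _ _ := Cx.ext (mul_assoc _ _ _) rfl

omit [Fintype V] in
@[simp] lemma smul_g (a : RA Γ) (x : Cx Γ) : (a • x).g = a * x.g := rfl

omit [Fintype V] in
@[simp] lemma smul_t (a : RA Γ) (x : Cx Γ) : (a • x).t = x.t := rfl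

omit [Fintype V] in
lemma co_smul (a : RA Γ) (x : Cx Γ) (k : RA Γ) : co (a • x) k = co x (a⁻¹ * k) := by
  funext v; simp [co, mul_assoc]

omit [Fintype V] in
lemma mem_vert_smul {a : RA Γ} {x : Cx Γ} {k : RA Γ} : k ∈ vert (a • x) ↔ a⁻¹ * k ∈ vert x := by
  simp [vert, co_smul]

lemma smul_ch (a k : RA Γ) (t : V → ℝ) : a • ch k t = ch (a * k) t := by
  by_cases h : Clq Γ t
  · ext1
    · simp [ch_g h, mul_assoc]
    · simp [ch_t h]
  · ext1 <;> simp [ch, h]

instance : ContinuousConstSMul (RA Γ) (Cx Γ) where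
  continuous_const_smul a := by
    rw [isInducing_co.continuous_iff]
    exact continuous_pi fun k => (continuous_co (a⁻¹ * k)).congr fun x => (co_smul a x k).symm

variable (Γ) in
/-- Vertices of height between `0` and the number of generators. -/
def W0 : Set (RA Γ) := {k | 0 ≤ ht k ∧ ht k ≤ Fintype.card V}

/-- A contraction that fixes the base point. -/
def PtContr (E : Type) [TopologicalSpace E] : Prop :=
  ∃ (e : E) (H : C(E × unitInterval, E)), (∀ x, H (x, 0) = e) ∧ (∀ x, H (x, 1) = x) ∧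
    ∀ s, H (e, s) = e

end Pool.Agent.P.MP_f05dbc_gt.NZ
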