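import Pool.Agent.P.MP_f05dbc_gt.Defs

/-!
Definitions for the example of a group of type F without a Z-structure.
-/

namespace Pool.Agent.P.MP_f05dbc_gt

open Set Topology

/-- Type F: `G` is the fundamental group of a finite, connected, aspherical CW complex. -/
def TypeF (G : Type) [Group G] : Prop :=
  ∃ (K : Type) (_ : TopologicalSpace K) (_ : T2Space K) (_ : CWComplex (univ : Set K)) (x : K),
    RelCWComplex.Finite (univ : Set K) ∧ PathConnectedSpace K ∧
      Nonempty (FundamentalGroup K x ≃* G) ∧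
      ∀ n, 2 ≤ n → Subsingleton (HomotopyGroup (Fin n) K x)

/-- `G` acts properly discontinuously and cocompactly on the complement of a Z-set in a compact,
metrizable, contractible space. Every Z-structure gives such an action. -/
def HasWeakZ (G : Type) [Group G] : Prop :=
  ∃ (X : Type) (_ : TopologicalSpace X) (Z : Set X) (a : G →* (↥Zᶜ ≃ₜ ↥Zᶜ)),
    CompactSpace X ∧ TopologicalSpace.MetrizableSpace X ∧ ContractibleSpace X ∧ IsZSet Z ∧
      (∀ K L : Set ↥Zᶜ, IsCompact K → IsCompact L → {g | (a g '' K ∩ L).Nonempty}.Finite) ∧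
      ∃ K : Set ↥Zᶜ, IsCompact K ∧ ∀ x, ∃ g, a g x ∈ K

namespace NZ

/-- The cubical cone on the clique complex of a graph. -/
def cone {V : Type} (Γ : SimpleGraph V) : Set (V → ℝ) :=
  {t | (∀ v, 0 ≤ t v ∧ t v ≤ 1) ∧ ∀ u v, t u ≠ 0 → t v ≠ 0 → u = v ∨ Γ.Adj u v}

/-- The base of the cubical cone. -/
def coneBase {V : Type} (Γ : SimpleGraph V) : Set (V → ℝ) := {t ∈ cone Γ | ∃ v, t v = 1}

/-- The cubical cone retracts onto its base (the clique complex is contractible). -/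
def ConeRetr {V : Type} (Γ : SimpleGraph V) : Prop :=
  ∃ r : (V → ℝ) → (V → ℝ), ContinuousOn r (cone Γ) ∧ MapsTo r (cone Γ) (coneBase Γ) ∧
    ∀ t ∈ coneBase Γ, r t = t

/-- A flat connection with structure group `S₃` on the clique complex with the open triangle
`a b c` removed. Its holonomy round the triangle is an involution fixing `0`, and it has no
parallel section on the part of the graph that misses the triangle. -/
structure Knotted {V : Type} (Γ : SimpleGraph V) (a b c : V)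
    (ρ : V → V → Equiv.Perm (Fin 3)) : Prop where
  ab : Γ.Adj a b
  ac : Γ.Adj a c
  bc : Γ.Adj b c
  refl : ∀ x, ρ x x = 1
  tri : ∀ x y w, (x = y ∨ Γ.Adj x y) → (y = w ∨ Γ.Adj y w) → (x = w ∨ Γ.Adj x w) →
    ((x ≠ a ∧ x ≠ b ∧ x ≠ c) ∨ (y ≠ a ∧ y ≠ b ∧ y ≠ c) ∨ (w ≠ a ∧ w ≠ b ∧ w ≠ c)) →
    ρ y w * ρ x y = ρ x w
  rab : ρ a b = Equiv.swap 1 2
  rba : ρ b a = Equiv.swap 1 2
  rac : ρ a c = 1
  rca : ρ c a = 1
  rbc : ρ b c = 1
  rcb : ρ c b = 1
  nosec : ∀ B : V → Fin 3, ¬ ∀ x y, Γ.Adj x y → (x ≠ a ∧ x ≠ b ∧ x ≠ c) →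
    (y ≠ a ∧ y ≠ b ∧ y ≠ c) → B y = ρ x y (B x)

/-- The coarse obstruction: off a ball that depends only on the scale `S` there are three-sheeted
coverings with a section on arbitrarily large balls but with no section near infinity. -/
def Obstr (G : Type) [Group G] (len : G → ℕ) (T : Set G) : Prop :=
  ∀ S : Set G, S.Finite → T ⊆ S → ∃ R₀ : ℕ, ∀ R₁ : ℕ, ∃ c : G → G → Equiv.Perm (Fin 3),
    (∀ g g' g'', R₀ ≤ len g → R₀ ≤ len g' → R₀ ≤ len g'' → g⁻¹ * g' ∈ S → g'⁻¹ * g'' ∈ S →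
      g⁻¹ * g'' ∈ S → c g' g'' * c g g' = c g g'') ∧
    (∀ g g', len g ≤ R₁ → len g' ≤ R₁ → g⁻¹ * g' ∈ S → c g g' 0 = 0) ∧
    ∀ β : G → Fin 3, ¬ ∀ g, ∀ t ∈ T, R₁ ≤ len g → R₁ ≤ len (g * t) →
      β (g * t) = c g (g * t) (β g)

end NZ

end Pool.Agent.P.MP_f05dbc_gt
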