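import Pool.Agent.P.MP_f05dbc_gt.NZ.Simplex

/-!
A contractible flag complex on 17 vertices with a knotted triangle.
-/

namespace Pool.Agent.P.MP_f05dbc_gt.NZ

/-- The adjacency bit mask of the example. -/
def zsA : ℕ := 0xffc0000000000000405b00000000000020300000000000001029000000000000081800000000000004350000000000000206000000000000012300000000000000b0000000000000005d0000000000000006000000000000001100000000000000080000000000000001000000000000000300000000000000010000000000000000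

/-- The moves that contract the example. -/
def zsL : List (ℕ × ℕ × ℕ) :=
  [(1,8,9), (13,10,16), (3,8,7), (1,8,9), (4,9,5), (6,13,16), (8,5,9), (14,6,16), (4,7,8),
   (6,14,16), (4,6,15), (7,5,0), (2,12,11), (10,13,16), (1,12,2), (8,1,9), (9,2,1), (13,6,16),
   (12,1,2), (10,13,16), (4,6,15), (7,5,0), (1,10,2), (1,8,9), (8,6,16), (1,14,15), (6,8,16),
   (12,2,11), (14,1,15), (4,6,15), (7,1,2), (6,2,7), (14,10,16), (10,6,16), (10,14,13),
   (12,2,11), (10,15,16), (13,10,16), (7,2,1), (14,6,15), (10,15,16), (6,10,16), (2,12,11),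
   (15,16,6), (10,0,2), (4,6,15), (11,2,0), (2,9,0), (1,2,0), (1,9,0), (2,10,0), (13,1,0),
   (13,2,0), (1,13,0), (5,8,9), (1,8,7), (8,5,9), (13,2,0), (6,8,7), (6,7,8), (1,16,8),
   (12,15,3), (16,1,8), (7,15,0), (13,2,0), (15,2,0), (1,2,15), (15,7,0), (2,15,0), (16,7,8),
   (2,6,1), (12,10,11), (8,5,9), (10,5,0), (11,0,5), (8,5,9), (12,15,4), (6,11,16), (7,12,3),
   (6,9,16), (10,2,0), (0,9,10), (10,1,0), (12,6,16), (8,16,9), (2,10,0), (12,10,16), (2,5,0),
   (2,13,0), (9,0,10), (7,12,3), (3,11,12), (2,5,0), (8,5,9), (3,11,12), (6,11,16), (1,10,0),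
   (10,6,16), (2,7,0), (0,10,5), (10,6,9), (6,2,1), (11,6,12), (2,0,7), (12,6,11), (16,15,6),
   (2,7,1), (14,1,15), (15,16,6), (3,11,4), (15,6,1), (7,14,1), (2,6,1), (6,10,16), (1,2,6),
   (11,3,12), (9,0,5), (8,2,6), (4,2,8), (16,9,10), (12,15,3), (10,16,6), (9,16,6), (12,8,3),
   (4,9,5), (12,8,3), (10,1,6), (4,10,5), (7,16,14), (10,7,1), (10,12,11), (5,0,13),
   (16,7,14), (16,9,6), (4,9,5), (4,2,8), (12,9,4), (12,10,4), (14,7,1), (16,2,6), (4,0,3),
   (9,5,4), (13,0,3), (13,3,12), (10,7,1), (2,8,6), (12,8,4), (10,5,11), (9,2,6), (15,12,3),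
   (10,1,6), (8,5,4), (12,3,8), (9,15,4), (3,5,4), (10,3,4), (2,9,6), (13,5,14), (16,2,6),
   (12,13,16), (14,2,6), (4,7,3), (5,14,4), (7,4,3), (9,15,4), (13,14,16), (0,4,3), (6,2,14),
   (12,16,11), (10,1,6), (3,10,4), (16,5,11), (12,5,4), (0,8,7), (12,11,4), (5,16,11),
   (14,4,15), (7,4,8), (11,7,4), (15,6,14), (11,5,4), (9,12,4), (8,0,7), (11,7,4), (3,8,4),
   (4,15,3), (5,3,4), (3,6,15), (16,11,6), (4,3,7), (3,6,15), (1,10,6), (16,14,6), (8,15,6),
   (4,11,10), (11,10,6), (16,8,6), (1,14,15), (12,6,8), (8,10,9), (14,15,6), (6,9,8),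
   (3,6,15), (9,7,4), (6,16,8), (8,11,6), (1,6,8), (7,10,4), (12,14,6), (3,7,0), (10,4,8),
   (0,7,1), (1,0,15), (1,15,8), (15,0,3), (12,5,4), (12,14,6), (9,8,7), (7,1,8), (8,11,6),
   (9,10,7), (10,6,8), (3,15,6), (6,12,8), (1,12,8), (6,15,8), (12,1,8), (16,7,8), (8,12,4),
   (9,8,4), (16,9,8), (8,9,7), (7,10,8), (9,8,7), (8,13,16), (6,9,8), (16,7,8), (7,9,8),
   (9,13,8), (7,12,4), (7,1,8), (8,16,13), (12,4,7), (9,16,13), (6,2,14), (4,9,8), (4,8,7),
   (6,9,8), (13,6,8), (2,14,6), (15,6,8), (13,6,8), (6,15,8), (13,9,8), (8,7,1), (0,6,3),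
   (0,2,6), (0,8,6), (0,11,6), (0,14,6), (0,1,8), (0,9,8), (0,10,8), (0,13,8), (0,15,8),
   (0,7,1), (0,16,13), (0,4,7), (0,12,7), (0,5,4)]

/-- The six permutations of three sheets. -/
def zsP : ℕ → Equiv.Perm (Fin 3)
  | 1 => Equiv.swap 1 2
  | 2 => Equiv.swap 0 1
  | 3 => Equiv.swap 0 2
  | 4 => Equiv.swap 0 2 * Equiv.swap 0 1
  | 5 => Equiv.swap 0 1 * Equiv.swap 0 2
  | _ => 1

/-- The connection of the example. -/
def zsRho (x y : Fin 17) : Equiv.Perm (Fin 3) :=
  zsP (0x901000000000900000000000105020000000005a00000000005a28a00000000005a00000000080150000000012000000000000488200000000001200b44090000000b44802400000144800080000a00024009000001000900200008028810200808 >>> (3 * (17 * x.1 + y.1)) % 8)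

lemma zs_tri : ∀ x y w : Fin 17, (x == y || zsAdj zsA x y) = true →
    (y == w || zsAdj zsA y w) = true → (x == w || zsAdj zsA x w) = true →
    2 < max x.1 (max y.1 w.1) → zsRho y w * zsRho x y = zsRho x w := by
  decide +kernel

theorem exists_knotted : ∃ (n : ℕ) (Γ : SimpleGraph (Fin n)) (a b c : Fin n)
    (ρ : Fin n → Fin n → Equiv.Perm (Fin 3)), ConeRetr Γ ∧ Knotted Γ a b c ρ := by
  refine ⟨17, zsGr 17 zsA, 0, 1, 2, zsRho,
    coneRetr_of_zsW (zsW_of_run (by norm_num) (by norm_num) zsL zsA (by decide +kernel)),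
    by decide +kernel, by decide +kernel, by decide +kernel, by decide +kernel,
    fun x y w h1 h2 h3 h4 => ?_, by decide +kernel, by decide +kernel, by decide +kernel,
    by decide +kernel, by decide +kernel, by decide +kernel, fun B h => ?_⟩
  · refine zs_tri x y w (by simpa [zsGr] using h1) (by simpa [zsGr] using h2)
      (by simpa [zsGr] using h3) ?_
    simp only [ne_eq, Fin.ext_iff, Fin.val_zero, Fin.val_one, Fin.val_two] at h4
    omega
  have e0 := h 3 4 (by decide +kernel) (by decide) (by decide)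
  have e1 := h 4 5 (by decide +kernel) (by decide) (by decide)
  have e2 := h 5 13 (by decide +kernel) (by decide) (by decide)
  have e3 := h 13 3 (by decide +kernel) (by decide) (by decide)
  have e : ∀ β : Fin 3,
      zsRho 13 3 (zsRho 5 13 (zsRho 4 5 (zsRho 3 4 β))) ≠ β := by
    decide +kernel
  exact e (B 3) (by rw [← e0, ← e1, ← e2, ← e3])

end Pool.Agent.P.MP_f05dbc_gt.NZ
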