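import Pool.Agent.P.MP_f05dbc_gt.NZ.Cube
import Pool.Agent.P.MP_f05dbc_gt.NZ.Cells

/-!
The slab of the cube complex is a finite model for the Bestvina-Brady group once it is
contractible.
-/

namespace Pool.Agent.P.MP_f05dbc_gt.NZ

open Set Topology Metric Filter

variable {V : Type} [Fintype V] {Γ : SimpleGraph V}

variable (Γ) in
/-- The slab. -/
abbrev Slab : Type := ↥(sk (W0 Γ))

lemma smul_mem_slab (g : BB Γ) {x : Cx Γ} (hx : x ∈ sk (W0 Γ)) : (g : RA Γ) • x ∈ sk (W0 Γ) := by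
  intro k hk
  have h1 := hx (mem_vert_smul.1 hk)
  have h2 : ht (g : RA Γ) = 0 := mem_BB.1 g.2
  simpa [W0, h2] using h1

noncomputable instance : MulAction (BB Γ) (Slab Γ) where
  smul g x := ⟨(g : RA Γ) • x.1, smul_mem_slab g x.2⟩
  one_smul x := Subtype.ext (one_smul (RA Γ) x.1)
  mul_smul g h x := Subtype.ext (mul_smul (g : RA Γ) (h : RA Γ) x.1)

lemma slab_smul_val (g : BB Γ) (x : Slab Γ) : (g • x).1 = (g : RA Γ) • x.1 := rfl

instance : ContinuousConstSMul (BB Γ) (Slab Γ) where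
  continuous_const_smul g :=
    ((continuous_const_smul (g : RA Γ)).comp continuous_subtype_val).subtype_mk _

instance : IsCancelSMul (BB Γ) (Slab Γ) where
  right_cancel' a b c h := by
    have h1 : (a : RA Γ) * c.1.g = (b : RA Γ) * c.1.g := congrArg (fun x : Slab Γ => x.1.g) h
    exact Subtype.ext (mul_right_cancel h1)

instance : LocallyCompactSpace (Slab Γ) := (isClosed_sk _).locallyCompactSpace

lemma exists_finite_stars {K : Set (Cx Γ)} (hK : IsCompact K) :
    ∃ F : Finset (RA Γ), ∀ x ∈ K, ∃ k ∈ F, k ∈ vert x := by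
  obtain ⟨F, hF⟩ := hK.elim_finite_subcover (fun k : RA Γ => {x : Cx Γ | k ∈ vert x}) isOpen_star
    fun x _ => mem_iUnion.2 ⟨x.g, g_mem_vert x⟩
  refine ⟨F, fun x hx => ?_⟩
  obtain ⟨k, hk, h⟩ := mem_iUnion₂.1 (hF hx)
  exact ⟨k, hk, h⟩

instance : ProperlyDiscontinuousSMul (BB Γ) (Slab Γ) where
  finite_disjoint_inter_image {K L} hK hL := by
    obtain ⟨F, hF⟩ := exists_finite_stars (hK.image continuous_subtype_val)
    obtain ⟨F', hF'⟩ := exists_finite_stars (hL.image continuous_subtype_val)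
    have hfin := ((F.finite_toSet.prod F'.finite_toSet).prod
      (finite_ball (Γ := Γ) (Fintype.card V))).image
        fun p : (RA Γ × RA Γ) × RA Γ => p.1.2 * p.2⁻¹ * p.1.1⁻¹
    refine (hfin.preimage (Subtype.val_injective (p := fun g => g ∈ BB Γ)).injOn).subset ?_
    rintro g ⟨_, ⟨x, hx, rfl⟩, hy⟩
    obtain ⟨k, hk, h1⟩ := hF _ ⟨x, hx, rfl⟩
    obtain ⟨k', hk', h2⟩ := hF' _ ⟨_, hy, rfl⟩
    have h3 : (g : RA Γ) * k ∈ vert ((g : RA Γ) • x.1) := mem_vert_smul.2 (by simpa using h1)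
    exact ⟨((k, k'), ((g : RA Γ) * k)⁻¹ * k'), ⟨⟨hk, hk'⟩, len_le_of_vert h3 h2⟩, by
      simp only; group⟩

lemma PtContr.contractible {E : Type} [TopologicalSpace E] (h : PtContr E) :
    ContractibleSpace E := by
  obtain ⟨e, H, h0, h1, -⟩ := h
  rw [contractible_iff_id_nullhomotopic]
  refine ⟨e, ContinuousMap.Homotopic.symm ⟨⟨⟨fun p => H (p.2, p.1), by fun_prop⟩, ?_, ?_⟩⟩⟩
  · exact fun x => h0 x
  · exact fun x => h1 x

/-- Clamp a real number to the unit interval. -/
noncomputable def clamp (s : ℝ) : ℝ := max 0 (min 1 ((s + 1) / 2))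

lemma clamp_nonneg (s : ℝ) : 0 ≤ clamp s := le_max_left _ _

lemma clamp_le (s : ℝ) : clamp s ≤ 1 := max_le zero_le_one (min_le_left _ _)

lemma clamp_of_lt {s : ℝ} (h : |s| < 1) : clamp s = (s + 1) / 2 := by
  have := abs_lt.1 h
  rw [clamp, min_eq_right (by linarith), max_eq_right (by linarith)]

lemma fract_clamp {s : ℝ} (h : 1 ≤ |s|) : Int.fract (clamp s) = 0 := by
  rcases le_abs'.1 h with h | h
  · rw [clamp, min_eq_right (by linarith), max_eq_left (by linarith), Int.fract_zero]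
  · rw [clamp, min_eq_left (by linarith), max_eq_right zero_le_one, Int.fract_one]

lemma continuous_clamp : Continuous clamp := by unfold clamp; fun_prop

variable (Γ) in
/-- Orbits of cubes of dimension `n` in the slab: height of the lowest vertex and directions. -/
def Cell (n : ℕ) : Type :=
  {p : Fin (Fintype.card V + 1) × Finset V //
    (∀ u ∈ p.2, ∀ v ∈ p.2, Near Γ u v) ∧ p.2.card = n ∧ p.1 + n ≤ Fintype.card V}

instance (n : ℕ) : Finite (Cell Γ n) := by unfold Cell; infer_instance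

/-- A vertex of given height. -/
noncomputable def base (j : Fin (Fintype.card V + 1)) : RA Γ := Function.invFun ht ((j : ℕ) : ℤ)

lemma ht_base (j : Fin (Fintype.card V + 1)) : ht (base j : RA Γ) = (j : ℕ) := by
  refine Function.invFun_eq ?_
  rcases isEmpty_or_nonempty V with h | ⟨⟨v⟩⟩
  · have h1 := j.2
    have h2 : Fintype.card V = 0 := Fintype.card_eq_zero
    exact ⟨1, by rw [ht_one]; omega⟩
  · exact ⟨gen v ^ ((j : ℕ) : ℤ), ht_zpow _ _⟩

open Classical in
/-- Coordinates on a cube. -/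
noncomputable def emb {n : ℕ} (i : Cell Γ n) (y : Fin n → ℝ) (v : V) : ℝ :=
  if hv : v ∈ i.1.2 then clamp (y (Finset.equivFinOfCardEq i.2.2.1 ⟨v, hv⟩)) else 0

section

variable {n : ℕ} (i : Cell Γ n) (y : Fin n → ℝ)

lemma emb_of_mem {v : V} (hv : v ∈ i.1.2) :
    emb i y v = clamp (y (Finset.equivFinOfCardEq i.2.2.1 ⟨v, hv⟩)) := by simp [emb, hv]

lemma emb_of_not_mem {v : V} (hv : v ∉ i.1.2) : emb i y v = 0 := by simp [emb, hv]

lemma mem_of_emb {v : V} (hv : emb i y v ≠ 0) : v ∈ i.1.2 := by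
  by_contra h
  exact hv (emb_of_not_mem i y h)

lemma emb_nonneg (v : V) : 0 ≤ emb i y v := by
  by_cases hv : v ∈ i.1.2
  · rw [emb_of_mem i y hv]; exact clamp_nonneg _
  · rw [emb_of_not_mem i y hv]

lemma emb_le (v : V) : emb i y v ≤ 1 := by
  by_cases hv : v ∈ i.1.2
  · rw [emb_of_mem i y hv]; exact clamp_le _
  · rw [emb_of_not_mem i y hv]; exact zero_le_one

lemma clq_emb : Clq Γ (emb i y) := fun u v hu hv =>
  i.2.1 u (mem_of_emb i y hu) v (mem_of_emb i y hv)

lemma continuous_emb : Continuous (emb i) := by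
  refine continuous_pi fun v => ?_
  by_cases hv : v ∈ i.1.2
  · simp only [emb_of_mem i _ hv]
    exact continuous_clamp.comp (continuous_apply _)
  · simp only [emb_of_not_mem i _ hv]
    exact continuous_const

lemma ch_emb_mem : ch (base i.1.1) (emb i y) ∈ sk (W0 Γ) := by
  classical
  intro k hk
  obtain ⟨m, hm, rfl⟩ := mem_vert_ch (clq_emb i y) hk
  have h1 : ∀ v, 0 ≤ m v ∧ m v ≤ if v ∈ i.1.2 then 1 else 0 := by
    intro v
    have h2 := abs_lt.1 (hm v)
    have h3 := emb_nonneg i y v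
    have h4 := emb_le i y v
    have h5 : (-1 : ℤ) < m v := by exact_mod_cast (by linarith : (-1 : ℝ) < m v)
    refine ⟨by omega, ?_⟩
    split_ifs with hv
    · have h6 : m v < 2 := by exact_mod_cast (by linarith : (m v : ℝ) < 2)
      omega
    · rw [emb_of_not_mem i y hv] at h2
      have h6 : m v < 1 := by exact_mod_cast (by linarith : (m v : ℝ) < 1)
      omega
  have h2 : 0 ≤ ∑ v, m v := Finset.sum_nonneg fun v _ => (h1 v).1
  have h3 : ∑ v, m v ≤ ∑ v, if v ∈ i.1.2 then 1 else 0 := Finset.sum_le_sum fun v _ => (h1 v).2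
  have h4 : (∑ v, if v ∈ i.1.2 then (1 : ℤ) else 0) = n := by simp [i.2.2.1]
  have h5 := i.2.2.2
  simp only [W0, mem_ofPred_eq, ht_mul, ht_mono, ht_base]
  omega

/-- The characteristic map of a cube. -/
noncomputable def cmap : Slab Γ := ⟨ch (base i.1.1) (emb i y), ch_emb_mem i y⟩

lemma continuous_cmap : Continuous (cmap i) :=
  ((continuousOn_ch _).comp_continuous (continuous_emb i) (clq_emb i)).subtype_mk _

variable {y}

lemma emb_of_ball (hy : y ∈ ball (0 : Fin n → ℝ) 1) {v : V} (hv : v ∈ i.1.2) :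
    emb i y v = (y (Finset.equivFinOfCardEq i.2.2.1 ⟨v, hv⟩) + 1) / 2 ∧
      0 < emb i y v ∧ emb i y v < 1 := by
  have h1 := (pi_norm_lt_iff one_pos).1 (mem_ball_zero_iff.1 hy)
    (Finset.equivFinOfCardEq i.2.2.1 ⟨v, hv⟩)
  rw [Real.norm_eq_abs] at h1
  have h2 := abs_lt.1 h1
  rw [emb_of_mem i y hv, clamp_of_lt h1]
  exact ⟨rfl, by linarith, by linarith⟩

lemma cmap_of_ball (hy : y ∈ ball (0 : Fin n → ℝ) 1) :
    (cmap i y).1.g = base i.1.1 ∧ (cmap i y).1.t = emb i y := by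
  have h1 : ∀ v, emb i y v < 1 := by
    intro v
    by_cases hv : v ∈ i.1.2
    · exact (emb_of_ball i hy hv).2.2
    · rw [emb_of_not_mem i y hv]; exact one_pos
  have h2 : (cmap i y).1 = ⟨base i.1.1, emb i y, emb_nonneg i y, h1, clq_emb i y⟩ :=
    ch_self ⟨base i.1.1, emb i y, emb_nonneg i y, h1, clq_emb i y⟩
  rw [h2]
  exact ⟨rfl, rfl⟩

end

open Classical in
/-- The directions of the smallest cube that contains a point. -/
noncomputable def supp (x : Cx Γ) : Finset V := Finset.univ.filter fun v => x.t v ≠ 0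

lemma mem_supp {x : Cx Γ} {v : V} : v ∈ supp x ↔ x.t v ≠ 0 := by simp [supp]

lemma ht_bounds (x : Slab Γ) :
    0 ≤ ht x.1.g ∧ ht x.1.g + (supp x.1).card ≤ Fintype.card V := by
  classical
  refine ⟨(x.2 (g_mem_vert x.1)).1, ?_⟩
  have h1 := mul_mono_mem_vert x.1.clq x.1.g (n := fun v => if v ∈ supp x.1 then 1 else 0) (by
    intro v
    have h2 := x.1.lo v
    have h3 := x.1.hi v
    split_ifs with hv
    · have h4 := lt_of_le_of_ne h2 (mem_supp.1 hv).symm
      rw [abs_lt]; constructor <;> push_cast <;> linarith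
    · rw [abs_lt]; constructor <;> push_cast <;> linarith)
  rw [ch_self] at h1
  have h2 := (x.2 h1).2
  rw [ht_mul, ht_mono] at h2
  simpa using h2

lemma exists_cell (x : Slab Γ) : ∃ (g : BB Γ) (i : Cell Γ (supp x.1).card),
    ∃ y ∈ ball (0 : Fin (supp x.1).card → ℝ) 1, g • cmap i y = x := by
  obtain ⟨h1, h2⟩ := ht_bounds x
  let i : Cell Γ (supp x.1).card := ⟨(⟨(ht x.1.g).toNat, by omega⟩, supp x.1),
    fun u hu v hv => x.1.clq u v (mem_supp.1 hu) (mem_supp.1 hv), rfl, by simp only; omega⟩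
  let y : Fin (supp x.1).card → ℝ := fun a =>
    2 * x.1.t ((Finset.equivFinOfCardEq i.2.2.1).symm a).1 - 1
  have hy : y ∈ ball (0 : Fin (supp x.1).card → ℝ) 1 := by
    rw [mem_ball_zero_iff, pi_norm_lt_iff one_pos]
    intro a
    have h3 := x.1.hi ((Finset.equivFinOfCardEq i.2.2.1).symm a).1
    have h4 := lt_of_le_of_ne (x.1.lo _)
      (mem_supp.1 ((Finset.equivFinOfCardEq i.2.2.1).symm a).2).symm
    rw [Real.norm_eq_abs, abs_lt]
    constructor <;> simp only [y] <;> linarith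
  obtain ⟨h3, h4⟩ := cmap_of_ball i hy
  refine ⟨⟨x.1.g * (base i.1.1)⁻¹, mem_BB.2 ?_⟩, i, y, hy, Subtype.ext (Cx.ext ?_ ?_)⟩
  · rw [ht_mul, ht_inv, ht_base]
    simp only [i]
    omega
  · rw [slab_smul_val, smul_g, h3]; simp
  · rw [slab_smul_val, smul_t, h4]
    funext v
    by_cases hv : v ∈ i.1.2
    · rw [(emb_of_ball i hy hv).1]
      simp [y]
    · rw [emb_of_not_mem i y hv]
      by_contra h5
      exact hv (mem_supp.2 (Ne.symm h5))

theorem typeF_BB (h : PtContr ↥(sk (W0 Γ))) : TypeF (BB Γ) := by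
  classical
  have := h.contractible
  refine typeF_of_cells (E := Slab Γ) (Cell Γ) inferInstance ?_ (fun _ i y => cmap i y)
    (fun _ i => continuous_cmap i) ?_ ?_ ?_
  · filter_upwards [eventually_gt_atTop (Fintype.card V)] with n hn
    exact ⟨fun i => by have := i.2.2.2; omega⟩
  · intro x
    obtain ⟨g, i, y, hy, h1⟩ := exists_cell x
    exact ⟨g, _, i, y, hy, h1⟩
  · intro g n m i j y y' hy hy' h1
    obtain ⟨h2, h3⟩ := cmap_of_ball i hy
    obtain ⟨h4, h5⟩ := cmap_of_ball j hy'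
    have h6 : (g : RA Γ) * base i.1.1 = base j.1.1 := by
      rw [← h2, ← h4]; exact congrArg (fun x : Slab Γ => x.1.g) h1
    have h7 : emb i y = emb j y' := by
      have h8 := congrArg (fun x : Slab Γ => x.1.t) h1
      simp only [slab_smul_val, smul_t] at h8
      rw [← h3, ← h5, h8]
    have h8 : i.1.1 = j.1.1 := by
      have h9 := congrArg ht h6
      rw [ht_mul, mem_BB.1 g.2, ht_base, ht_base] at h9
      ext; omega
    have h9 : i.1.2 = j.1.2 := by
      ext v
      constructor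
      · intro hv
        exact mem_of_emb j y' (h7 ▸ (emb_of_ball i hy hv).2.1.ne')
      · intro hv
        exact mem_of_emb i y (h7 ▸ (emb_of_ball j hy' hv).2.1.ne')
    obtain rfl : n = m := by rw [← i.2.2.1, ← j.2.2.1, h9]
    obtain rfl : i = j := Subtype.ext (Prod.ext h8 h9)
    obtain rfl : y = y' := by
      funext a
      obtain ⟨⟨v, hv⟩, rfl⟩ := (Finset.equivFinOfCardEq i.2.2.1).surjective a
      have h10 := congrFun h7 v
      rw [(emb_of_ball i hy hv).1, (emb_of_ball i hy' hv).1] at h10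
      linarith
    rfl
  · intro n i y hy
    obtain ⟨g, j, y', hy', h1⟩ := exists_cell (cmap i y)
    refine ⟨g, _, ?_, j, y', hy', h1⟩
    obtain ⟨a, ha⟩ : ∃ a, 1 ≤ |y a| := by
      by_contra h2
      push Not at h2
      have h3 : ‖y‖ < 1 := (pi_norm_lt_iff one_pos).2 h2
      exact h3.ne (mem_sphere_zero_iff_norm.1 hy)
    obtain ⟨⟨v, hv⟩, rfl⟩ := (Finset.equivFinOfCardEq i.2.2.1).surjective a
    have h2 : (cmap i y).1.t = fun u => Int.fract (emb i y u) := ch_t (clq_emb i y)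
    refine lt_of_lt_of_eq
      (Finset.card_lt_card ⟨fun u hu => mem_of_emb i y fun h3 => ?_, fun h3 => ?_⟩) i.2.2.1
    · exact mem_supp.1 hu (by rw [h2]; simp [h3])
    · exact mem_supp.1 (h3 hv) (by rw [h2]; simp only; rw [emb_of_mem i y hv, fract_clamp ha])

end Pool.Agent.P.MP_f05dbc_gt.NZ
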