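import Pool.Agent.P.MP_f05dbc_gt.NZ.Defs

/-!
A group with the coarse obstruction `Obstr` has no weak Z-structure.
-/

namespace Pool.Agent.P.MP_f05dbc_gt.NZ

open Set Topology Metric Filter unitInterval

/-- Transport of a section of a three-sheeted covering, given by a locally constant cocycle, along
a homotopy. -/
theorem exists_section {B N ι : Type} [TopologicalSpace B] [TopologicalSpace N]
    (V : ι → Set B) (hV : ∀ i, IsOpen (V i)) (hcov : ∀ y, ∃ i, y ∈ V i)
    (c : ι → ι → Equiv.Perm (Fin 3))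
    (hc : ∀ i j k y, y ∈ V i → y ∈ V j → y ∈ V k → c j k * c i j = c i k)
    (H : C(I × N, B)) (h0 : ∀ y i j, H (0, y) ∈ V i → H (0, y) ∈ V j → c i j 0 = 0) :
    ∃ s : ι → N → Fin 3, (∀ i, ContinuousOn (s i) {y | H (1, y) ∈ V i}) ∧
      ∀ i j y, H (1, y) ∈ V i → H (1, y) ∈ V j → s j y = c i j (s i y) := by
  choose idx hidx using hcov
  have hself : ∀ i y, y ∈ V i → c i i = 1 := fun i y hy => by
    have h := hc i i i y hy hy hy
    exact mul_left_cancel (a := c i i) (by rw [h, mul_one])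
  let Z : FiberBundleCore ι B (Fin 3) :=
    { baseSet := V
      isOpen_baseSet := hV
      indexAt := idx
      mem_baseSet_at := hidx
      coordChange := fun i j _ v => c i j v
      coordChange_self := fun i x hx v => by rw [hself i x hx]; rfl
      continuousOn_coordChange := fun i j =>
        ((continuous_of_discreteTopology (f := fun v : Fin 3 => c i j v)).comp
          continuous_snd).continuousOn
      coordChange_comp := fun i j k x hx v => by
        have h := hc i j k x hx.1.1 hx.1.2 hx.2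
        rw [← h]; rfl }
  have hcovmap : IsCoveringMap Z.proj :=
    IsFiberBundle.isCoveringMap (F := Fin 3) fun x => ⟨Z.localTriv (idx x), hidx x⟩
  have hH0 : Continuous fun y : N => H (0, y) := H.continuous.comp (Continuous.prodMk_right 0)
  have hH1 : Continuous fun y : N => H (1, y) := H.continuous.comp (Continuous.prodMk_right 1)
  have hf : Continuous fun y : N => (⟨H (0, y), (0 : Fin 3)⟩ : Z.TotalSpace) := by
    refine continuous_iff_continuousAt.2 fun y => ?_
    have A : (fun y : N => H (0, y)) ⁻¹' V (idx (H (0, y))) ∈ 𝓝 y :=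
      hH0.continuousAt.preimage_mem_nhds ((hV _).mem_nhds (hidx _))
    refine ((Z.localTriv (idx (H (0, y)))).toOpenPartialHomeomorph.continuousAt_iff_continuousAt_comp_left
      ?_).2 ?_
    · exact A
    · have hcont : ContinuousAt (fun y' : N => (H (0, y'), (0 : Fin 3))) y :=
        hH0.continuousAt.prodMk continuousAt_const
      refine hcont.congr ?_
      filter_upwards [A] with y' hy'
      have : c (idx (H (0, y'))) (idx (H (0, y))) 0 = 0 := h0 y' _ _ (hidx _) hy'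
      exact Prod.ext rfl this.symm
  let L := hcovmap.liftHomotopy H ⟨_, hf⟩ (fun _ => rfl)
  have hL : ∀ y, (L (1, y)).1 = H (1, y) := fun y =>
    congr_fun (hcovmap.liftHomotopy_lifts H ⟨_, hf⟩ (fun _ => rfl)) (1, y)
  have hLc : Continuous fun y : N => L (1, y) := L.continuous.comp (Continuous.prodMk_right 1)
  refine ⟨fun i y => (Z.localTriv i (L (1, y))).2, fun i => ?_, fun i j y hi hj => ?_⟩
  · refine continuous_snd.comp_continuousOn
      ((Z.localTriv i).continuousOn.comp hLc.continuousOn fun y hy => ?_)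
    change (L (1, y)).1 ∈ V i
    rw [hL]; exact hy
  · change c (idx (L (1, y)).1) j (L (1, y)).2 = c i j (c (idx (L (1, y)).1) i (L (1, y)).2)
    have h := hc (idx (L (1, y)).1) i j (L (1, y)).1 (hidx _) (by rw [hL]; exact hi)
      (by rw [hL]; exact hj)
    rw [← h]; rfl

/-- The complement of a large compact set can be pulled into a compact set without meeting a
given compact set. -/
def Tame (Y : Type) [TopologicalSpace Y] : Prop :=
  ∀ C : Set Y, IsCompact C → ∃ D K : Set Y, IsCompact D ∧ IsCompact K ∧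
    ∃ H : C(I × ↥Dᶜ, Y), (∀ p, H p ∉ C) ∧ (∀ y, H (0, y) ∈ K) ∧ ∀ y, H (1, y) = y

theorem track_not_mem {X : Type} [TopologicalSpace X] {Z : Set X} (α : C(X × I, X))
    (h0 : ∀ x, α (x, 0) = x) (h1 : ∀ x t, 0 < t → α (x, t) ∉ Z) {x : X} (hx : x ∉ Z) (t : I) :
    α (x, t) ∉ Z := by
  rcases eq_or_lt_of_le (show (0 : I) ≤ t from t.2.1) with h | h
  · rw [← h, h0]; exact hx
  · exact h1 x t h

theorem tame_of_isZSet {X : Type} [TopologicalSpace X] [CompactSpace X] [T2Space X] {Z : Set X}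
    (hZ : IsZSet Z) : Tame ↥Zᶜ := by
  obtain ⟨hcl, α, h0, h1⟩ := hZ
  have hop : IsOpen Zᶜ := hcl.isOpen_compl
  have : LocallyCompactSpace ↥Zᶜ := hop.locallyCompactSpace
  intro C hC
  obtain ⟨D, hD, hCD⟩ := exists_compact_superset hC
  have hO : IsOpen (Subtype.val '' interior D : Set X) :=
    hop.isOpenMap_subtype_val _ isOpen_interior
  have hA : IsCompact (Subtype.val '' interior D : Set X)ᶜ := hO.isClosed_compl.isCompact
  have hC' : IsClosed (Subtype.val '' C : Set X) := (hC.image continuous_subtype_val).isClosed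
  have hW : IsOpen (α ⁻¹' (Subtype.val '' C : Set X)ᶜ) := hC'.isOpen_compl.preimage α.continuous
  obtain ⟨u, v, -, hv, hAu, h0v, huv⟩ := generalized_tube_lemma hA (isCompact_singleton (x := (0 : I)))
    hW (by
      rintro ⟨x, t⟩ ⟨hx, ht⟩
      obtain rfl : t = 0 := ht
      intro hmem
      rw [h0] at hmem
      exact hx (image_mono hCD hmem))
  obtain ⟨ε, hε, hball⟩ := Metric.isOpen_iff.1 hv 0 (h0v rfl)
  let t₀ : I := ⟨min (ε / 2) 1, by positivity, min_le_right _ _⟩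
  have ht₀ : 0 < t₀ := by
    change (0 : ℝ) < min (ε / 2) 1
    positivity
  have hmem : ∀ s : I, σ s * t₀ ∈ v := fun s => by
    apply hball
    rw [mem_ball, Subtype.dist_eq, Real.dist_eq]
    have h2 : ((σ s * t₀ : I) : ℝ) ≤ t₀ := unitInterval.mul_le_right
    have h3 : (0 : ℝ) ≤ ((σ s * t₀ : I) : ℝ) := (σ s * t₀).2.1
    have h4 : (t₀ : ℝ) ≤ ε / 2 := min_le_left _ _
    rw [show ((0 : I) : ℝ) = 0 from rfl, sub_zero, abs_of_nonneg h3]
    linarith
  have hmul : Continuous fun s : I => σ s * t₀ := by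
    refine Continuous.subtype_mk ?_ _
    exact (continuous_subtype_val.comp continuous_symm).mul continuous_const
  let k : X → ↥Zᶜ := fun x => ⟨α (x, t₀), h1 x t₀ ht₀⟩
  have hk : Continuous k :=
    (α.continuous.comp (Continuous.prodMk_left t₀)).subtype_mk _
  refine ⟨D, range k, hD, isCompact_range hk,
    ⟨fun p => ⟨α (p.2.1.1, σ p.1 * t₀), track_not_mem α h0 h1 p.2.1.2 _⟩, ?_⟩, ?_, ?_, ?_⟩
  · refine Continuous.subtype_mk (α.continuous.comp ?_) _
    exact ((continuous_subtype_val.comp continuous_subtype_val).comp continuous_snd).prodMk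
      (hmul.comp continuous_fst)
  · rintro ⟨s, y⟩ hp
    have hy : (y.1.1 : X) ∈ (Subtype.val '' interior D : Set X)ᶜ := by
      rintro ⟨z, hz, hzy⟩
      have : z = y.1 := Subtype.ext hzy
      exact y.2 (this ▸ interior_subset hz)
    exact huv (mk_mem_prod (hAu hy) (hmem s)) ⟨_, hp, rfl⟩
  · intro y
    refine ⟨y.1.1, Subtype.ext ?_⟩
    change α (y.1.1, t₀) = α (y.1.1, σ 0 * t₀)
    rw [symm_zero, one_mul]
  · intro y
    refine Subtype.ext ?_
    change α (y.1.1, σ 1 * t₀) = y.1.1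
    rw [symm_one, zero_mul, h0]

theorem pathConnected_of_isZSet {X : Type} [TopologicalSpace X] [ContractibleSpace X] {Z : Set X}
    (hZ : IsZSet Z) : PathConnectedSpace ↥Zᶜ := by
  obtain ⟨-, α, h0, h1⟩ := hZ
  have htrack : ∀ x, x ∉ Z → JoinedIn Zᶜ x (α (x, 1)) := fun x hx =>
    ⟨⟨⟨fun t => α (x, t), α.continuous.comp (Continuous.prodMk_right x)⟩, h0 x, rfl⟩,
      fun t => track_not_mem α h0 h1 hx t⟩
  have hpush : ∀ x y, JoinedIn Zᶜ (α (x, 1)) (α (y, 1)) := fun x y => by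
    obtain ⟨γ⟩ := PathConnectedSpace.joined x y
    exact ⟨γ.map (f := fun z => α (z, 1)) (α.continuous.comp (Continuous.prodMk_left 1)),
      fun t => h1 _ 1 zero_lt_one⟩
  rw [← isPathConnected_iff_pathConnectedSpace]
  obtain ⟨x⟩ : Nonempty X := inferInstance
  refine ⟨α (x, 1), h1 x 1 zero_lt_one, fun y hy => ?_⟩
  exact (hpush x y).trans (htrack y hy).symm

theorem not_tame {G Y : Type} [Group G] [TopologicalSpace Y] [LocallyCompactSpace Y]
    [PathConnectedSpace Y] (len : G → ℕ) (hfin : ∀ n, {g | len g ≤ n}.Finite)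
    (T : Set G) (hT : T.Finite) (h : Obstr G len T) (a : G →* (Y ≃ₜ Y))
    (hprop : ∀ K L : Set Y, IsCompact K → IsCompact L → {g | (a g '' K ∩ L).Nonempty}.Finite)
    (K₀ : Set Y) (hK₀ : IsCompact K₀) (hcoc : ∀ x, ∃ g, a g x ∈ K₀) : ¬ Tame Y := by
  classical
  intro htame
  have hmul : ∀ g g' y, a (g * g') y = a g (a g' y) := fun g g' y => by rw [map_mul]; rfl
  have hone : ∀ y, a 1 y = y := fun y => by rw [map_one]; rfl
  have hinv : ∀ g y, a g (a g⁻¹ y) = y := fun g y => by rw [← hmul, mul_inv_cancel, hone]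
  have hinv' : ∀ g y, a g⁻¹ (a g y) = y := fun g y => by rw [← hmul, inv_mul_cancel, hone]
  obtain ⟨x₀⟩ : Nonempty Y := inferInstance
  have hγ : ∀ t : G, Nonempty (Path x₀ (a t x₀)) := fun t => PathConnectedSpace.joined _ _
  let γ : ∀ t : G, Path x₀ (a t x₀) := fun t => (hγ t).some
  have hK₁ : IsCompact (K₀ ∪ ⋃ t ∈ T, range (γ t)) :=
    hK₀.union (hT.isCompact_biUnion fun t _ => isCompact_range (γ t).continuous)
  obtain ⟨D₀, hD₀, hsub⟩ := exists_compact_superset hK₁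
  have hγU : ∀ t ∈ T, ∀ u, γ t u ∈ interior D₀ := fun t ht u =>
    hsub (Or.inr (mem_biUnion ht ⟨u, rfl⟩))
  obtain ⟨R₀, hR₀⟩ := h (T ∪ {s | (a s '' D₀ ∩ D₀).Nonempty}) (hT.union (hprop _ _ hD₀ hD₀))
    subset_union_left
  let C : Set Y := ⋃ g ∈ {g | len g ≤ R₀}, a g '' D₀
  have hC : IsCompact C := (hfin R₀).isCompact_biUnion fun g _ => hD₀.image (a g).continuous
  obtain ⟨D, K, hD, hK, H, hHC, hH0, hH1⟩ := htame C hC
  obtain ⟨M, hM⟩ := ((hprop D₀ (D ∪ K) hD₀ (hD.union hK)).image len).bddAbove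
  have hM' : ∀ g y, a g⁻¹ y ∈ D₀ → y ∈ D ∪ K → len g ≤ M := fun g y hy hy' =>
    hM ⟨g, ⟨y, ⟨_, hy, hinv g y⟩, hy'⟩, rfl⟩
  obtain ⟨c, hc1, hc2, hc3⟩ := hR₀ (M + 1)
  let V : G → Set ↥Cᶜ := fun g => {y | a g⁻¹ y.1 ∈ interior D₀}
  have hVo : ∀ g, IsOpen (V g) := fun g =>
    isOpen_interior.preimage ((a g⁻¹).continuous.comp continuous_subtype_val)
  have hVlen : ∀ g y, y ∈ V g → R₀ ≤ len g := fun g y hy => by
    by_contra hlt
    exact y.2 (mem_biUnion (show len g ≤ R₀ by omega) ⟨_, interior_subset hy, hinv g y.1⟩)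
  have hVS : ∀ g g' y, y ∈ V g → y ∈ V g' →
      g⁻¹ * g' ∈ T ∪ {s | (a s '' D₀ ∩ D₀).Nonempty} := fun g g' y hy hy' =>
    Or.inr ⟨a g⁻¹ y.1, ⟨a g'⁻¹ y.1, interior_subset hy', by rw [hmul, hinv]⟩, interior_subset hy⟩
  let H' : C(I × ↥Dᶜ, ↥Cᶜ) := ⟨fun p => ⟨H p, hHC p⟩, H.continuous.subtype_mk _⟩
  obtain ⟨s, hs1, hs2⟩ := exists_section V hVo
    (fun y => by
      obtain ⟨g, hg⟩ := hcoc y.1
      refine ⟨g⁻¹, ?_⟩
      change a g⁻¹⁻¹ y.1 ∈ interior D₀
      rw [inv_inv]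
      exact hsub (Or.inl hg)) c
    (fun i j k y hi hj hk => hc1 i j k (hVlen i y hi) (hVlen j y hj) (hVlen k y hk)
      (hVS i j y hi hj) (hVS j k y hj hk) (hVS i k y hi hk)) H'
    (fun y i j hi hj => hc2 i j
      ((hM' i _ (interior_subset hi) (Or.inr (hH0 y))).trans (Nat.le_succ M))
      ((hM' j _ (interior_subset hj) (Or.inr (hH0 y))).trans (Nat.le_succ M)) (hVS i j _ hi hj))
  refine hc3 (fun g => if hg : a g x₀ ∈ Dᶜ then s g ⟨a g x₀, hg⟩ else 0) fun g t ht hg _ => ?_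
  have hP : ∀ u, a g (γ t u) ∈ Dᶜ := fun u hu => by
    have := hM' g (a g (γ t u)) (by rw [hinv']; exact interior_subset (hγU t ht u)) (Or.inl hu)
    omega
  let P : I → ↥Dᶜ := fun u => ⟨a g (γ t u), hP u⟩
  have hPc : Continuous P := ((a g).continuous.comp (γ t).continuous).subtype_mk _
  have hPV : ∀ u, H' (1, P u) ∈ V g := fun u => by
    change a g⁻¹ (H (1, P u)) ∈ interior D₀
    rw [hH1]
    change a g⁻¹ (a g (γ t u)) ∈ interior D₀
    rw [hinv']
    exact hγU t ht u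
  have hconst : s g (P 0) = s g (P 1) :=
    PreconnectedSpace.constant inferInstance ((hs1 g).comp_continuous hPc hPV)
  have e0 : a g x₀ = a g (γ t 0) := by rw [(γ t).source]
  have e1 : a (g * t) x₀ = a g (γ t 1) := by rw [(γ t).target, hmul]
  have hg0 : a g x₀ ∈ Dᶜ := e0 ▸ hP 0
  have hg1 : a (g * t) x₀ ∈ Dᶜ := e1 ▸ hP 1
  have p0 : (⟨a g x₀, hg0⟩ : ↥Dᶜ) = P 0 := Subtype.ext e0
  have p1 : (⟨a (g * t) x₀, hg1⟩ : ↥Dᶜ) = P 1 := Subtype.ext e1
  have hV1 : H' (1, P 1) ∈ V (g * t) := by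
    change a (g * t)⁻¹ (H (1, P 1)) ∈ interior D₀
    rw [hH1, ← p1]
    change a (g * t)⁻¹ (a (g * t) x₀) ∈ interior D₀
    rw [hinv', ← (γ t).source]
    exact hγU t ht 0
  simp only [dif_pos hg0, dif_pos hg1]
  rw [p0, p1, hconst]
  exact hs2 g (g * t) (P 1) (hPV 1) hV1

theorem not_hasWeakZ {G : Type} [Group G] (len : G → ℕ) (hfin : ∀ n, {g | len g ≤ n}.Finite)
    (T : Set G) (hT : T.Finite) (h : Obstr G len T) : ¬ HasWeakZ G := by
  rintro ⟨X, _, Z, a, hcomp, hmet, hcontr, hZ, hprop, K₀, hK₀, hcoc⟩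
  have : LocallyCompactSpace ↥Zᶜ := hZ.1.isOpen_compl.locallyCompactSpace
  have := pathConnected_of_isZSet hZ
  exact not_tame len hfin T hT h a hprop K₀ hK₀ hcoc (tame_of_isZSet hZ)

end Pool.Agent.P.MP_f05dbc_gt.NZ
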