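import Pool.Agent.P.MP_f05dbc_gt.NZ.Defs

/-!
Right-angled Artin groups: special subgroups, exponents of first letters, word length.
-/

namespace Pool.Agent.P.MP_f05dbc_gt.NZ

open Set

variable {V : Type} (Γ : SimpleGraph V)

/-- Commutation relations. -/
def rels : Set (FreeGroup V) :=
  {r | ∃ u v, Γ.Adj u v ∧ r = FreeGroup.of u * FreeGroup.of v * (FreeGroup.of u)⁻¹ *
    (FreeGroup.of v)⁻¹}

/-- The right-angled Artin group of a graph. -/
def RA : Type := PresentedGroup (rels Γ)

noncomputable instance : Group (RA Γ) := inferInstanceAs (Group (PresentedGroup (rels Γ)))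

variable {Γ}

/-- Standard generator. -/
def gen (v : V) : RA Γ := PresentedGroup.of v

/-- Equal or adjacent. -/
def Near (Γ : SimpleGraph V) (u v : V) : Prop := u = v ∨ Γ.Adj u v

lemma Near.symm {u v : V} (h : Near Γ u v) : Near Γ v u := h.imp Eq.symm Γ.adj_symm

lemma Near.rfl {u : V} : Near Γ u u := Or.inl _root_.rfl

lemma gen_comm {u v : V} (h : Near Γ u v) : Commute (gen u : RA Γ) (gen v) := by
  rcases h with rfl | h
  · exact Commute.refl _
  have h1 : (PresentedGroup.mk (rels Γ) (FreeGroup.of u * FreeGroup.of v * (FreeGroup.of u)⁻¹ *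
      (FreeGroup.of v)⁻¹)) = 1 := PresentedGroup.one_of_mem ⟨u, v, h, rfl⟩
  simp only [map_mul, map_inv] at h1
  have h2 : (gen u : RA Γ) * gen v * (gen u)⁻¹ * (gen v)⁻¹ = 1 := h1
  rw [mul_inv_eq_one, mul_inv_eq_iff_eq_mul] at h2
  exact h2

/-- Homomorphism defined on generators. -/
noncomputable def liftHom {H : Type*} [Group H] (f : V → H)
    (h : ∀ u v, Γ.Adj u v → Commute (f u) (f v)) : RA Γ →* H :=
  PresentedGroup.toGroup (f := f) (rels := rels Γ) (by
    rintro _ ⟨u, v, huv, rfl⟩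
    simp only [map_mul, map_inv, FreeGroup.lift_apply_of]
    rw [(h u v huv).eq]; group)

@[simp] lemma liftHom_gen {H : Type*} [Group H] (f : V → H)
    (h : ∀ u v, Γ.Adj u v → Commute (f u) (f v)) (v : V) : liftHom f h (gen v) = f v :=
  PresentedGroup.toGroup.of _

/-- Sign of a letter. -/
def sg (b : Bool) : ℤ := if b then 1 else -1

@[simp] lemma sg_true : sg true = 1 := rfl
@[simp] lemma sg_false : sg false = -1 := rfl
@[simp] lemma sg_not (b : Bool) : sg (!b) = -sg b := by cases b <;> rfl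
lemma sg_mul_self (b : Bool) : sg b * sg b = 1 := by cases b <;> rfl
lemma abs_sg (b : Bool) : |sg b| = 1 := by cases b <;> rfl

/-- A letter as a group element. -/
noncomputable def lt (x : V × Bool) : RA Γ := gen x.1 ^ sg x.2

/-- A word as a group element. -/
noncomputable def wd (w : List (V × Bool)) : RA Γ := (w.map lt).prod

@[simp] lemma wd_nil : (wd [] : RA Γ) = 1 := rfl
@[simp] lemma wd_cons (x : V × Bool) (w : List (V × Bool)) :
    (wd (x :: w) : RA Γ) = lt x * wd w := by simp [wd]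
@[simp] lemma wd_append (w w' : List (V × Bool)) :
    (wd (w ++ w') : RA Γ) = wd w * wd w' := by simp [wd]

lemma lt_inv (x : V × Bool) : (lt x : RA Γ)⁻¹ = lt (x.1, !x.2) := by simp [lt]

lemma lt_mul_not (x : V × Bool) : (lt x : RA Γ) * lt (x.1, !x.2) = 1 := by
  rw [← lt_inv, mul_inv_cancel]

lemma exists_wd_inv (w : List (V × Bool)) :
    ∃ w' : List (V × Bool), w'.length = w.length ∧ (wd w' : RA Γ) = (wd w)⁻¹ := by
  induction w with
  | nil => exact ⟨[], rfl, by simp⟩
  | cons x w ih =>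
    obtain ⟨w', h1, h2⟩ := ih
    exact ⟨w' ++ [(x.1, !x.2)], by simp [h1], by simp [h2, lt_inv]⟩

lemma wd_surj (g : RA Γ) : ∃ w, wd w = g := by
  have h : g ∈ Subgroup.closure (range (PresentedGroup.of : V → PresentedGroup (rels Γ))) := by
    rw [PresentedGroup.closure_range_of]; trivial
  refine Subgroup.closure_induction (p := fun g _ => ∃ w, (wd w : RA Γ) = g) ?_ ?_ ?_ ?_ h
  · rintro _ ⟨v, rfl⟩
    exact ⟨[(v, true)], by simp [lt]; rfl⟩
  · exact ⟨[], rfl⟩
  · rintro _ _ _ _ ⟨w, rfl⟩ ⟨w', rfl⟩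
    exact ⟨w ++ w', wd_append _ _⟩
  · rintro _ _ ⟨w, rfl⟩
    obtain ⟨w', -, h⟩ := exists_wd_inv (Γ := Γ) w
    exact ⟨w', h⟩

lemma ind_right {P : RA Γ → Prop} (h1 : P 1) (hs : ∀ g x, P g → P (g * lt x)) (g : RA Γ) : P g := by
  obtain ⟨w, rfl⟩ := wd_surj g
  induction w using List.reverseRecOn with
  | nil => exact h1
  | append_singleton w x ih => simpa using hs _ x ih

/-- Special subgroup. -/
noncomputable def sub (S : Set V) : Subgroup (RA Γ) := Subgroup.closure (gen '' S)

lemma gen_mem {S : Set V} {v : V} (h : v ∈ S) : (gen v : RA Γ) ∈ sub S :=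
  Subgroup.subset_closure ⟨v, h, rfl⟩

lemma zpow_mem' {S : Set V} {v : V} (h : v ∈ S) (m : ℤ) : (gen v : RA Γ) ^ m ∈ sub S :=
  zpow_mem (gen_mem h) m

lemma sub_mono {S S' : Set V} (h : S ⊆ S') : (sub S : Subgroup (RA Γ)) ≤ sub S' :=
  Subgroup.closure_mono (image_mono h)

/-- The special subgroup of the star of a vertex. -/
noncomputable def st (v : V) : Subgroup (RA Γ) := sub {u | Near Γ v u}

lemma zpow_mem_st {v u : V} (h : Near Γ v u) (m : ℤ) : (gen u : RA Γ) ^ m ∈ st v :=
  zpow_mem' (S := {u | Near Γ v u}) h m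

lemma commute_of_mem_st {v : V} {g : RA Γ} (h : g ∈ st v) : Commute (gen v) g := by
  refine Subgroup.closure_induction (p := fun g _ => Commute (gen v) g) ?_ ?_ ?_ ?_ h
  · rintro _ ⟨u, hu, rfl⟩; exact gen_comm hu
  · exact Commute.one_right _
  · intro _ _ _ _ h1 h2; exact h1.mul_right h2
  · intro _ _ h1; exact h1.inv_right

open Classical in
/-- Indicator that the letter `u` read after `g` is a first letter `v`. -/
noncomputable def chi (v u : V) (g : RA Γ) : ℤ := if u = v ∧ g ∈ st v then 1 else 0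

lemma chi_mul {v u : V} {g s : RA Γ} (h : u = v → s ∈ st v) : chi v u (g * s) = chi v u g := by
  unfold chi
  by_cases huv : u = v
  · have : g * s ∈ st v ↔ g ∈ st v := mul_mem_cancel_right (h huv)
    by_cases hg : g ∈ st v
    · rw [if_pos ⟨huv, this.2 hg⟩, if_pos ⟨huv, hg⟩]
    · rw [if_neg fun h => hg (this.1 h.2), if_neg fun h => hg h.2]
  · simp [huv]

lemma chi_mul_left {v u : V} {g s : RA Γ} (h : s ∈ st v) : chi v u (s * g) = chi v u g := by
  have : s * g ∈ st v ↔ g ∈ st v := mul_mem_cancel_left h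
  unfold chi
  by_cases hg : u = v ∧ g ∈ st v
  · rw [if_pos ⟨hg.1, this.2 hg.2⟩, if_pos hg]
  · rw [if_neg fun h => hg ⟨h.1, this.1 h.2⟩, if_neg hg]

/-- The permutation used to count first letters. -/
noncomputable def tw (v u : V) : Equiv.Perm (RA Γ × ℤ) where
  toFun p := (p.1 * (gen u)⁻¹, p.2 - chi v u p.1)
  invFun p := (p.1 * gen u, p.2 + chi v u p.1)
  left_inv p := by
    have : chi v u (p.1 * (gen u)⁻¹) = chi v u p.1 :=
      chi_mul (by rintro rfl; exact inv_mem (gen_mem Near.rfl))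
    simp [this]
  right_inv p := by
    have : chi v u (p.1 * gen u) = chi v u p.1 :=
      chi_mul (by rintro rfl; exact gen_mem Near.rfl)
    simp [this]

lemma tw_comm (v u w : V) (h : Γ.Adj u w) : Commute (tw (Γ := Γ) v u) (tw v w) := by
  ext1 p
  have h1 : chi v u (p.1 * (gen w)⁻¹) = chi v u p.1 :=
    chi_mul (by rintro rfl; exact inv_mem (gen_mem (Or.inr h)))
  have h2 : chi v w (p.1 * (gen u)⁻¹) = chi v w p.1 :=
    chi_mul (by rintro rfl; exact inv_mem (gen_mem (Or.inr h.symm)))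
  have h3 := (gen_comm (Γ := Γ) (Or.inr h)).inv_inv.eq
  simp only [tw, Equiv.Perm.coe_mul, Equiv.coe_fn_mk, Function.comp_apply, h1, h2, mul_assoc, h3]
  congr 1; ring

/-- The exponent of `v` as a first letter. -/
noncomputable def zf (v : V) (g : RA Γ) : ℤ := (liftHom (tw v) (tw_comm v) g⁻¹ (1, 0)).2

@[simp] lemma zf_one (v : V) : zf v (1 : RA Γ) = 0 := by simp [zf]

lemma tw_fst (v : V) (g : RA Γ) : (liftHom (tw v) (tw_comm v) g⁻¹ (1, 0)).1 = g := by
  induction g using ind_right with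
  | h1 => simp
  | hs g x ih =>
    obtain ⟨u, b⟩ := x
    simp only [map_inv, Equiv.Perm.inv_def] at ih
    cases b <;> simp [lt, tw, ih]

lemma zf_mul_lt (v : V) (g : RA Γ) (x : V × Bool) :
    zf v (g * lt x) = zf v g + sg x.2 * chi v x.1 g := by
  obtain ⟨u, b⟩ := x
  have h := tw_fst v g
  simp only [map_inv, Equiv.Perm.inv_def] at h
  cases b <;> simp [zf, lt, tw, h, sub_eq_add_neg]

lemma zf_mul_zpow (v u : V) (g : RA Γ) (m : ℤ) :
    zf v (g * gen u ^ m) = zf v g + m * chi v u g := by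
  have hc : ∀ k : ℤ, chi v u (g * gen u ^ k) = chi v u g := fun k =>
    chi_mul (by rintro rfl; exact zpow_mem_st Near.rfl k)
  induction m with
  | zero => simp
  | succ n ih =>
    have := zf_mul_lt v (g * gen u ^ (n : ℤ)) (u, true)
    simp only [lt, sg_true, zpow_one, one_mul, hc] at this
    rw [zpow_add_one, ← mul_assoc, this, ih]; ring
  | pred n ih =>
    have := zf_mul_lt v (g * gen u ^ (-n : ℤ)) (u, false)
    simp only [lt, sg_false, zpow_neg_one, hc] at this
    rw [zpow_sub_one, ← mul_assoc, this, ih]; ring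

lemma chi_of_ne {v u : V} (h : u ≠ v) (g : RA Γ) : chi v u g = 0 := by simp [chi, h]

lemma chi_of_mem {v : V} {g : RA Γ} (h : g ∈ st v) : chi v v g = 1 := by simp [chi, h]

lemma chi_of_not_mem {v u : V} {g : RA Γ} (h : g ∉ st v) : chi v u g = 0 := by simp [chi, h]

lemma chi_cases (v u : V) (g : RA Γ) : chi v u g = 0 ∨ (chi v u g = 1 ∧ u = v ∧ g ∈ st v) := by
  unfold chi; split_ifs with h
  · exact Or.inr ⟨rfl, h⟩
  · exact Or.inl rfl

lemma zf_mul_of_mem {S : Set V} {v : V} (hv : v ∉ S) {s : RA Γ} (hs : s ∈ sub S) (g : RA Γ) :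
    zf v (g * s) = zf v g := by
  induction hs using Subgroup.closure_induction_right with
  | one => simp
  | mul_right x _ y hy ih =>
    obtain ⟨u, hu, rfl⟩ := hy
    have := zf_mul_zpow v u (g * x) 1
    rw [chi_of_ne (by rintro rfl; exact hv hu), zpow_one] at this
    rw [← mul_assoc, this, ih]; simp
  | mul_inv_cancel x _ y hy ih =>
    obtain ⟨u, hu, rfl⟩ := hy
    have := zf_mul_zpow v u (g * x) (-1)
    rw [chi_of_ne (by rintro rfl; exact hv hu), zpow_neg_one] at this
    rw [← mul_assoc, this, ih]; simp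

lemma zf_of_mem {S : Set V} {v : V} (hv : v ∉ S) {s : RA Γ} (hs : s ∈ sub S) : zf v s = 0 := by
  simpa using zf_mul_of_mem hv hs 1

lemma zf_mul_left {v : V} {s : RA Γ} (hs : s ∈ st v) (g : RA Γ) :
    zf v (s * g) = zf v s + zf v g := by
  induction g using ind_right with
  | h1 => simp
  | hs g x ih => rw [← mul_assoc, zf_mul_lt, zf_mul_lt, ih, chi_mul_left hs]; ring

@[simp] lemma zf_zpow_self (v : V) (m : ℤ) : zf v (gen v ^ m : RA Γ) = m := by
  have := zf_mul_zpow v v (1 : RA Γ) m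
  rwa [chi_of_mem (one_mem _), one_mul, zf_one, zero_add, mul_one] at this

lemma zf_zpow_ne {v u : V} (h : u ≠ v) (m : ℤ) : zf v (gen u ^ m : RA Γ) = 0 := by
  have := zf_mul_zpow v u (1 : RA Γ) m
  rwa [chi_of_ne h, one_mul, zf_one, zero_add, mul_zero] at this

lemma near_of_mem_st {u v : V} {g : RA Γ} (hg : g ∈ st u) (h : zf v g ≠ 0) : Near Γ u v := by
  by_contra hn
  exact h (zf_of_mem (S := {w | Near Γ u w}) hn hg)

/-- First letters form a clique. -/
lemma near_of_zf {u v : V} {g : RA Γ} (hu : zf u g ≠ 0) (hv : zf v g ≠ 0) : Near Γ u v := by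
  by_contra hn
  have key : ∀ g : RA Γ, zf u g = 0 ∨ zf v g = 0 := by
    intro g
    induction g using ind_right with
    | h1 => simp
    | hs g x ih =>
      rw [zf_mul_lt, zf_mul_lt]
      rcases chi_cases u x.1 g with h1 | ⟨-, h1, h1'⟩
      · rcases chi_cases v x.1 g with h2 | ⟨-, -, h2'⟩
        · simpa [h1, h2] using ih
        · left
          have : zf u g = 0 := by
            by_contra h; exact hn (near_of_mem_st h2' h).symm
          simp [h1, this]
      · right
        have h3 : zf v g = 0 := by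
          by_contra h; exact hn (near_of_mem_st h1' h)
        have h4 : x.1 ≠ v := by rintro rfl; exact hn (Or.inl h1.symm)
        simp [h3, chi_of_ne h4]
  rcases key g with h | h
  exacts [hu h, hv h]

/-- Word length. -/
noncomputable def len (g : RA Γ) : ℕ := sInf {n | ∃ w : List (V × Bool), w.length = n ∧ wd w = g}

lemma exists_wd_len (g : RA Γ) : ∃ w : List (V × Bool), w.length = len g ∧ wd w = g := by
  obtain ⟨w, hw⟩ := wd_surj g
  exact Nat.sInf_mem (s := {n | ∃ w : List (V × Bool), w.length = n ∧ wd w = g}) ⟨_, w, rfl, hw⟩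

lemma len_wd_le (w : List (V × Bool)) : len (wd w : RA Γ) ≤ w.length := Nat.sInf_le ⟨w, rfl, rfl⟩

@[simp] lemma len_one : len (1 : RA Γ) = 0 := Nat.le_zero.1 (len_wd_le [])

lemma eq_one_of_len {g : RA Γ} (h : len g = 0) : g = 1 := by
  obtain ⟨w, h1, rfl⟩ := exists_wd_len g
  rw [h, List.length_eq_zero_iff] at h1
  simp [h1]

lemma len_mul_le (g h : RA Γ) : len (g * h) ≤ len g + len h := by
  obtain ⟨w, h1, h2⟩ := exists_wd_len g
  obtain ⟨w', h3, h4⟩ := exists_wd_len h
  have := len_wd_le (Γ := Γ) (w ++ w')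
  rwa [wd_append, h2, h4, List.length_append, h1, h3] at this

lemma len_inv_le (g : RA Γ) : len g⁻¹ ≤ len g := by
  obtain ⟨w, h1, h2⟩ := exists_wd_len g
  obtain ⟨w', h3, h4⟩ := exists_wd_inv (Γ := Γ) w
  have := len_wd_le (Γ := Γ) w'
  rwa [h4, h2, h3, h1] at this

@[simp] lemma len_inv (g : RA Γ) : len g⁻¹ = len g :=
  le_antisymm (len_inv_le g) (by simpa using len_inv_le g⁻¹)

lemma len_lt_le (x : V × Bool) : len (lt x : RA Γ) ≤ 1 := by
  simpa using len_wd_le (Γ := Γ) [x]

lemma len_mul_lt_le (g : RA Γ) (x : V × Bool) : len (g * lt x) ≤ len g + 1 :=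
  (len_mul_le _ _).trans (by have := len_lt_le (Γ := Γ) x; omega)

lemma len_zpow_le (v : V) (m : ℤ) : (len (gen v ^ m : RA Γ) : ℤ) ≤ |m| := by
  have h : ∀ n : ℕ, len (gen v ^ n : RA Γ) ≤ n := by
    intro n
    induction n with
    | zero => simp
    | succ n ih =>
      have := len_mul_lt_le (gen v ^ n : RA Γ) (v, true)
      simp only [lt, sg_true, zpow_one] at this
      rw [pow_succ]; omega
  obtain ⟨n, rfl | rfl⟩ := m.eq_nat_or_neg
  · simpa using h n
  · simpa using h n

lemma exists_first (v : V) (b : Bool) (w : List (V × Bool)) (h : 0 < sg b * zf v (wd w : RA Γ)) :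
    ∃ w' : List (V × Bool), w'.length + 1 = w.length ∧ (wd w : RA Γ) = lt (v, b) * wd w' := by
  induction w using List.reverseRecOn with
  | nil => simp at h
  | append_singleton w x ih =>
    by_cases h0 : 0 < sg b * zf v (wd w : RA Γ)
    · obtain ⟨w', h1, h2⟩ := ih h0
      exact ⟨w' ++ [x], by simp [← h1], by simp [h2, mul_assoc]⟩
    · simp only [wd_append, wd_cons, wd_nil, mul_one, zf_mul_lt] at h
      rcases chi_cases v x.1 (wd w : RA Γ) with h1 | ⟨h1, h2, h3⟩
      · simp [h1] at h; exact absurd h h0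
      · have hb : x.2 = b := by
          by_contra hb
          have : x.2 = !b := by cases hx : x.2 <;> cases b <;> simp_all
          rw [h1, this, sg_not] at h
          have := sg_mul_self b
          nlinarith
        refine ⟨w, by simp, ?_⟩
        have hx : x = (v, b) := Prod.ext h2 hb
        simp only [wd_append, wd_cons, wd_nil, mul_one, hx, lt]
        exact ((commute_of_mem_st h3).zpow_left _).eq.symm

/-- A first letter can be cancelled. -/
lemma len_lt_of_zf {v : V} {b : Bool} {g : RA Γ} (h : 0 < sg b * zf v g) :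
    len (lt (v, !b) * g) < len g := by
  obtain ⟨w, h1, rfl⟩ := exists_wd_len g
  obtain ⟨w', h2, h3⟩ := exists_first v b w h
  have h4 : lt (v, !b) * wd w = (wd w' : RA Γ) := by
    rw [h3, ← mul_assoc, ← lt_inv (v, b), inv_mul_cancel, one_mul]
  have := len_wd_le (Γ := Γ) w'
  rw [h4]; omega

lemma zf_lt_mul (v : V) (b : Bool) (g : RA Γ) : zf v (lt (v, b) * g) = sg b + zf v g := by
  rw [lt, zf_mul_left (zpow_mem_st Near.rfl _)]; simp

lemma len_lt_of_not_zf {v : V} {b : Bool} {g : RA Γ} (h : ¬ 0 < sg b * zf v g) :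
    len g < len (lt (v, !b) * g) := by
  have h1 : 0 < sg (!b) * zf v (lt (v, !b) * g) := by
    rw [zf_lt_mul, sg_not]
    have := sg_mul_self b
    nlinarith
  have := len_lt_of_zf h1
  rwa [← mul_assoc, Bool.not_not, lt_mul_not (v, b), one_mul] at this

lemma exists_zf_ne {g : RA Γ} (h : g ≠ 1) : ∃ v, zf v g ≠ 0 := by
  obtain ⟨w, h1, h2⟩ := exists_wd_len g
  cases w with
  | nil => exact absurd h2.symm h
  | cons x w =>
    refine ⟨x.1, fun h0 => ?_⟩
    have h3 := len_lt_of_not_zf (v := x.1) (b := x.2) (g := g) (by simp [h0])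
    have h4 : lt (x.1, !x.2) * g = wd w := by
      rw [← h2, wd_cons, ← mul_assoc, ← lt_inv, inv_mul_cancel, one_mul]
    have := len_wd_le (Γ := Γ) w
    rw [h4] at h3
    simp at h1; omega

lemma abs_le_len {f : RA Γ → ℤ} (h1 : f 1 = 0) (hs : ∀ g x, |f (g * lt x) - f g| ≤ 1) (g : RA Γ) :
    |f g| ≤ len g := by
  obtain ⟨w, h2, h3⟩ := exists_wd_len g
  rw [← h2, ← h3]
  clear h2 h3
  induction w using List.reverseRecOn with
  | nil => simp [h1]
  | append_singleton w x ih =>
    have := hs (wd w) x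
    simp only [wd_append, wd_cons, wd_nil, mul_one, List.length_append, List.length_singleton]
    push_cast
    have := abs_sub_abs_le_abs_sub (f (wd w * lt x)) (f (wd w))
    linarith

lemma abs_zf_le (v : V) (g : RA Γ) : |zf v g| ≤ len g := by
  refine abs_le_len (zf_one v) (fun g x => ?_) g
  rw [zf_mul_lt, add_sub_cancel_left, abs_mul, abs_sg, one_mul]
  rcases chi_cases v x.1 g with h | ⟨h, -⟩ <;> simp [h]

lemma finite_ball [Finite V] (n : ℕ) : {g : RA Γ | len g ≤ n}.Finite := by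
  refine ((List.finite_length_le (V × Bool) n).image wd).subset fun g hg => ?_
  obtain ⟨w, h1, h2⟩ := exists_wd_len g
  exact ⟨w, h1.le.trans hg, h2⟩

/-- The height homomorphism. -/
noncomputable def htHom : RA Γ →* Multiplicative ℤ :=
  liftHom (fun _ => Multiplicative.ofAdd 1) fun _ _ _ => Commute.refl _

/-- Height. -/
noncomputable def ht (g : RA Γ) : ℤ := (htHom g).toAdd

@[simp] lemma ht_one : ht (1 : RA Γ) = 0 := by simp [ht]
@[simp] lemma ht_mul (g h : RA Γ) : ht (g * h) = ht g + ht h := by simp [ht]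
@[simp] lemma ht_inv (g : RA Γ) : ht g⁻¹ = -ht g := by simp [ht]
@[simp] lemma ht_gen (v : V) : ht (gen v : RA Γ) = 1 := by simp [ht, htHom]
@[simp] lemma ht_zpow (v : V) (m : ℤ) : ht (gen v ^ m : RA Γ) = m := by simp [ht, htHom]

lemma abs_ht_le (g : RA Γ) : |ht g| ≤ len g :=
  abs_le_len ht_one (fun g x => by simp [lt, abs_sg]) g

variable (Γ) in
/-- The Bestvina-Brady group. -/
noncomputable def BB : Subgroup (RA Γ) := htHom.ker

lemma mem_BB {g : RA Γ} : g ∈ BB Γ ↔ ht g = 0 := by
  simp [BB, ht, MonoidHom.mem_ker]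

end Pool.Agent.P.MP_f05dbc_gt.NZ
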