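import Pool.Agent.P.MP_f05dbc_gt.NZ.Defs

/-!
Contractibility of clique complexes by adding and removing dominated edges.
-/

namespace Pool.Agent.P.MP_f05dbc_gt.NZ

open Set

section General

variable {V : Type} [Fintype V] [DecidableEq V]

/-- The closed cone over the clique complex. -/
def zsC (G : SimpleGraph V) : Set (V → ℝ) :=
  {t | (∀ v, 0 ≤ t v) ∧ ∀ x y, t x ≠ 0 → t y ≠ 0 → x = y ∨ G.Adj x y}

/-- The join of the clique complex with a point retracts onto it, in homogeneous coordinates. -/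
def zsW (G : SimpleGraph V) : Prop :=
  ∃ H : ℝ × (V → ℝ) → (V → ℝ), Continuous H ∧
    (∀ s t, 0 ≤ s → t ∈ zsC G → H (s, t) ∈ zsC G ∧ s + ∑ v, t v ≤ ∑ v, H (s, t) v) ∧
    ∀ t ∈ zsC G, H (0, t) = t

/-- Push mass from `u` and `v` to `w`. -/
def zsR (u v w : V) (σ : ℝ) (t : V → ℝ) : V → ℝ :=
  t - Pi.single u σ - Pi.single v σ + Pi.single w (3 * σ)

/-- `G'` is `G` with the new edge `u v`, which is dominated by `w`. -/
structure ZsMove (G G' : SimpleGraph V) (u v w : V) : Prop where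
  uv : u ≠ v
  wu : w ≠ u
  wv : w ≠ v
  nadj : ¬ G.Adj u v
  le : ∀ x y, G.Adj x y → G'.Adj x y
  new : ∀ x y, G'.Adj x y → G.Adj x y ∨ (x = u ∧ y = v) ∨ (x = v ∧ y = u)
  dom : ∀ x, (x = u ∨ G'.Adj x u) → (x = v ∨ G'.Adj x v) → x = w ∨ G.Adj x w

lemma zsR_sum (u v w : V) (σ : ℝ) (t : V → ℝ) : ∑ x, zsR u v w σ t x = ∑ x, t x + σ := by
  simp only [zsR, Pi.add_apply, Pi.sub_apply, Finset.sum_add_distrib, Finset.sum_sub_distrib,
    Finset.sum_pi_single', Finset.mem_univ, if_true]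
  ring

omit [Fintype V] in
lemma zsR_zero (u v w : V) (t : V → ℝ) : zsR u v w 0 t = t := by
  simp [zsR]

omit [Fintype V] in
lemma zsR_cont {X : Type} [TopologicalSpace X] (u v w : V) {σ : X → ℝ} {t : X → V → ℝ}
    (hσ : Continuous σ) (ht : Continuous t) : Continuous fun x => zsR u v w (σ x) (t x) := by
  have h : ∀ (z : V) {f : X → ℝ}, Continuous f →
      Continuous fun x => (Pi.single z (f x) : V → ℝ) := fun z f hf =>
    (continuous_single (A := fun _ : V => ℝ) z).comp hf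
  exact ((ht.sub (h u hσ)).sub (h v hσ)).add (h w (continuous_const.mul hσ))

omit [Fintype V] in
lemma zsR_mem {G G' : SimpleGraph V} {u v w : V} (h : ZsMove G G' u v w) {t : V → ℝ}
    (ht : t ∈ zsC G') {σ : ℝ} (h0 : 0 ≤ σ) (h1 : σ ≤ min (t u) (t v)) :
    zsR u v w σ t ∈ zsC G' ∧ (σ = min (t u) (t v) → zsR u v w σ t ∈ zsC G) := by
  have hu : zsR u v w σ t u = t u - σ := by
    simp [zsR, Pi.single_eq_of_ne h.uv, Pi.single_eq_of_ne h.wu.symm]
  have hv : zsR u v w σ t v = t v - σ := by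
    simp [zsR, Pi.single_eq_of_ne h.uv.symm, Pi.single_eq_of_ne h.wv.symm]
  have hw : zsR u v w σ t w = t w + 3 * σ := by
    simp [zsR, Pi.single_eq_of_ne h.wu, Pi.single_eq_of_ne h.wv]
  have ho : ∀ x, x ≠ u → x ≠ v → x ≠ w → zsR u v w σ t x = t x := fun x a b c => by
    simp [zsR, Pi.single_eq_of_ne a, Pi.single_eq_of_ne b, Pi.single_eq_of_ne c]
  have h1u := h1.trans (min_le_left _ _)
  have h1v := h1.trans (min_le_right _ _)
  have hpos : ∀ x, 0 ≤ zsR u v w σ t x := fun x => by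
    by_cases a : x = u
    · rw [a, hu]; linarith
    by_cases b : x = v
    · rw [b, hv]; linarith
    by_cases c : x = w
    · rw [c, hw]; linarith [ht.1 w]
    rw [ho x a b c]; exact ht.1 x
  have hsup : ∀ x, zsR u v w σ t x ≠ 0 → t x ≠ 0 ∨ (x = w ∧ t u ≠ 0 ∧ t v ≠ 0) := fun x hx => by
    by_cases a : x = u
    · left; intro e; rw [a] at e; rw [a, hu] at hx; apply hx; linarith
    by_cases b : x = v
    · left; intro e; rw [b] at e; rw [b, hv] at hx; apply hx; linarith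
    by_cases c : x = w
    · rcases h0.eq_or_lt with e | e
      · left; rw [← e, zsR_zero] at hx; exact hx
      · exact Or.inr ⟨c, by linarith, by linarith⟩
    rw [ho x a b c] at hx; exact Or.inl hx
  have key : ∀ x y, zsR u v w σ t x ≠ 0 → zsR u v w σ t y ≠ 0 →
      x = y ∨ G.Adj x y ∨ (G'.Adj x y ∧ ((x = u ∧ y = v) ∨ (x = v ∧ y = u))) := by
    intro x y hx hy
    rcases hsup x hx with a | ⟨a, au, av⟩
    · rcases hsup y hy with b | ⟨b, bu, bv⟩
      · rcases ht.2 x y a b with c | c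
        · exact Or.inl c
        · rcases h.new x y c with d | d
          · exact Or.inr (Or.inl d)
          · exact Or.inr (Or.inr ⟨c, d⟩)
      · rcases h.dom x (ht.2 x u a bu) (ht.2 x v a bv) with c | c
        · exact Or.inl (c.trans b.symm)
        · exact Or.inr (Or.inl (b ▸ c))
    · rcases hsup y hy with b | ⟨b, -, -⟩
      · rcases h.dom y (ht.2 y u b au) (ht.2 y v b av) with c | c
        · exact Or.inl (a.trans c.symm)
        · exact Or.inr (Or.inl (a ▸ c.symm))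
      · exact Or.inl (a.trans b.symm)
  refine ⟨⟨hpos, fun x y hx hy => ?_⟩, fun e => ⟨hpos, fun x y hx hy => ?_⟩⟩
  · rcases key x y hx hy with a | a | a
    · exact Or.inl a
    · exact Or.inr (h.le _ _ a)
    · exact Or.inr a.1
  · have hz : zsR u v w σ t u = 0 ∨ zsR u v w σ t v = 0 := by
      rw [hu, hv, e]
      rcases le_total (t u) (t v) with a | a
      · left; rw [min_eq_left a, sub_self]
      · right; rw [min_eq_right a, sub_self]
    rcases key x y hx hy with a | a | ⟨-, ⟨rfl, rfl⟩ | ⟨rfl, rfl⟩⟩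
    · exact Or.inl a
    · exact Or.inr a
    · exact (hz.elim hx hy).elim
    · exact (hz.elim hy hx).elim

lemma zsW_down {G G' : SimpleGraph V} {u v w : V} (h : ZsMove G G' u v w) (hW : zsW G') :
    zsW G := by
  obtain ⟨H, hc, hm, h0⟩ := hW
  have hsub : ∀ t ∈ zsC G, t ∈ zsC G' := fun t ht =>
    ⟨ht.1, fun x y a b => (ht.2 x y a b).imp_right (h.le x y)⟩
  refine ⟨fun p => zsR u v w (min (H p u) (H p v)) (H p), zsR_cont u v w (by fun_prop) hc,
    fun s t hs ht => ?_, fun t ht => ?_⟩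
  · obtain ⟨a, b⟩ := hm s t hs (hsub t ht)
    have c := le_min (a.1 u) (a.1 v)
    refine ⟨(zsR_mem h a c le_rfl).2 rfl, ?_⟩
    simp only [zsR_sum]
    linarith
  · have : min (t u) (t v) = 0 := by
      by_contra e
      have a : t u ≠ 0 := fun a => e (by rw [a, min_eq_left (ht.1 v)])
      have b : t v ≠ 0 := fun b => e (by rw [b, min_eq_right (ht.1 u)])
      exact (ht.2 u v a b).elim h.uv h.nadj
    simp only [h0 t (hsub t ht), this, zsR_zero]

lemma zsW_up {G G' : SimpleGraph V} {u v w : V} (h : ZsMove G G' u v w) (hW : zsW G) :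
    zsW G' := by
  obtain ⟨H, hc, hm, h0⟩ := hW
  have c1 : Continuous fun p : ℝ × (V → ℝ) => zsR u v w (min (p.2 u) (p.2 v)) p.2 :=
    zsR_cont u v w (by fun_prop) continuous_snd
  have c2 : Continuous fun p : ℝ × (V → ℝ) => zsR u v w (min p.1 (min (p.2 u) (p.2 v))) p.2 :=
    zsR_cont u v w (by fun_prop) continuous_snd
  refine ⟨fun p => zsR u v w (min p.1 (min (p.2 u) (p.2 v))) p.2 +
      (H (p.1 - min p.1 (min (p.2 u) (p.2 v)), zsR u v w (min (p.2 u) (p.2 v)) p.2) -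
        zsR u v w (min (p.2 u) (p.2 v)) p.2),
    c2.add ((hc.comp (Continuous.prodMk (by fun_prop) c1)).sub c1), fun s t hs ht => ?_,
    fun t ht => ?_⟩
  · have c := le_min (ht.1 u) (ht.1 v)
    have d := (zsR_mem h ht c le_rfl).2 rfl
    rcases le_total s (min (t u) (t v)) with e | e
    · simp only [min_eq_left e, sub_self, h0 _ d, add_zero, zsR_sum]
      exact ⟨(zsR_mem h ht hs e).1, by linarith⟩
    · simp only [min_eq_right e, add_sub_cancel]
      obtain ⟨a, b⟩ := hm _ _ (sub_nonneg.2 e) d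
      rw [zsR_sum] at b
      exact ⟨⟨a.1, fun x y p q => (a.2 x y p q).imp_right (h.le x y)⟩, by linarith⟩
  · have c := le_min (ht.1 u) (ht.1 v)
    simp only [min_eq_left c, sub_self, h0 _ ((zsR_mem h ht c le_rfl).2 rfl), add_zero, zsR_zero]

lemma zsW_cone {G : SimpleGraph V} (w : V) (h : ∀ x, x = w ∨ G.Adj x w) : zsW G := by
  have hc : Continuous fun p : ℝ × (V → ℝ) => (Pi.single w p.1 : V → ℝ) :=
    (continuous_single (A := fun _ : V => ℝ) w).comp continuous_fst
  refine ⟨fun p => p.2 + Pi.single w p.1, continuous_snd.add hc, fun s t hs ht => ⟨⟨fun x => ?_,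
      fun x y hx hy => ?_⟩, ?_⟩, fun t _ => by simp⟩
  · by_cases a : x = w
    · simpa [a] using add_nonneg (ht.1 w) hs
    · simpa [Pi.single_eq_of_ne a] using ht.1 x
  · by_cases a : x = w
    · exact (h y).imp (fun e => a.trans e.symm) fun e => a ▸ e.symm
    by_cases b : y = w
    · exact b ▸ h x
    exact ht.2 x y (by simpa [Pi.single_eq_of_ne a] using hx)
      (by simpa [Pi.single_eq_of_ne b] using hy)
  · simp only [Pi.add_apply, Finset.sum_add_distrib, Finset.sum_pi_single', Finset.mem_univ,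
      if_true]
    linarith

omit [DecidableEq V] in
lemma coneRetr_of_zsW [Nonempty V] {G : SimpleGraph V} (hW : zsW G) : ConeRetr G := by
  obtain ⟨H, hc, hm, h0⟩ := hW
  have hF : Continuous fun t : V → ℝ => H (1 - ‖t‖, t) := by fun_prop
  have h1 : ∀ t ∈ cone G, t ∈ zsC G ∧ ‖t‖ ≤ 1 := fun t ht =>
    ⟨⟨fun v => (ht.1 v).1, ht.2⟩, (pi_norm_le_iff_of_nonneg zero_le_one).2 fun v => by
      rw [Real.norm_of_nonneg (ht.1 v).1]; exact (ht.1 v).2⟩
  have h2 : ∀ t ∈ cone G, H (1 - ‖t‖, t) ∈ zsC G ∧ 0 < ‖H (1 - ‖t‖, t)‖ := fun t ht => by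
    obtain ⟨a, b⟩ := hm _ t (sub_nonneg.2 (h1 t ht).2) (h1 t ht).1
    refine ⟨a, norm_pos_iff.2 fun e => ?_⟩
    have c : ‖t‖ ≤ ∑ v, t v :=
      (pi_norm_le_iff_of_nonneg (Finset.sum_nonneg fun v _ => (ht.1 v).1)).2 fun v => by
        rw [Real.norm_of_nonneg (ht.1 v).1]
        exact Finset.single_le_sum (fun v _ => (ht.1 v).1) (Finset.mem_univ v)
    simp only [e, Pi.zero_apply, Finset.sum_const_zero] at b
    linarith
  refine ⟨fun t => ‖H (1 - ‖t‖, t)‖⁻¹ • H (1 - ‖t‖, t),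
    (hF.norm.continuousOn.inv₀ fun t ht => (h2 t ht).2.ne').smul hF.continuousOn,
    fun t ht => ?_, fun t ht => ?_⟩
  · obtain ⟨a, b⟩ := h2 t ht
    show ‖H (1 - ‖t‖, t)‖⁻¹ • H (1 - ‖t‖, t) ∈ _
    generalize H (1 - ‖t‖, t) = z at a b
    refine ⟨⟨fun v => ⟨mul_nonneg (inv_nonneg.2 b.le) (a.1 v), ?_⟩, fun x y hx hy =>
      a.2 x y (right_ne_zero_of_mul hx) (right_ne_zero_of_mul hy)⟩, ?_⟩
    · exact inv_mul_le_one_of_le₀ ((le_abs_self _).trans (norm_le_pi_norm z v)) b.le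
    · by_contra e
      refine lt_irrefl _ ((pi_norm_lt_iff b).2 fun v => ?_)
      refine (norm_le_pi_norm z v).lt_of_ne fun c => e ⟨v, ?_⟩
      rw [Real.norm_of_nonneg (a.1 v)] at c
      simp only [Pi.smul_apply, smul_eq_mul, c]
      exact inv_mul_cancel₀ b.ne'
  · obtain ⟨v, hv⟩ := ht.2
    have e : ‖t‖ = 1 := le_antisymm (h1 t ht.1).2 (by simpa [hv] using norm_le_pi_norm t v)
    simp only [e, sub_self, h0 t (h1 t ht.1).1, inv_one, one_smul]

end General

/-- Adjacency read off a bit mask. -/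
def zsAdj (A x y : ℕ) : Bool := x != y && A.testBit (64 * max x y + min x y)

/-- The graph of a bit mask. -/
def zsGr (n A : ℕ) : SimpleGraph (Fin n) where
  Adj x y := zsAdj A x y = true
  symm := ⟨fun x y h => by
    simpa only [zsAdj, max_comm y.1 x.1, min_comm y.1 x.1, bne_comm (a := y.1)] using h⟩
  loopless := ⟨fun x => by simp [zsAdj]⟩

instance (n A : ℕ) : DecidableRel (zsGr n A).Adj :=
  fun x y => inferInstanceAs (Decidable (zsAdj A x y = true))

/-- Checks a list of moves that ends in a cone with apex `0`. -/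
def zsRun (n : ℕ) : ℕ → List (ℕ × ℕ × ℕ) → Bool
  | A, [] => (List.range n).all fun x => x == 0 || zsAdj A x 0
  | A, (u, v, w) :: l => decide (u < n) && decide (v < n) && decide (w < n) && u != v &&
      zsAdj A u w && zsAdj A v w &&
      ((List.range n).all fun x => !(zsAdj A x u && zsAdj A x v) || x == w || zsAdj A x w) &&
      zsRun n (A ^^^ 2 ^ (64 * max u v + min u v)) l

lemma zsAdj_ne {A x y : ℕ} (h : zsAdj A x y = true) : x ≠ y := by
  simp only [zsAdj, Bool.and_eq_true, bne_iff_ne] at h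
  exact h.1

lemma zsAdj_tog {A u v x y : ℕ} (hu : u < 64) (hv : v < 64) (hx : x < 64) (hy : y < 64)
    (h : ¬ ((x = u ∧ y = v) ∨ (x = v ∧ y = u))) :
    zsAdj (A ^^^ 2 ^ (64 * max u v + min u v)) x y = zsAdj A x y := by
  have : ¬ (64 * max u v + min u v = 64 * max x y + min x y) := by omega
  simp [zsAdj, Nat.testBit_xor, this]

lemma zsAdj_tog' {A u v : ℕ} (h : u ≠ v) :
    zsAdj (A ^^^ 2 ^ (64 * max u v + min u v)) u v = !zsAdj A u v := by
  simp [zsAdj, Nat.testBit_xor, bne_iff_ne.2 h]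

lemma zsMove_of {n : ℕ} {A A' : ℕ} {u v w : Fin n} (uv : u ≠ v) (h0 : zsAdj A u v = false)
    (h1 : zsAdj A' u v = true)
    (h2 : ∀ x y : Fin n, ¬ ((x = u ∧ y = v) ∨ (x = v ∧ y = u)) → zsAdj A' x y = zsAdj A x y)
    (hu : zsAdj A u w = true) (hv : zsAdj A v w = true)
    (hd : ∀ x : Fin n, zsAdj A x u = true → zsAdj A x v = true → x = w ∨ zsAdj A x w = true) :
    ZsMove (zsGr n A) (zsGr n A') u v w := by
  have wu : w ≠ u := fun e => zsAdj_ne hu (by rw [e])
  have wv : w ≠ v := fun e => zsAdj_ne hv (by rw [e])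
  refine ⟨uv, wu, wv, fun h => by simp [zsGr, h0] at h, fun x y h => ?_, fun x y h => ?_,
    fun x a b => ?_⟩
  · by_cases c : (x = u ∧ y = v) ∨ (x = v ∧ y = u)
    · rcases c with ⟨rfl, rfl⟩ | ⟨rfl, rfl⟩
      · exact h1
      · exact (zsGr n A').adj_symm h1
    · exact (h2 x y c).trans h
  · by_cases c : (x = u ∧ y = v) ∨ (x = v ∧ y = u)
    · exact Or.inr c
    · exact Or.inl ((h2 x y c).symm.trans h)
  · by_cases c : x = u
    · exact Or.inr (c ▸ hu)
    by_cases d : x = v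
    · exact Or.inr (d ▸ hv)
    exact hd x ((h2 x u (by tauto)).symm.trans (a.resolve_left c))
      ((h2 x v (by tauto)).symm.trans (b.resolve_left d))

theorem zsW_of_run {n : ℕ} (hn : n ≤ 64) (h0 : 0 < n) (l : List (ℕ × ℕ × ℕ)) :
    ∀ A, zsRun n A l = true → zsW (zsGr n A) := by
  induction l with
  | nil =>
    intro A h
    refine zsW_cone ⟨0, h0⟩ fun x => ?_
    simp only [zsRun, List.all_eq_true, List.mem_range, Bool.or_eq_true, beq_iff_eq] at h
    exact (h x x.2).imp_left Fin.ext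
  | cons p l ih =>
    obtain ⟨u, v, w⟩ := p
    intro A h
    simp only [zsRun, List.all_eq_true, List.mem_range, Bool.or_eq_true, beq_iff_eq,
      Bool.and_eq_true, decide_eq_true_eq, bne_iff_ne, Bool.not_eq_true', Bool.and_eq_false_iff]
      at h
    obtain ⟨⟨⟨⟨⟨⟨⟨hu, hv⟩, hw⟩, uv⟩, uw⟩, vw⟩, hd⟩, hr⟩ := h
    have hW := ih _ hr
    have uv' : (⟨u, hu⟩ : Fin n) ≠ ⟨v, hv⟩ := fun e => uv (congrArg Fin.val e)
    have h2 : ∀ x y : Fin n, ¬ ((x = ⟨u, hu⟩ ∧ y = ⟨v, hv⟩) ∨ (x = ⟨v, hv⟩ ∧ y = ⟨u, hu⟩)) →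
        zsAdj (A ^^^ 2 ^ (64 * max u v + min u v)) x y = zsAdj A x y := fun x y c =>
      zsAdj_tog (by omega) (by omega) (by omega) (by omega) (by simpa [Fin.ext_iff] using c)
    have h3 := zsAdj_tog' (A := A) uv
    have hd' : ∀ x : Fin n, zsAdj A x u = true → zsAdj A x v = true →
        x = ⟨w, hw⟩ ∨ zsAdj A x w = true := fun x a b => by
      rcases hd x x.2 with (c | c) | c
      · simp [a, b] at c
      · exact Or.inl (Fin.ext c)
      · exact Or.inr c
    have nu := zsAdj_ne uw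
    have nv := zsAdj_ne vw
    cases e : zsAdj A u v with
    | false =>
      exact zsW_down (zsMove_of (w := ⟨w, hw⟩) uv' e (by rw [h3, e]; rfl) h2 uw vw hd') hW
    | true =>
      refine zsW_up (zsMove_of (w := ⟨w, hw⟩) uv' (by rw [h3, e]; rfl) e
        (fun x y c => (h2 x y c).symm) ?_ ?_ fun x a b => ?_) hW
      · exact (h2 ⟨u, hu⟩ ⟨w, hw⟩ (by simp; omega)).trans uw
      · exact (h2 ⟨v, hv⟩ ⟨w, hw⟩ (by simp; omega)).trans vw
      · have xu := zsAdj_ne a
        have xv := zsAdj_ne b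
        simp only at xu xv
        exact (hd' x ((h2 x ⟨u, hu⟩ (by simp [Fin.ext_iff]; omega)).symm.trans a)
          ((h2 x ⟨v, hv⟩ (by simp [Fin.ext_iff]; omega)).symm.trans b)).imp_right
          fun c => (h2 x ⟨w, hw⟩ (by simp [Fin.ext_iff]; omega)).trans c

end Pool.Agent.P.MP_f05dbc_gt.NZ
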